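import Mathlib

/-!
Points of a plane curve missing the vertices of the coordinate triangle, over a valuation ring.
-/

namespace Pool.Agent.ZP46

open MvPolynomial

variable {V : ValuationSubring ℂ}

/-- the coefficients of `F` lie in `V`, those of the pure powers are units -/
structure GoodAt (V : ValuationSubring ℂ) (F : MvPolynomial (Fin 3) ℂ) (d : ℕ) : Prop where
  mem : ∀ e, F.coeff e ∈ V
  unit : ∀ i, V.valuation (F.coeff (Finsupp.single i d)) = 1

lemma eval_smul {F : MvPolynomial (Fin 3) ℂ} {d : ℕ} (hF : F.IsHomogeneous d) (c : ℂ) (u : Fin 3 → ℂ) :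
    eval (fun i => c * u i) F = c ^ d * eval u F := by
  rw [eval_eq, eval_eq, Finset.mul_sum]
  refine Finset.sum_congr rfl fun e he => ?_
  have h1 : ∑ i ∈ e.support, e i = d := by
    have := hF.degree_eq_sum_deg_support he
    rw [← this]
  rw [← h1, ← Finset.prod_pow_eq_pow_sum]
  simp only [mul_pow]
  rw [Finset.prod_mul_distrib]
  ring

lemma cov3 : ∀ i j k : Fin 3, i ≠ j → k ≠ i → k ≠ j → ∀ a, a = i ∨ a = j ∨ a = k := by
  decide

/-- the value is a unit when two coordinates are small and the third is a unit -/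
lemma val_eval {F : MvPolynomial (Fin 3) ℂ} {d : ℕ} (hF : F.IsHomogeneous d) (hV : GoodAt V F d)
    {w : Fin 3 → ℂ} (hw : ∀ i, V.valuation (w i) ≤ 1) {i j : Fin 3} (hij : i ≠ j)
    (hi : V.valuation (w i) < 1) (hj : V.valuation (w j) < 1) {k : Fin 3} (hki : k ≠ i) (hkj : k ≠ j)
    (hk : V.valuation (w k) = 1) : V.valuation (eval w F) = 1 := by
  classical
  have hcov : ∀ a : Fin 3, a = i ∨ a = j ∨ a = k := cov3 i j k hij hki hkj
  set e₀ : Fin 3 →₀ ℕ := Finsupp.single k d with he₀
  have hc0 : F.coeff e₀ ≠ 0 := by
    intro h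
    have := hV.unit k
    rw [← he₀, h, map_zero] at this
    exact zero_ne_one this
  have hmem : e₀ ∈ F.support := mem_support_iff.mpr hc0
  rw [eval_eq, ← Finset.add_sum_erase _ _ hmem]
  have h1 : V.valuation (F.coeff e₀ * ∏ a ∈ e₀.support, w a ^ e₀ a) = 1 := by
    rw [map_mul, hV.unit k, one_mul, map_prod]
    refine Finset.prod_eq_one fun a ha => ?_
    have hak : a = k := by
      by_contra hne
      rw [Finsupp.mem_support_iff, he₀, Finsupp.single_apply, if_neg (Ne.symm hne)] at ha
      exact ha rfl
    rw [hak, map_pow, hk, one_pow]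
  have h2 : V.valuation (∑ e ∈ F.support.erase e₀, F.coeff e * ∏ a ∈ e.support, w a ^ e a) < 1 := by
    refine V.valuation.map_sum_lt one_ne_zero fun e he => ?_
    rw [Finset.mem_erase] at he
    have hdeg := hF.degree_eq_sum_deg_support he.2
    have hex : ∃ a ∈ e.support, V.valuation (w a) < 1 := by
      by_contra hcon
      push Not at hcon
      have hi0 : e i = 0 := by
        by_contra h
        exact absurd hi (not_lt.mpr (hcon i (Finsupp.mem_support_iff.mpr h)))
      have hj0 : e j = 0 := by
        by_contra h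
        exact absurd hj (not_lt.mpr (hcon j (Finsupp.mem_support_iff.mpr h)))
      apply he.1
      ext a
      rcases hcov a with rfl | rfl | rfl
      · rw [hi0, he₀, Finsupp.single_apply, if_neg hki]
      · rw [hj0, he₀, Finsupp.single_apply, if_neg hkj]
      · rw [he₀, Finsupp.single_eq_same]
        have h3 : ∑ b ∈ e.support, e b = d := by rw [← hdeg]
        have h4 : ∑ b ∈ e.support, e b = e a := by
          refine Finset.sum_eq_single a ?_ ?_
          · intro b _ hb
            rcases hcov b with rfl | rfl | rfl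
            · exact hi0
            · exact hj0
            · exact absurd rfl hb
          · intro h
            rwa [Finsupp.notMem_support_iff] at h
        rw [← h4, h3]
    obtain ⟨a, ha, hav⟩ := hex
    rw [map_mul, map_prod]
    have h3 : ∏ b ∈ e.support, V.valuation (w b ^ e b) < 1 := by
      rw [← Finset.mul_prod_erase _ _ ha]
      have h4 : V.valuation (w a ^ e a) < 1 := by
        rw [map_pow]
        exact pow_lt_one₀ zero_le hav (Finsupp.mem_support_iff.mp ha)
      have h5 : ∏ b ∈ e.support.erase a, V.valuation (w b ^ e b) ≤ 1 := by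
        refine Finset.prod_le_one' fun b _ => ?_
        rw [map_pow]
        exact pow_le_one₀ zero_le (hw b)
      calc _ ≤ V.valuation (w a ^ e a) * 1 := mul_le_mul_right h5 _
        _ < 1 := by rwa [mul_one]
    calc V.valuation (F.coeff e) * ∏ b ∈ e.support, V.valuation (w b ^ e b)
        ≤ 1 * ∏ b ∈ e.support, V.valuation (w b ^ e b) :=
          mul_le_mul_left ((V.valuation_le_one_iff _).mpr (hV.mem e)) _
      _ < 1 := by rwa [one_mul]
  rw [V.valuation.map_add_eq_of_lt_left (by rwa [h1]), h1]

/-- after scaling, all coordinates are integral and at most one of them is not a unit -/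
theorem scale {F : MvPolynomial (Fin 3) ℂ} {d : ℕ} (hF : F.IsHomogeneous d) (hV : GoodAt V F d)
    {u : Fin 3 → ℂ} (hu : u ≠ 0) (h0 : eval u F = 0) :
    ∃ c : ℂ, c ≠ 0 ∧ (∀ i, V.valuation (c * u i) ≤ 1) ∧
      ∀ i j, i ≠ j → V.valuation (c * u i) = 1 ∨ V.valuation (c * u j) = 1 := by
  obtain ⟨m, -, hm⟩ := Finset.exists_max_image (Finset.univ : Finset (Fin 3)) (fun i => V.valuation (u i)) ⟨0, Finset.mem_univ _⟩
  have hm' : ∀ i, V.valuation (u i) ≤ V.valuation (u m) := fun i => hm i (Finset.mem_univ _)
  have hum : u m ≠ 0 := by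
    intro h
    apply hu
    ext i
    have h1 := hm' i
    rw [h, map_zero] at h1
    have h2 := le_antisymm h1 zero_le
    rwa [map_eq_zero] at h2
  have hvm : V.valuation (u m) ≠ 0 := by rwa [Ne, map_eq_zero]
  have hle : ∀ i, V.valuation ((u m)⁻¹ * u i) ≤ 1 := by
    intro i
    rw [map_mul, map_inv₀]
    calc (V.valuation (u m))⁻¹ * V.valuation (u i) ≤ (V.valuation (u m))⁻¹ * V.valuation (u m) :=
          mul_le_mul_right (hm' i) _
      _ = 1 := inv_mul_cancel₀ hvm
  have hm1 : V.valuation ((u m)⁻¹ * u m) = 1 := by rw [inv_mul_cancel₀ hum, map_one]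
  refine ⟨(u m)⁻¹, inv_ne_zero hum, hle, fun i j hij => ?_⟩
  by_contra hcon
  push Not at hcon
  have hi := lt_of_le_of_ne (hle i) hcon.1
  have hj := lt_of_le_of_ne (hle j) hcon.2
  have hmi : m ≠ i := by
    rintro rfl
    exact hcon.1 hm1
  have hmj : m ≠ j := by
    rintro rfl
    exact hcon.2 hm1
  have h1 := val_eval hF hV (w := fun i => (u m)⁻¹ * u i) hle hij hi hj hmi hmj hm1
  rw [eval_smul hF, h0, mul_zero, map_zero] at h1
  exact zero_ne_one h1

/-- the integrality pattern -/
lemma local_pattern {F : MvPolynomial (Fin 3) ℂ} {d : ℕ} (hF : F.IsHomogeneous d) (hV : GoodAt V F d)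
    {u : Fin 3 → ℂ} (hu : ∀ i, u i ≠ 0) (h0 : eval u F = 0) {a b c : Fin 3} (hab : a ≠ b)
    (hca : c ≠ a) {la lb lc : ℂ} (ha : 1 < V.valuation la) (hb : V.valuation lb ≤ 1)
    (hc : V.valuation lc = 1) :
    (la * (u a / u b) ∈ V → lb * (u b / u c) ∈ V ∧ lc * (u c / u a) ∉ V) ∧
    ¬ (lb * (u b / u c) ∉ V ∧ lc * (u c / u a) ∉ V) := by
  obtain ⟨s, hs0, hle, hone⟩ := scale hF hV (u := u) (by
    intro h
    apply hu 0
    rw [h]; rfl) h0
  have hq : ∀ i j, V.valuation (u i / u j) = V.valuation (s * u i) / V.valuation (s * u j) := by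
    intro i j
    rw [← map_div₀, mul_div_mul_left _ _ hs0]
  set r : Fin 3 → V.ValueGroup := fun i => V.valuation (s * u i) with hr
  have hr0 : ∀ i, 0 < r i := fun i => zero_lt_iff.mpr (by
    rw [hr]
    simp only [ne_eq, map_eq_zero]
    exact mul_ne_zero hs0 (hu i))
  simp only [← V.valuation_le_one_iff, map_mul, hq]
  have e1 : ∀ i, V.valuation s * V.valuation (u i) = r i := fun i => by rw [hr]; simp only [map_mul]
  simp only [e1]
  constructor
  · intro h
    have h1 : r a < r b := by
      by_contra hcon
      push Not at hcon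
      have h2 : 1 ≤ r a / r b := (one_le_div₀ (hr0 b)).mpr hcon
      have h3 : V.valuation la * 1 ≤ V.valuation la * (r a / r b) := mul_le_mul_right h2 _
      rw [mul_one] at h3
      exact absurd (ha.trans_le h3) (not_lt.mpr h)
    have h2 : r a < 1 := h1.trans_le (hle b)
    have h3 : r b = 1 := (hone a b hab).resolve_left h2.ne
    have h4 : r c = 1 := (hone a c hca.symm).resolve_left h2.ne
    rw [h3, h4, div_one, mul_one, hc, one_mul, one_div]
    exact ⟨hb, not_le.mpr ((one_lt_inv₀ (hr0 a)).mpr h2)⟩
  · rintro ⟨h1, h2⟩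
    rw [not_le] at h1 h2
    rw [hc, one_mul] at h2
    have h3 : r a < r c := (one_lt_div₀ (hr0 a)).mp h2
    have h4 : r a < 1 := h3.trans_le (hle c)
    have h5 : r b = 1 := (hone a b hab).resolve_left h4.ne
    have h6 : r c = 1 := (hone a c hca.symm).resolve_left h4.ne
    rw [h5, h6, div_one, mul_one] at h1
    exact absurd hb (not_le.mpr h1)

/-- points of the curve with a prescribed ratio of two coordinates -/
lemma exists_point {F : MvPolynomial (Fin 3) ℂ} {d : ℕ} (hF : F.IsHomogeneous d) (hd : d ≠ 0)
    (hV : GoodAt V F d) {a b c : Fin 3} (hab : a ≠ b) (hbc : b ≠ c) (hca : c ≠ a) {y z : ℂ}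
    (hy : y ≠ 0) (hz : z ≠ 0) (hyz : V.valuation y < V.valuation z) :
    ∃ u : Fin 3 → ℂ, (∀ i, u i ≠ 0) ∧ eval u F = 0 ∧ u a = y ∧ u b = z := by
  classical
  have hcov : ∀ i : Fin 3, i = a ∨ i = b ∨ i = c := cov3 a b c hab hca hbc.symm
  let g : Fin 3 → Polynomial ℂ := fun i => if i = a then Polynomial.C y else if i = b then Polynomial.C z else Polynomial.X
  have hga : g a = Polynomial.C y := by simp [g]
  have hgb : g b = Polynomial.C z := by simp [g, hab.symm]
  have hgc : g c = Polynomial.X := by simp [g, hca, hbc.symm]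
  let P : Polynomial ℂ := MvPolynomial.aeval g F
  have hPeval : ∀ t : ℂ, P.eval t = eval (fun i => (g i).eval t) F := by
    intro t
    show Polynomial.eval t (MvPolynomial.aeval g F) = _
    rw [MvPolynomial.aeval_def, MvPolynomial.eval₂_eq, Polynomial.eval_finsetSum, eval_eq]
    refine Finset.sum_congr rfl fun e _ => ?_
    rw [Polynomial.eval_mul, Polynomial.eval_prod]
    simp
  have hcoeff : P.coeff d = F.coeff (Finsupp.single c d) := by
    show (MvPolynomial.aeval g F).coeff d = _
    rw [MvPolynomial.aeval_def, MvPolynomial.eval₂_eq, Polynomial.finsetSum_coeff]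
    rw [Finset.sum_eq_single (Finsupp.single c d)]
    · have h1 : (Finsupp.single c d).support = {c} := Finsupp.support_single c hd
      rw [h1, Finset.prod_singleton, hgc, Finsupp.single_eq_same]
      simp
    · intro e he hne
      have hdeg := hF.degree_eq_sum_deg_support he
      have h3 : ∑ i, e i = d := by
        rw [hdeg]
        symm
        exact Finset.sum_subset (Finset.subset_univ _) (fun i _ hi => by rwa [Finsupp.notMem_support_iff] at hi)
      have h4 : ∑ i, e i = e a + e b + e c := by
        have : (Finset.univ : Finset (Fin 3)) = {a, b, c} := by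
          ext i; simp [hcov i]
        rw [this, Finset.sum_insert (by simp [hab, hca.symm]), Finset.sum_insert (by simp [hbc]), Finset.sum_singleton]
        ring
      have hlt : e c < d := by
        by_contra hcon
        push Not at hcon
        apply hne
        ext i
        rcases hcov i with rfl | rfl | rfl
        · rw [Finsupp.single_apply, if_neg hca]; omega
        · rw [Finsupp.single_apply, if_neg hbc.symm]; omega
        · rw [Finsupp.single_eq_same]; omega
      have h5 : (∏ i ∈ e.support, g i ^ e i) = Polynomial.C (y ^ e a * z ^ e b) * Polynomial.X ^ e c := by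
        have h6 : (∏ i ∈ e.support, g i ^ e i) = ∏ i, g i ^ e i :=
          Finset.prod_subset (Finset.subset_univ _) (fun i _ hi => by
            rw [Finsupp.notMem_support_iff] at hi; rw [hi, pow_zero])
        have : (Finset.univ : Finset (Fin 3)) = {a, b, c} := by
          ext i; simp [hcov i]
        rw [h6, this, Finset.prod_insert (by simp [hab, hca.symm]), Finset.prod_insert (by simp [hbc]), Finset.prod_singleton,
          hga, hgb, hgc, ← Polynomial.C_pow, ← Polynomial.C_pow, Polynomial.C_mul, mul_assoc]
      rw [h5]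
      have h7 : (algebraMap ℂ (Polynomial ℂ)) (F.coeff e) * (Polynomial.C (y ^ e a * z ^ e b) * Polynomial.X ^ e c) =
          Polynomial.C (F.coeff e * (y ^ e a * z ^ e b)) * Polynomial.X ^ e c := by
        rw [Polynomial.algebraMap_eq]
        simp only [map_mul, mul_assoc]
      rw [h7, Polynomial.coeff_C_mul, Polynomial.coeff_X_pow, if_neg hlt.ne', mul_zero]
    · intro h
      rw [MvPolynomial.notMem_support_iff] at h
      have := hV.unit c
      rw [h, map_zero] at this
      exact absurd this zero_ne_one
  have hcne : F.coeff (Finsupp.single c d) ≠ 0 := by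
    intro h
    have := hV.unit c
    rw [h, map_zero] at this
    exact zero_ne_one this
  have hdegP : P.degree ≠ 0 := by
    intro h
    have h1 : P.natDegree = 0 := Polynomial.natDegree_eq_of_degree_eq_some h
    have h2 : P.coeff d = 0 := Polynomial.coeff_eq_zero_of_natDegree_lt (by omega)
    rw [hcoeff] at h2
    exact hcne h2
  obtain ⟨t, ht⟩ := IsAlgClosed.exists_root P hdegP
  refine ⟨fun i => (g i).eval t, ?_, ?_, ?_, ?_⟩
  · have hzero : eval (fun i => (g i).eval t) F = 0 := by rw [← hPeval]; exact ht
    obtain ⟨s, hs0, hle, hone⟩ := scale hF hV (u := fun i => (g i).eval t) (by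
      intro h
      have := congrFun h a
      simp [hga] at this
      exact hy this) hzero
    have hva : V.valuation (s * (g a).eval t) < 1 := by
      refine lt_of_lt_of_le ?_ (hle b)
      rw [hga, hgb, Polynomial.eval_C, Polynomial.eval_C, map_mul, map_mul]
      exact mul_lt_mul_of_pos_left hyz (zero_lt_iff.mpr (by rwa [Ne, map_eq_zero]))
    intro i
    rcases hcov i with rfl | rfl | rfl
    · simpa [hga] using hy
    · simpa [hgb] using hz
    · intro h
      have h1 : (g i).eval t = 0 := h
      have := (hone a i hca.symm).resolve_left hva.ne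
      rw [h1, mul_zero, map_zero] at this
      exact zero_ne_one this
  · rw [← hPeval]; exact ht
  · show (g a).eval t = y
    rw [hga, Polynomial.eval_C]
  · show (g b).eval t = z
    rw [hgb, Polynomial.eval_C]

end Pool.Agent.ZP46
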