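import Mathlib
import Pool.Agent.ZP46.Plane

/-!
Rational functions on a plane curve missing the vertices of the coordinate triangle: the pattern of
integrality at a place where one coefficient is not integral.
-/

namespace Pool.Agent.ZP46

open MvPolynomial

/-- the monomials of degree `k` in three variables -/
def Mon (k : ℕ) : Type := {m : Fin 3 → Fin (k + 1) // ∑ i, (m i : ℕ) = k}

instance (k : ℕ) : Fintype (Mon k) := by unfold Mon; infer_instance

instance (k : ℕ) : DecidableEq (Mon k) := by unfold Mon; infer_instance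

/-- the value at `u` of the form of degree `k` with coefficients `c` -/
def form {R : Type*} [CommSemiring R] {k : ℕ} (c : Mon k → R) (u : Fin 3 → R) : R :=
  ∑ m, c m * ∏ i, u i ^ (m.1 i : ℕ)

/-- the monomial `u_j ^ k` -/
def pureMon (k : ℕ) (j : Fin 3) : Mon k :=
  ⟨fun i => if i = j then Fin.last k else 0, by
    rw [Finset.sum_eq_single j]
    · simp
    · intro b _ hb
      simp [hb]
    · simp⟩

lemma pureMon_prod {R : Type*} [CommSemiring R] (k : ℕ) (j : Fin 3) (u : Fin 3 → R) :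
    ∏ i, u i ^ ((pureMon k j).1 i : ℕ) = u j ^ k := by
  rw [Finset.prod_eq_single j]
  · simp [pureMon]
  · intro b _ hb
    simp [pureMon, hb]
  · simp

lemma form_smul {R : Type*} [CommSemiring R] {k : ℕ} (c : Mon k → R) (s : R) (u : Fin 3 → R) :
    form c (fun i => s * u i) = s ^ k * form c u := by
  unfold form
  rw [Finset.mul_sum]
  refine Finset.sum_congr rfl fun m _ => ?_
  have h : ∏ i, (s * u i) ^ (m.1 i : ℕ) = s ^ k * ∏ i, u i ^ (m.1 i : ℕ) := by
    simp only [mul_pow]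
    rw [Finset.prod_mul_distrib, Finset.prod_pow_eq_pow_sum, m.2]
  rw [h]
  ring

/-- the part of the curve with all coordinates finite -/
def curveG (F : MvPolynomial (Fin 3) ℂ) (e : Fin 3 → ℕ) (A : ∀ i, Mon (e i + 1) → ℂ) (B : ∀ i, Mon (e i) → ℂ) :
    Set (Fin 3 → ℂ) :=
  {x | ∃ u : Fin 3 → ℂ, (∀ i, u i ≠ 0) ∧ eval u F = 0 ∧ (∀ i, form (B i) u ≠ 0) ∧
    ∀ i, x i = form (A i) u / (u (i + 1) * form (B i) u)}

section val

variable {V : ValuationSubring ℂ}

lemma val_prod_le {u : Fin 3 → ℂ} (hu : ∀ i, V.valuation (u i) ≤ 1) (m : Fin 3 → ℕ) :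
    V.valuation (∏ i, u i ^ m i) ≤ 1 := by
  rw [map_prod]
  refine Finset.prod_le_one' fun i _ => ?_
  rw [map_pow]
  exact pow_le_one₀ zero_le (hu i)

lemma val_mul_le {a b : ℂ} (ha : V.valuation a ≤ 1) (hb : V.valuation b ≤ 1) : V.valuation (a * b) ≤ 1 := by
  rw [map_mul]
  exact mul_le_one' ha hb

lemma val_form_le {k : ℕ} {c : Mon k → ℂ} {u : Fin 3 → ℂ} (hc : ∀ m, V.valuation (c m) ≤ 1)
    (hu : ∀ i, V.valuation (u i) ≤ 1) : V.valuation (form c u) ≤ 1 := by
  unfold form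
  refine V.valuation.map_sum_le fun m _ => ?_
  exact val_mul_le (hc m) (val_prod_le hu _)

lemma val_form_big {k : ℕ} {c : Mon k → ℂ} {u : Fin 3 → ℂ} {j : Fin 3} (hc : ∀ m, m ≠ pureMon k j → V.valuation (c m) ≤ 1)
    (hbig : 1 < V.valuation (c (pureMon k j))) (hu : ∀ i, V.valuation (u i) ≤ 1) (huj : V.valuation (u j) = 1) :
    V.valuation (form c u) = V.valuation (c (pureMon k j)) := by
  unfold form
  rw [← Finset.add_sum_erase _ _ (Finset.mem_univ (pureMon k j)), pureMon_prod]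
  have h1 : V.valuation (c (pureMon k j) * u j ^ k) = V.valuation (c (pureMon k j)) := by
    rw [map_mul, map_pow, huj, one_pow, mul_one]
  have h2 : V.valuation (∑ m ∈ Finset.univ.erase (pureMon k j), c m * ∏ i, u i ^ (m.1 i : ℕ)) ≤ 1 := by
    refine V.valuation.map_sum_le fun m hm => ?_
    exact val_mul_le (hc m (Finset.ne_of_mem_erase hm)) (val_prod_le hu _)
  rw [V.valuation.map_add_eq_of_lt_left (by rw [h1]; exact h2.trans_lt hbig), h1]

/-- the conditions at a place where the coefficient of `u_j ^ (e_j + 1)` in `A_j` is not integral -/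
structure LocalCond (V : ValuationSubring ℂ) (F : MvPolynomial (Fin 3) ℂ) (d : ℕ) (e : Fin 3 → ℕ)
    (A : ∀ i, Mon (e i + 1) → ℂ) (B : ∀ i, Mon (e i) → ℂ) (j : Fin 3) : Prop where
  good : GoodAt V F d
  hB : ∀ i m, V.valuation (B i m) ≤ 1
  hA : ∀ i, i ≠ j → ∀ m, V.valuation (A i m) ≤ 1
  hAj : ∀ m, m ≠ pureMon _ j → V.valuation (A j m) ≤ 1
  hbig : 1 < V.valuation (A j (pureMon _ j))
  line : ∀ u : Fin 3 → ℂ, (∀ i, V.valuation (u i) ≤ 1) → V.valuation (u j) < 1 → V.valuation (u (j + 1)) = 1 →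
    V.valuation (u (j + 2)) = 1 → eval u F = 0 →
      (∀ i, V.valuation (form (B i) u) = 1) ∧ V.valuation (form (A (j + 2)) u) = 1
  disj : ∀ u : Fin 3 → ℂ, (∀ i, V.valuation (u i) ≤ 1) →
    (∀ i i', i ≠ i' → V.valuation (u i) = 1 ∨ V.valuation (u i') = 1) → eval u F = 0 →
      ¬ (V.valuation (u (j + 2) * form (B (j + 1)) u) < 1 ∧ V.valuation (u j * form (B (j + 2)) u) < 1)

variable {F : MvPolynomial (Fin 3) ℂ} {d : ℕ} {e : Fin 3 → ℕ} {A : ∀ i, Mon (e i + 1) → ℂ} {B : ∀ i, Mon (e i) → ℂ}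
  {j : Fin 3}

lemma fin_a : ∀ a : Fin 3, a ≠ a + 1 := by decide
lemma fin_b : ∀ a : Fin 3, a + 1 ≠ a + 2 := by decide
lemma fin_c : ∀ a : Fin 3, a + 2 ≠ a := by decide
lemma fin_d : ∀ a : Fin 3, a + 2 + 1 = a := by decide
lemma fin_e : ∀ a : Fin 3, a + 1 + 1 = a + 2 := by decide
lemma fin_f : ∀ a : Fin 3, a + 1 + 2 = a := by decide

/-- the pattern at a point given by normalized coordinates -/
lemma LocalCond.pattern_norm (h : LocalCond V F d e A B j) {u : Fin 3 → ℂ} (hle : ∀ i, V.valuation (u i) ≤ 1)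
    (hone : ∀ i i', i ≠ i' → V.valuation (u i) = 1 ∨ V.valuation (u i') = 1) (h0 : eval u F = 0)
    (hu : ∀ i, u i ≠ 0) (hBu : ∀ i, form (B i) u ≠ 0) {x : Fin 3 → ℂ}
    (hx : ∀ i, x i = form (A i) u / (u (i + 1) * form (B i) u)) :
    (V.valuation (u j) < 1 → x (j + 1) ∈ V ∧ x (j + 2) ∉ V) ∧ (x j ∈ V → V.valuation (u j) < 1) ∧
      ¬ (x (j + 1) ∉ V ∧ x (j + 2) ∉ V) := by
  have hval : ∀ i, V.valuation (x i) = V.valuation (form (A i) u) / V.valuation (u (i + 1) * form (B i) u) := by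
    intro i; rw [hx i, map_div₀]
  have hpos : ∀ i, 0 < V.valuation (u (i + 1) * form (B i) u) := fun i => by
    rw [zero_lt_iff, Ne, map_eq_zero]
    exact mul_ne_zero (hu _) (hBu _)
  have hle' : ∀ i, V.valuation (u (i + 1) * form (B i) u) ≤ 1 := fun i =>
    val_mul_le (hle _) (val_form_le (h.hB i) hle)
  have hA1 : V.valuation (form (A (j + 1)) u) ≤ 1 := val_form_le (h.hA _ (fin_a j).symm) hle
  have hA2 : V.valuation (form (A (j + 2)) u) ≤ 1 := val_form_le (h.hA _ (fin_c j)) hle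
  refine ⟨fun hj => ?_, fun hj => ?_, fun hj => ?_⟩
  · have h1 := (hone j (j + 1) (fin_a j)).resolve_left hj.ne
    have h2 := (hone j (j + 2) (fin_c j).symm).resolve_left hj.ne
    obtain ⟨hl1, hl2⟩ := h.line u hle hj h1 h2 h0
    rw [← V.valuation_le_one_iff, ← V.valuation_le_one_iff, hval, hval]
    constructor
    · rw [fin_e, map_mul, h2, hl1, one_mul, div_one]
      exact hA1
    · rw [fin_d, map_mul, hl1, hl2, mul_one, not_le, one_div]
      exact (one_lt_inv₀ (zero_lt_iff.mpr (by rw [Ne, map_eq_zero]; exact hu j))).mpr hj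
  · by_contra hcon
    have h1 : V.valuation (u j) = 1 := le_antisymm (hle j) (not_lt.mp hcon)
    have h2 := val_form_big h.hAj h.hbig hle h1
    rw [← V.valuation_le_one_iff, hval, h2, div_le_one₀ (hpos j)] at hj
    exact absurd (h.hbig.trans_le hj) (not_lt.mpr (hle' j))
  · rw [← V.valuation_le_one_iff, ← V.valuation_le_one_iff, hval, hval, not_le, not_le,
      one_lt_div₀ (hpos _), one_lt_div₀ (hpos _)] at hj
    have h1 := hj.1.trans_le hA1
    have h2 := hj.2.trans_le hA2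
    rw [fin_e] at h1
    rw [fin_d] at h2
    exact h.disj u hle hone h0 ⟨h1, h2⟩

/-- a ratio of forms does not change under scaling -/
lemma ratio_smul {i : Fin 3} {s : ℂ} (hs : s ≠ 0) (u : Fin 3 → ℂ) :
    form (A i) (fun i => s * u i) / ((s * u (i + 1)) * form (B i) (fun i => s * u i)) =
      form (A i) u / (u (i + 1) * form (B i) u) := by
  rw [form_smul, form_smul]
  have h1 : s ^ (e i + 1) ≠ 0 := pow_ne_zero _ hs
  have h2 : s * u (i + 1) * (s ^ e i * form (B i) u) = s ^ (e i + 1) * (u (i + 1) * form (B i) u) := by ring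
  rw [h2, mul_div_mul_left _ _ h1]

theorem LocalCond.pattern (h : LocalCond V F d e A B j) (hF : F.IsHomogeneous d) {x : Fin 3 → ℂ}
    (hx : x ∈ curveG F e A B) :
    (x j ∈ V → x (j + 1) ∈ V ∧ x (j + 2) ∉ V) ∧ ¬ (x (j + 1) ∉ V ∧ x (j + 2) ∉ V) := by
  obtain ⟨u, hu, h0, hBu, hxu⟩ := hx
  obtain ⟨s, hs0, hle, hone⟩ := scale hF h.good (u := u) (by
    intro h
    apply hu 0
    rw [h]; rfl) h0
  have h1 := h.pattern_norm (u := fun i => s * u i) hle hone (by rw [eval_smul hF, h0, mul_zero])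
    (fun i => mul_ne_zero hs0 (hu i)) (fun i => by rw [form_smul]; exact mul_ne_zero (pow_ne_zero _ hs0) (hBu i))
    (x := x) (fun i => by rw [hxu i]; exact (ratio_smul hs0 u).symm)
  exact ⟨fun hj => h1.1 (h1.2.1 hj), h1.2.2⟩

theorem LocalCond.point (h : LocalCond V F d e A B j) (hF : F.IsHomogeneous d) (hd : d ≠ 0) {p : ℕ} (hp : p.Prime)
    (hV : V.valuation (p : ℂ) < 1) : ∃ x ∈ curveG F e A B, x (j + 1) ∈ V ∧ x (j + 2) ∉ V := by
  have hp0 : (p : ℂ) ≠ 0 := by exact_mod_cast hp.ne_zero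
  obtain ⟨u, hu, h0, hua, hub⟩ := exists_point hF hd h.good (fin_a j) (fin_b j) (fin_c j) (y := (p : ℂ)) (z := 1)
    hp0 one_ne_zero (by rwa [map_one])
  obtain ⟨s, hs0, hle, hone⟩ := scale hF h.good (u := u) (by
    intro h
    apply hu 0
    rw [h]; rfl) h0
  have hj : V.valuation (s * u j) < 1 := by
    refine lt_of_lt_of_le ?_ (hle (j + 1))
    rw [hua, hub, map_mul, map_mul, map_one]
    exact mul_lt_mul_of_pos_left hV (zero_lt_iff.mpr (by rwa [Ne, map_eq_zero]))
  have h1 := (hone j (j + 1) (fin_a j)).resolve_left hj.ne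
  have h2 := (hone j (j + 2) (fin_c j).symm).resolve_left hj.ne
  have h0' : eval (fun i => s * u i) F = 0 := by rw [eval_smul hF, h0, mul_zero]
  obtain ⟨hl1, -⟩ := h.line (fun i => s * u i) hle hj h1 h2 h0'
  have hBs : ∀ i, form (B i) (fun i => s * u i) ≠ 0 := by
    intro i hi
    have := hl1 i
    rw [hi, map_zero] at this
    exact zero_ne_one this
  refine ⟨fun i => form (A i) (fun i => s * u i) / ((s * u (i + 1)) * form (B i) (fun i => s * u i)),
    ⟨fun i => s * u i, fun i => mul_ne_zero hs0 (hu i), h0', hBs, fun i => rfl⟩, ?_⟩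
  exact (h.pattern_norm (u := fun i => s * u i) hle hone h0' (fun i => mul_ne_zero hs0 (hu i)) hBs
    (fun i => rfl)).1 hj

theorem LocalCond.nobase (h : LocalCond V F d e A B j) (hF : F.IsHomogeneous d) {u : Fin 3 → ℂ} (hu : u ≠ 0)
    (h0 : eval u F = 0) : ¬ (form (A j) u = 0 ∧ u (j + 1) * form (B j) u = 0) := by
  rintro ⟨h1, h2⟩
  obtain ⟨s, hs0, hle, hone⟩ := scale hF h.good hu h0
  have h0' : eval (fun i => s * u i) F = 0 := by rw [eval_smul hF, h0, mul_zero]
  have hj : V.valuation (s * u j) < 1 := by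
    by_contra hcon
    have h3 : V.valuation (s * u j) = 1 := le_antisymm (hle j) (not_lt.mp hcon)
    have h4 := val_form_big h.hAj h.hbig hle h3
    rw [form_smul, h1, mul_zero, map_zero] at h4
    have := h.hbig
    rw [← h4] at this
    exact not_lt_zero this
  have h3 := (hone j (j + 1) (fin_a j)).resolve_left hj.ne
  have h4 := (hone j (j + 2) (fin_c j).symm).resolve_left hj.ne
  obtain ⟨hl1, -⟩ := h.line (fun i => s * u i) hle hj h3 h4 h0'
  have h5 := hl1 j
  rcases mul_eq_zero.mp h2 with h6 | h6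
  · rw [h6, mul_zero, map_zero] at h3
    exact zero_ne_one h3
  · rw [form_smul, h6, mul_zero, map_zero] at h5
    exact zero_ne_one h5

end val

end Pool.Agent.ZP46
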