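import Mathlib
import Pool.Agent.ZP46.Forms
import Pool.Agent.Lib.ModularZP.Ratio

/-!
Conditions over the residue field which imply the local conditions at a place.
-/

namespace Pool.Agent.ZP46

open MvPolynomial Pool.Agent.Lib.ModularZP

lemma form_map {R S : Type*} [CommSemiring R] [CommSemiring S] (φ : R →+* S) {k : ℕ} (c : Mon k → R) (u : Fin 3 → R) :
    form (fun m => φ (c m)) (fun i => φ (u i)) = φ (form c u) := by
  unfold form
  simp [map_sum, map_mul, map_prod, map_pow]

/-- the conditions over a field -/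
structure ResCond {K : Type*} [Field K] (F : MvPolynomial (Fin 3) K) (e : Fin 3 → ℕ)
    (A : ∀ i, Mon (e i + 1) → K) (B : ∀ i, Mon (e i) → K) (j : Fin 3) : Prop where
  line : ∀ u : Fin 3 → K, u j = 0 → u (j + 1) ≠ 0 → u (j + 2) ≠ 0 → eval u F = 0 →
    (∀ i, form (B i) u ≠ 0) ∧ form (A (j + 2)) u ≠ 0
  disj : ∀ u : Fin 3 → K, (∀ i i', i ≠ i' → u i ≠ 0 ∨ u i' ≠ 0) → eval u F = 0 →
    ¬ (u (j + 2) * form (B (j + 1)) u = 0 ∧ u j * form (B (j + 2)) u = 0)

instance algClosed_residue (V : ValuationSubring ℂ) : IsAlgClosed (IsLocalRing.ResidueField V) := by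
  apply IsAlgClosed.of_exists_root
  intro f hf hirr
  have hlift : f ∈ Polynomial.lifts (IsLocalRing.residue V) := by
    rw [Polynomial.mem_lifts]
    exact Polynomial.map_surjective _ IsLocalRing.residue_surjective f
  obtain ⟨g, hg1, hg2, hg3⟩ := Polynomial.lifts_and_natDegree_eq_and_monic hlift hf
  have hgm : (g.map V.subtype).Monic := hg3.map _
  have hdeg : 0 < f.natDegree := hirr.natDegree_pos
  obtain ⟨t, ht⟩ := IsAlgClosed.exists_root (g.map V.subtype) (by
    rw [Polynomial.degree_eq_natDegree hgm.ne_zero, hg3.natDegree_map, hg2]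
    exact_mod_cast hdeg.ne')
  have htV : t ∈ V := by
    refine mem_of_monic V _ hgm ?_ ht
    intro i
    rw [Polynomial.coeff_map]
    exact (g.coeff i).2
  refine ⟨IsLocalRing.residue V ⟨t, htV⟩, ?_⟩
  have h1 : g.eval (⟨t, htV⟩ : V) = 0 := by
    apply Subtype.ext
    have h2 := ht
    rw [Polynomial.IsRoot.def, Polynomial.eval_map, show t = V.subtype ⟨t, htV⟩ from rfl, Polynomial.eval₂_at_apply] at h2
    exact h2
  rw [← hg1, Polynomial.eval_map, Polynomial.eval₂_at_apply, h1, map_zero]

variable {V : ValuationSubring ℂ}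

lemma residue_eq_zero {x : V} : IsLocalRing.residue V x = 0 ↔ V.valuation (x : ℂ) < 1 := by
  rw [IsLocalRing.residue_eq_zero_iff, ← ValuationSubring.valuation_lt_one_iff]

lemma residue_ne_zero {x : V} : IsLocalRing.residue V x ≠ 0 ↔ V.valuation (x : ℂ) = 1 := by
  rw [Ne, residue_eq_zero, not_lt]
  exact ⟨fun h => le_antisymm ((V.valuation_le_one_iff _).mpr x.2) h, fun h => h.ge⟩

theorem exists_red {F : MvPolynomial (Fin 3) ℂ} {d : ℕ} (hF : F.IsHomogeneous d) (hV : GoodAt V F d) :
    ∃ Fk : MvPolynomial (Fin 3) (IsLocalRing.ResidueField V), Fk.IsHomogeneous d ∧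
      (∀ i, Fk.coeff (Finsupp.single i d) ≠ 0) ∧
      ∀ u : Fin 3 → V, eval (fun i => (u i : ℂ)) F = 0 → eval (fun i => IsLocalRing.residue V (u i)) Fk = 0 := by
  classical
  let G : MvPolynomial (Fin 3) V := ∑ m ∈ F.support, monomial m (⟨F.coeff m, hV.mem m⟩ : V)
  have hG : ∀ m, ((G.coeff m : V) : ℂ) = F.coeff m := by
    intro m
    simp only [G, coeff_sum, coeff_monomial]
    rw [Finset.sum_ite_eq']
    split_ifs with h
    · rfl
    · rw [notMem_support_iff.mp h]; rfl
  have hGm : map V.subtype G = F := by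
    ext m
    rw [coeff_map]
    exact hG m
  refine ⟨map (IsLocalRing.residue V) G, ?_, ?_, ?_⟩
  · intro m hm
    apply hF
    intro h0
    apply hm
    rw [coeff_map]
    have : G.coeff m = 0 := Subtype.ext (by rw [hG m, h0]; rfl)
    rw [this, map_zero]
  · intro i
    rw [coeff_map, residue_ne_zero, hG]
    exact hV.unit i
  · intro u hu
    have h1 : eval u G = 0 := by
      apply Subtype.ext
      have h2 : V.subtype (eval u G) = eval (fun i => (u i : ℂ)) F := by
        rw [eval₂_comp, ← eval_map, hGm]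
        rfl
      exact h2.trans hu
    rw [eval_map, show (fun i => IsLocalRing.residue V (u i)) = (IsLocalRing.residue V) ∘ u from rfl,
      ← eval₂_comp, h1, map_zero]

/-- from the residue field to the local conditions -/
theorem localCond_of_res {F : MvPolynomial (Fin 3) ℂ} {d : ℕ} (hV : GoodAt V F d)
    {Fk : MvPolynomial (Fin 3) (IsLocalRing.ResidueField V)}
    (hFk : ∀ u : Fin 3 → V, eval (fun i => (u i : ℂ)) F = 0 → eval (fun i => IsLocalRing.residue V (u i)) Fk = 0)
    {e : Fin 3 → ℕ} {A : ∀ i, Mon (e i + 1) → ℂ} {B : ∀ i, Mon (e i) → ℂ} {j : Fin 3}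
    (Ak : ∀ i, Mon (e i + 1) → V) (Bk : ∀ i, Mon (e i) → V)
    (hB : ∀ i m, B i m = (Bk i m : ℂ)) (hA : ∀ i, i ≠ j → ∀ m, A i m = (Ak i m : ℂ))
    (hAj : ∀ m, m ≠ pureMon _ j → V.valuation (A j m) ≤ 1) (hbig : 1 < V.valuation (A j (pureMon _ j)))
    (hres : ResCond Fk e (fun i m => IsLocalRing.residue V (Ak i m)) (fun i m => IsLocalRing.residue V (Bk i m)) j) :
    LocalCond V F d e A B j := by
  have hform : ∀ i (u : Fin 3 → V), form (B i) (fun i => (u i : ℂ)) = ((form (Bk i) u : V) : ℂ) := by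
    intro i u
    have h := form_map V.subtype (Bk i) u
    rw [show B i = fun m => V.subtype (Bk i m) from funext fun m => hB i m]
    exact h
  have hformA : ∀ i, i ≠ j → ∀ (u : Fin 3 → V), form (A i) (fun i => (u i : ℂ)) = ((form (Ak i) u : V) : ℂ) := by
    intro i hi u
    have h := form_map V.subtype (Ak i) u
    rw [show A i = fun m => V.subtype (Ak i m) from funext fun m => hA i hi m]
    exact h
  refine ⟨hV, fun i m => ?_, fun i hi m => ?_, hAj, hbig, ?_, ?_⟩
  · rw [hB, V.valuation_le_one_iff]; exact (Bk i m).2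
  · rw [hA i hi, V.valuation_le_one_iff]; exact (Ak i m).2
  · intro u hle hj h1 h2 h0
    obtain ⟨w, rfl⟩ : ∃ w : Fin 3 → V, u = fun i => (w i : ℂ) :=
      ⟨fun i => ⟨u i, (V.valuation_le_one_iff _).mp (hle i)⟩, rfl⟩
    obtain ⟨h3, h4⟩ := hres.line (fun i => IsLocalRing.residue V (w i)) (residue_eq_zero.mpr hj)
      (residue_ne_zero.mpr h1) (residue_ne_zero.mpr h2) (hFk w h0)
    refine ⟨fun i => ?_, ?_⟩
    · have h5 := h3 i
      rw [form_map, residue_ne_zero] at h5
      rw [hform]
      exact h5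
    · rw [form_map, residue_ne_zero] at h4
      rw [hformA _ (fin_c j)]
      exact h4
  · intro u hle hone h0 hcon
    obtain ⟨w, rfl⟩ : ∃ w : Fin 3 → V, u = fun i => (w i : ℂ) :=
      ⟨fun i => ⟨u i, (V.valuation_le_one_iff _).mp (hle i)⟩, rfl⟩
    refine hres.disj (fun i => IsLocalRing.residue V (w i)) (fun i i' hii => ?_) (hFk w h0) ?_
    · rcases hone i i' hii with h | h
      · exact Or.inl (residue_ne_zero.mpr h)
      · exact Or.inr (residue_ne_zero.mpr h)
    · obtain ⟨h1, h2⟩ := hcon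
      rw [hform] at h1 h2
      constructor
      · rw [form_map, ← map_mul]
        exact residue_eq_zero.mpr h1
      · rw [form_map, ← map_mul]
        exact residue_eq_zero.mpr h2

/-- the index set of the coefficients -/
abbrev Param (e : Fin 3 → ℕ) : Type := Σ i : Fin 3, (Mon (e i + 1) ⊕ Mon (e i))

/-- the coefficients of the numerators -/
def numC {R : Type*} {e : Fin 3 → ℕ} (c : Param e → R) : ∀ i, Mon (e i + 1) → R := fun i m => c ⟨i, Sum.inl m⟩

/-- the coefficients of the denominators -/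
def denC {R : Type*} {e : Fin 3 → ℕ} (c : Param e → R) : ∀ i, Mon (e i) → R := fun i m => c ⟨i, Sum.inr m⟩

/-- the coefficient of `u_j ^ (e_j + 1)` in the numerator of `x_j` -/
def spec (e : Fin 3 → ℕ) (j : Fin 3) : Param e := ⟨j, Sum.inl (pureMon _ j)⟩

/-- the residue conditions at `p` for the numerators `x (inl s)` and denominators `x (inr s)` -/
structure Omega {p : ℕ} [Fact p.Prime] {K : Type*} [Field K] (ψ : ZMod p →+* K) (F : MvPolynomial (Fin 3) K)
    (e : Fin 3 → ℕ) (j : Fin 3) (x : Param e ⊕ Param e → ZMod p) : Prop where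
  den : x (Sum.inr (spec e j)) = 0
  num : x (Sum.inl (spec e j)) ≠ 0
  dens : ∀ s, s ≠ spec e j → x (Sum.inr s) ≠ 0
  cond : ResCond F e (fun i m => ψ (numC (fun s => x (Sum.inl s) / x (Sum.inr s)) i m))
    (fun i m => ψ (denC (fun s => x (Sum.inl s) / x (Sum.inr s)) i m)) j

lemma charP_residue {p : ℕ} (hp : p.Prime) (hV : V.valuation (p : ℂ) < 1) :
    CharP (IsLocalRing.ResidueField V) p := by
  rw [CharP.charP_iff_prime_eq_zero hp]
  have h1 : IsLocalRing.residue V (p : V) = 0 := by
    rw [residue_eq_zero]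
    simpa using hV
  rw [map_natCast] at h1
  exact h1

theorem localCond_of_omega {p : ℕ} [Fact p.Prime] (hpV : V.valuation (p : ℂ) < 1) {F : MvPolynomial (Fin 3) ℂ} {d : ℕ}
    (hV : GoodAt V F d) {Fk : MvPolynomial (Fin 3) (IsLocalRing.ResidueField V)}
    (hFk : ∀ u : Fin 3 → V, eval (fun i => (u i : ℂ)) F = 0 → eval (fun i => IsLocalRing.residue V (u i)) Fk = 0)
    {e : Fin 3 → ℕ} {j : Fin 3} (ψ : ZMod p →+* IsLocalRing.ResidueField V) {c : Param e → ℚ}
    (h : Omega ψ Fk e j (Sum.elim (fun s => ((c s).num : ZMod p)) fun s => ((c s).den : ZMod p))) :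
    LocalCond V F d e (numC fun s => (c s : ℂ)) (denC fun s => (c s : ℂ)) j := by
  have hp : p.Prime := Fact.out
  have hunit : ∀ n : ℕ, (n : ZMod p) ≠ 0 → V.valuation (n : ℂ) = 1 := by
    intro n hn
    have h1 : IsLocalRing.residue V (n : V) ≠ 0 := by
      rw [map_natCast, ← map_natCast ψ]
      exact (map_ne_zero ψ).mpr hn
    rw [residue_ne_zero] at h1
    simpa using h1
  have hunitZ : ∀ n : ℤ, (n : ZMod p) ≠ 0 → V.valuation (n : ℂ) = 1 := by
    intro n hn
    have h1 : IsLocalRing.residue V (n : V) ≠ 0 := by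
      rw [map_intCast, ← map_intCast ψ]
      exact (map_ne_zero ψ).mpr hn
    rw [residue_ne_zero] at h1
    simpa using h1
  have hint : ∀ s, s ≠ spec e j → V.valuation ((c s : ℚ) : ℂ) ≤ 1 := by
    intro s hs
    have h1 := hunit _ (by simpa using h.dens s hs)
    rw [Rat.cast_def, map_div₀, h1, div_one]
    exact (V.valuation_le_one_iff _).mpr (by
      have := (((c s).num : V)).2
      simpa using this)
  have hres : ∀ s (hs : s ≠ spec e j), IsLocalRing.residue V ⟨((c s : ℚ) : ℂ), (V.valuation_le_one_iff _).mp (hint s hs)⟩ =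
      ψ ((Sum.elim (fun s => ((c s).num : ZMod p)) fun s => ((c s).den : ZMod p)) (Sum.inl s) /
        (Sum.elim (fun s => ((c s).num : ZMod p)) fun s => ((c s).den : ZMod p)) (Sum.inr s)) := by
    intro s hs
    have h0 : ((c s).den : ZMod p) ≠ 0 := by simpa using h.dens s hs
    simp only [Sum.elim_inl, Sum.elim_inr]
    rw [map_div₀, map_intCast, map_natCast, eq_div_iff (by
      rw [← map_natCast ψ]; exact (map_ne_zero ψ).mpr h0), ← map_natCast (IsLocalRing.residue V),
      ← map_intCast (IsLocalRing.residue V), ← map_mul]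
    congr 1
    apply Subtype.ext
    have h1 : ((c s).den : ℂ) ≠ 0 := by exact_mod_cast (c s).den_ne_zero
    have h2 : ((c s : ℚ) : ℂ) * ((c s).den : ℂ) = ((c s).num : ℂ) := by
      nth_rewrite 1 [Rat.cast_def]
      field_simp
    simpa using h2
  classical
  have hspec : ∀ i (m : Mon (e i)), (⟨i, Sum.inr m⟩ : Param e) ≠ spec e j := by
    intro i m h
    unfold spec at h
    injection h with h1 h2
    subst h1
    rw [heq_eq_eq] at h2
    exact absurd h2 (by simp)
  have hspec2 : ∀ i, i ≠ j → ∀ m, (⟨i, Sum.inl m⟩ : Param e) ≠ spec e j := by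
    intro i hi m h
    unfold spec at h
    injection h with h1 h2
    exact hi h1
  have hspec3 : ∀ m, m ≠ pureMon _ j → (⟨j, Sum.inl m⟩ : Param e) ≠ spec e j := by
    intro m hm h
    unfold spec at h
    injection h with h1 h2
    exact hm (Sum.inl.inj h2)
  let red : Param e → V := fun s => if hs : s = spec e j then 0 else
    ⟨((c s : ℚ) : ℂ), (V.valuation_le_one_iff _).mp (hint s hs)⟩
  have hred : ∀ s, s ≠ spec e j → ((red s : V) : ℂ) = ((c s : ℚ) : ℂ) := by
    intro s hs
    simp only [red]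
    rw [dif_neg hs]
  have hredr : ∀ s, IsLocalRing.residue V (red s) =
      ψ ((Sum.elim (fun s => ((c s).num : ZMod p)) fun s => ((c s).den : ZMod p)) (Sum.inl s) /
        (Sum.elim (fun s => ((c s).num : ZMod p)) fun s => ((c s).den : ZMod p)) (Sum.inr s)) := by
    intro s
    by_cases hs : s = spec e j
    · rw [hs, h.den, div_zero, map_zero]
      simp [red]
    · rw [← hres s hs]
      simp only [red]
      rw [dif_neg hs]
  refine localCond_of_res hV hFk (fun i m => red ⟨i, Sum.inl m⟩) (fun i m => red ⟨i, Sum.inr m⟩) ?_ ?_ ?_ ?_ ?_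
  · intro i m
    exact (hred _ (hspec i m)).symm
  · intro i hi m
    exact (hred _ (hspec2 i hi m)).symm
  · intro m hm
    exact hint _ (hspec3 m hm)
  · show 1 < V.valuation ((c (spec e j) : ℚ) : ℂ)
    have h1 := hunitZ _ (by simpa using h.num)
    have h2 : ((c (spec e j)).den : ZMod p) = 0 := by simpa using h.den
    have h3 : V.valuation (((c (spec e j)).den : ℕ) : ℂ) < 1 := by
      have h4 : IsLocalRing.residue V (((c (spec e j)).den : ℕ) : V) = 0 := by
        rw [map_natCast, ← map_natCast ψ, h2, map_zero]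
      rw [residue_eq_zero] at h4
      simpa using h4
    rw [Rat.cast_def, map_div₀, h1, one_div]
    refine (one_lt_inv₀ ?_).mpr h3
    rw [zero_lt_iff, Ne, map_eq_zero]
    exact_mod_cast (c (spec e j)).den_ne_zero
  · have hA : (fun i m => IsLocalRing.residue V (red ⟨i, Sum.inl m⟩)) =
        fun i m => ψ (numC (fun s => (Sum.elim (fun s => ((c s).num : ZMod p)) fun s => ((c s).den : ZMod p)) (Sum.inl s) /
        (Sum.elim (fun s => ((c s).num : ZMod p)) fun s => ((c s).den : ZMod p)) (Sum.inr s)) i m) := by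
      funext i m
      exact hredr _
    have hB : (fun i m => IsLocalRing.residue V (red ⟨i, Sum.inr m⟩)) =
        fun i m => ψ (denC (fun s => (Sum.elim (fun s => ((c s).num : ZMod p)) fun s => ((c s).den : ZMod p)) (Sum.inl s) /
        (Sum.elim (fun s => ((c s).num : ZMod p)) fun s => ((c s).den : ZMod p)) (Sum.inr s)) i m) := by
      funext i m
      exact hredr _
    rw [hA, hB]
    exact h.cond

end Pool.Agent.ZP46
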