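import Mathlib
import Pool.Agent.ZP46.Resid

/-!
A bound for the number of common zeros of two forms, from the resultant.
-/

namespace Pool.Agent.ZP46

open MvPolynomial

section poly

variable {K : Type*} [Field K] {R : Type*} [CommRing R] [Algebra K R]

/-- substitution `u_a = y`, `u_b = 1`, and the remaining variable free -/
noncomputable def deh (a b : Fin 3) (y : R) (G : MvPolynomial (Fin 3) K) : Polynomial R :=
  MvPolynomial.aeval (fun i => if i = a then Polynomial.C y else if i = b then 1 else Polynomial.X) G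

variable {a b c : Fin 3}

lemma deh_eq (hab : a ≠ b) (hbc : b ≠ c) (hca : c ≠ a) (y : R) (G : MvPolynomial (Fin 3) K) :
    deh a b y G = ∑ m ∈ G.support, Polynomial.C (algebraMap K R (G.coeff m) * y ^ m a) * Polynomial.X ^ m c := by
  classical
  have hcov : ∀ i : Fin 3, i = a ∨ i = b ∨ i = c := cov3 a b c hab hca hbc.symm
  unfold deh
  rw [MvPolynomial.aeval_def, MvPolynomial.eval₂_eq]
  refine Finset.sum_congr rfl fun m _ => ?_
  have h6 : (∏ i ∈ m.support, (if i = a then Polynomial.C y else if i = b then 1 else Polynomial.X) ^ m i) =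
      ∏ i, (if i = a then Polynomial.C y else if i = b then 1 else Polynomial.X : Polynomial R) ^ m i :=
    Finset.prod_subset (Finset.subset_univ _) (fun i _ hi => by
      rw [Finsupp.notMem_support_iff] at hi; rw [hi, pow_zero])
  have huniv : (Finset.univ : Finset (Fin 3)) = {a, b, c} := by
    ext i; simp [hcov i]
  rw [h6, huniv, Finset.prod_insert (by simp [hab, hca.symm]), Finset.prod_insert (by simp [hbc]), Finset.prod_singleton]
  rw [if_pos rfl, if_neg hab.symm, if_pos rfl, if_neg hca, if_neg hbc.symm, one_pow, one_mul, Polynomial.C_mul,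
    Polynomial.C_pow, mul_assoc]
  rfl

lemma deh_coeff (hab : a ≠ b) (hbc : b ≠ c) (hca : c ≠ a) (y : R) (G : MvPolynomial (Fin 3) K) (n : ℕ) :
    (deh a b y G).coeff n = ∑ m ∈ G.support, if m c = n then algebraMap K R (G.coeff m) * y ^ m a else 0 := by
  rw [deh_eq hab hbc hca, Polynomial.finsetSum_coeff]
  refine Finset.sum_congr rfl fun m _ => ?_
  rw [Polynomial.coeff_C_mul, Polynomial.coeff_X_pow]
  by_cases h : m c = n
  · rw [if_pos h, if_pos h.symm, mul_one]
  · rw [if_neg h, if_neg (Ne.symm h), mul_zero]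

lemma deg_le {k : ℕ} {G : MvPolynomial (Fin 3) K} (hG : G.IsHomogeneous k) {m : Fin 3 →₀ ℕ} (hm : m ∈ G.support) (i : Fin 3) :
    m i ≤ k := by
  have h1 := hG.degree_eq_sum_deg_support hm
  rw [h1]
  by_cases h : i ∈ m.support
  · exact Finset.single_le_sum (f := fun i => m i) (fun _ _ => Nat.zero_le _) h
  · rw [Finsupp.notMem_support_iff] at h
    omega

lemma deh_natDegree_le {k : ℕ} {G : MvPolynomial (Fin 3) K} (hG : G.IsHomogeneous k) (hab : a ≠ b) (hbc : b ≠ c)
    (hca : c ≠ a) (y : R) : (deh a b y G).natDegree ≤ k := by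
  rw [Polynomial.natDegree_le_iff_coeff_eq_zero]
  intro n hn
  rw [deh_coeff hab hbc hca]
  refine Finset.sum_eq_zero fun m hm => ?_
  rw [if_neg]
  have := deg_le hG hm c
  omega

lemma deh_coeff_top {k : ℕ} {G : MvPolynomial (Fin 3) K} (hG : G.IsHomogeneous k) (hab : a ≠ b) (hbc : b ≠ c)
    (hca : c ≠ a) (y : R) : (deh a b y G).coeff k = algebraMap K R (G.coeff (Finsupp.single c k)) := by
  classical
  have hcov : ∀ i : Fin 3, i = a ∨ i = b ∨ i = c := cov3 a b c hab hca hbc.symm
  rw [deh_coeff hab hbc hca, Finset.sum_eq_single (Finsupp.single c k)]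
  · rw [Finsupp.single_eq_same, if_pos rfl, Finsupp.single_apply, if_neg hca, pow_zero, mul_one]
  · intro m hm hne
    rw [if_neg]
    intro hmc
    apply hne
    have h1 := hG.degree_eq_sum_deg_support hm
    have h3 : ∑ i, m i = k := by
      rw [h1]
      symm
      exact Finset.sum_subset (Finset.subset_univ _) (fun i _ hi => by rwa [Finsupp.notMem_support_iff] at hi)
    have h4 : ∑ i, m i = m a + m b + m c := by
      have : (Finset.univ : Finset (Fin 3)) = {a, b, c} := by
        ext i; simp [hcov i]
      rw [this, Finset.sum_insert (by simp [hab, hca.symm]), Finset.sum_insert (by simp [hbc]), Finset.sum_singleton]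
      ring
    ext i
    rcases hcov i with rfl | rfl | rfl
    · rw [Finsupp.single_apply, if_neg hca]; omega
    · rw [Finsupp.single_apply, if_neg hbc.symm]; omega
    · rw [Finsupp.single_eq_same]; omega
  · intro h
    rw [notMem_support_iff] at h
    rw [h, map_zero, zero_mul, ite_self]

lemma deh_map {R' : Type*} [CommRing R'] [Algebra K R'] (φ : R →ₐ[K] R') (y : R) (G : MvPolynomial (Fin 3) K)
    (hab : a ≠ b) (hbc : b ≠ c) (hca : c ≠ a) :
    (deh a b y G).map (φ : R →+* R') = deh a b (φ y) G := by
  rw [deh_eq hab hbc hca, deh_eq hab hbc hca, Polynomial.map_sum]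
  refine Finset.sum_congr rfl fun m _ => ?_
  simp

lemma deh_eval (y z : K) (G : MvPolynomial (Fin 3) K) :
    (deh a b y G).eval z = eval (fun i => if i = a then y else if i = b then 1 else z) G := by
  unfold deh
  rw [MvPolynomial.aeval_def, MvPolynomial.eval₂_eq, Polynomial.eval_finsetSum, eval_eq]
  refine Finset.sum_congr rfl fun m _ => ?_
  rw [Polynomial.eval_mul, Polynomial.eval_prod]
  simp only [Polynomial.algebraMap_apply, Algebra.algebraMap_self, RingHom.id_apply, Polynomial.eval_C, Polynomial.eval_pow]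
  congr 1
  refine Finset.prod_congr rfl fun i _ => ?_
  split_ifs <;> simp

lemma natDegree_det_le {ι : Type*} [Fintype ι] [DecidableEq ι] (M : Matrix ι ι (Polynomial K)) (D : ℕ)
    (hM : ∀ i j, (M i j).natDegree ≤ D) : M.det.natDegree ≤ Fintype.card ι * D := by
  rw [Matrix.det_apply]
  refine Polynomial.natDegree_sum_le_of_forall_le _ _ fun σ _ => ?_
  refine (Polynomial.natDegree_smul_le _ _).trans ?_
  refine (Polynomial.natDegree_prod_le _ _).trans ?_
  refine (Finset.sum_le_card_nsmul _ _ D fun i _ => hM _ _).trans ?_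
  simp

/-- a point with `u_a = y`, `u_b = 1`, and third coordinate `z` -/
def pt (a b : Fin 3) (y z : K) : Fin 3 → K := fun i => if i = a then y else if i = b then 1 else z

lemma deh_eval' (y z : K) (G : MvPolynomial (Fin 3) K) : (deh a b y G).eval z = eval (pt a b y z) G := deh_eval y z G

lemma eq_pt (hab : a ≠ b) (hbc : b ≠ c) (hca : c ≠ a) {u : Fin 3 → K} (hu : u b = 1) : u = pt a b (u a) (u c) := by
  have hcov : ∀ i : Fin 3, i = a ∨ i = b ∨ i = c := cov3 a b c hab hca hbc.symm
  funext i
  unfold pt
  rcases hcov i with rfl | rfl | rfl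
  · rw [if_pos rfl]
  · rw [if_neg hab.symm, if_pos rfl, hu]
  · rw [if_neg hca, if_neg hbc.symm]

/-- the points of the curve on a line `u_a = y u_b` -/
noncomputable def linePts [DecidableEq K] (a b : Fin 3) (y : K) (F : MvPolynomial (Fin 3) K) : Finset (Fin 3 → K) :=
  (deh a b y F).roots.toFinset.image fun z => pt a b y z

lemma deh_ne_zero {F : MvPolynomial (Fin 3) K} {d : ℕ} (hF : F.IsHomogeneous d)
    (hab : a ≠ b) (hbc : b ≠ c) (hca : c ≠ a) (hFc : F.coeff (Finsupp.single c d) ≠ 0) (y : K) : deh a b y F ≠ 0 := by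
  intro h
  have h1 := deh_coeff_top hF hab hbc hca y
  rw [h, Polynomial.coeff_zero] at h1
  exact hFc h1.symm

lemma linePts_card [DecidableEq K] {F : MvPolynomial (Fin 3) K} {d : ℕ} (hF : F.IsHomogeneous d)
    (hab : a ≠ b) (hbc : b ≠ c) (hca : c ≠ a) (y : K) : (linePts a b y F).card ≤ d := by
  refine Finset.card_image_le.trans ?_
  refine (Multiset.toFinset_card_le _).trans ?_
  exact (Polynomial.card_roots' _).trans (deh_natDegree_le hF hab hbc hca y)

lemma mem_linePts [DecidableEq K] {F : MvPolynomial (Fin 3) K} {d : ℕ} (hF : F.IsHomogeneous d)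
    (hab : a ≠ b) (hbc : b ≠ c) (hca : c ≠ a) (hFc : F.coeff (Finsupp.single c d) ≠ 0) {u : Fin 3 → K} (hu : u b = 1)
    (h0 : eval u F = 0) : u ∈ linePts a b (u a) F := by
  unfold linePts
  rw [Finset.mem_image]
  refine ⟨u c, ?_, (eq_pt hab hbc hca hu).symm⟩
  rw [Multiset.mem_toFinset, Polynomial.mem_roots (deh_ne_zero hF hab hbc hca hFc _), Polynomial.IsRoot.def, deh_eval',
    ← eq_pt hab hbc hca hu]
  exact h0

lemma linePts_one [DecidableEq K] {F : MvPolynomial (Fin 3) K} (hab : a ≠ b) {y : K} {u : Fin 3 → K}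
    (hu : u ∈ linePts a b y F) : u b = 1 := by
  unfold linePts at hu
  rw [Finset.mem_image] at hu
  obtain ⟨z, -, rfl⟩ := hu
  unfold pt
  rw [if_neg hab.symm, if_pos rfl]

theorem common_zeros [IsAlgClosed K] {F G : MvPolynomial (Fin 3) K} {d k : ℕ} (hF : F.IsHomogeneous d)
    (hG : G.IsHomogeneous k) (hab : a ≠ b) (hbc : b ≠ c) (hca : c ≠ a) (hFc : F.coeff (Finsupp.single c d) ≠ 0)
    (hline : ∀ z, eval (pt a b 0 z) F = 0 → eval (pt a b 0 z) G ≠ 0) :
    ∃ N : Finset (Fin 3 → K), N.card ≤ (d + k) * (d + k) * d ∧ (∀ u ∈ N, u b = 1) ∧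
      ∀ u : Fin 3 → K, u b = 1 → eval u F = 0 → eval u G = 0 → u ∈ N := by
  classical
  let f : Polynomial (Polynomial K) := deh a b (Polynomial.X : Polynomial K) F
  let g : Polynomial (Polynomial K) := deh a b (Polynomial.X : Polynomial K) G
  let ρ : Polynomial K := Polynomial.resultant f g d k
  have hcoefdeg : ∀ {P : MvPolynomial (Fin 3) K} {l : ℕ}, P.IsHomogeneous l → ∀ n,
      ((deh a b (Polynomial.X : Polynomial K) P).coeff n).natDegree ≤ l := by
    intro P l hP n
    rw [deh_coeff hab hbc hca]
    refine Polynomial.natDegree_sum_le_of_forall_le _ _ fun m hm => ?_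
    split_ifs
    · rw [Polynomial.algebraMap_eq]
      exact (Polynomial.natDegree_C_mul_X_pow_le _ _).trans (deg_le hP hm a)
    · simp
  have hdeg : ρ.natDegree ≤ (d + k) * (d + k) := by
    have h := natDegree_det_le (Polynomial.sylvester f g d k) (d + k) (by
      intro i j
      unfold Polynomial.sylvester
      rw [Matrix.of_apply]
      induction j using Fin.addCases with
      | left j =>
        rw [Fin.addCases_left]
        split_ifs
        · exact (hcoefdeg hG _).trans (by omega)
        · simp
      | right j =>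
        rw [Fin.addCases_right]
        split_ifs
        · exact (hcoefdeg hF _).trans (by omega)
        · simp)
    rw [Fintype.card_fin] at h
    exact h
  have hev : ∀ y : K, ρ.eval y = F.coeff (Finsupp.single c d) ^ k *
      ((deh a b y F).roots.map (deh a b y G).eval).prod := by
    intro y
    have h1 : ρ.eval y = Polynomial.resultant (deh a b y F) (deh a b y G) d k := by
      have h2 := Polynomial.resultant_map_map f g d k (Polynomial.evalRingHom y)
      have h3 : ∀ P : MvPolynomial (Fin 3) K, (deh a b (Polynomial.X : Polynomial K) P).map (Polynomial.evalRingHom y) =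
          deh a b y P := by
        intro P
        have h4 := deh_map (Polynomial.aeval y : Polynomial K →ₐ[K] K) (Polynomial.X : Polynomial K) P hab hbc hca
        rw [Polynomial.aeval_X] at h4
        rw [← h4]
        congr 1
      rw [h3, h3] at h2
      exact h2.symm
    have hnd : (deh a b y F).natDegree = d := by
      refine le_antisymm (deh_natDegree_le hF hab hbc hca y) ?_
      refine Polynomial.le_natDegree_of_ne_zero ?_
      rw [deh_coeff_top hF hab hbc hca]
      exact hFc
    have hlc : (deh a b y F).leadingCoeff = F.coeff (Finsupp.single c d) := by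
      unfold Polynomial.leadingCoeff
      rw [hnd, deh_coeff_top hF hab hbc hca]
      rfl
    have h5 := Polynomial.resultant_eq_prod_eval (deh a b y F) (deh a b y G) k (deh_natDegree_le hG hab hbc hca y)
      (IsAlgClosed.splits _)
    rw [hnd, hlc] at h5
    rw [h1, h5]
  have hρ0 : ρ.eval 0 ≠ 0 := by
    rw [hev]
    refine mul_ne_zero (pow_ne_zero _ hFc) ?_
    rw [Ne, Multiset.prod_eq_zero_iff, Multiset.mem_map]
    rintro ⟨z, hz, hz'⟩
    rw [Polynomial.mem_roots (deh_ne_zero hF hab hbc hca hFc _), Polynomial.IsRoot.def, deh_eval'] at hz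
    rw [deh_eval'] at hz'
    exact hline z hz hz'
  have hρ : ρ ≠ 0 := by
    intro h
    rw [h, Polynomial.eval_zero] at hρ0
    exact hρ0 rfl
  refine ⟨ρ.roots.toFinset.biUnion fun y => linePts a b y F, ?_, ?_, ?_⟩
  · refine (Finset.card_biUnion_le_card_mul _ _ d fun y _ => linePts_card hF hab hbc hca y).trans ?_
    refine Nat.mul_le_mul_right _ ?_
    exact (Multiset.toFinset_card_le _).trans ((Polynomial.card_roots' _).trans hdeg)
  · intro u hu
    rw [Finset.mem_biUnion] at hu
    obtain ⟨y, -, hy⟩ := hu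
    exact linePts_one hab hy
  · intro u hu h0 h0'
    rw [Finset.mem_biUnion]
    refine ⟨u a, ?_, mem_linePts hF hab hbc hca hFc hu h0⟩
    rw [Multiset.mem_toFinset, Polynomial.mem_roots hρ, Polynomial.IsRoot.def, hev]
    rw [mul_eq_zero]
    right
    rw [Multiset.prod_eq_zero_iff, Multiset.mem_map]
    refine ⟨u c, ?_, ?_⟩
    · rw [Polynomial.mem_roots (deh_ne_zero hF hab hbc hca hFc _), Polynomial.IsRoot.def, deh_eval',
        ← eq_pt hab hbc hca hu]
      exact h0
    · rw [deh_eval', ← eq_pt hab hbc hca hu]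
      exact h0'

end poly

end Pool.Agent.ZP46
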