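import Mathlib
import Pool.Agent.ZP46.Bezout

/-!
Counting the residue vectors which satisfy the local conditions.
-/

namespace Pool.Agent.ZP46

open MvPolynomial

/-- a set whose fibres along one coordinate are small is small -/
lemma fiber {κ : Type*} [Fintype κ] [DecidableEq κ] {p : ℕ} [NeZero p] (X : Finset (κ → ZMod p)) (s : κ)
    (hX : ∀ x ∈ X, ∀ v, Function.update x s v ∈ X) (Bad : (κ → ZMod p) → Prop) [DecidablePred Bad] (N : ℕ)
    (hB : ∀ x ∈ X, ((Finset.univ : Finset (ZMod p)).filter fun v => Bad (Function.update x s v)).card ≤ N) :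
    p * (X.filter Bad).card ≤ N * X.card := by
  have h1 : ((X.filter Bad) ×ˢ (Finset.univ : Finset (ZMod p))).card ≤
      (X.sigma fun x => (Finset.univ : Finset (ZMod p)).filter fun v => Bad (Function.update x s v)).card := by
    refine Finset.card_le_card_of_injOn (fun y => ⟨Function.update y.1 s y.2, y.1 s⟩) ?_ ?_
    · rintro ⟨y, v⟩ hy
      simp only [Finset.coe_product, Finset.coe_filter, Finset.coe_univ, Set.mem_prod, Set.mem_ofPred_eq, Set.mem_univ,
        and_true] at hy
      simp only [Finset.coe_sigma, Set.mem_sigma_iff, Finset.mem_coe, Finset.mem_filter, Finset.mem_univ, true_and,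
        Function.update_idem, Function.update_eq_self]
      exact ⟨hX _ hy.1 _, hy.2⟩
    · rintro ⟨y, v⟩ _ ⟨y', v'⟩ _ h
      simp only [Sigma.mk.injEq, heq_eq_eq] at h
      obtain ⟨h1, h2⟩ := h
      have h3 : v = v' := by
        have := congrFun h1 s
        simpa using this
      have h4 : y = y' := by
        funext i
        by_cases hi : i = s
        · rw [hi, h2]
        · have := congrFun h1 i
          rwa [Function.update_of_ne hi, Function.update_of_ne hi] at this
      rw [h3, h4]
  rw [Finset.card_product, Finset.card_univ, ZMod.card, Finset.card_sigma] at h1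
  calc p * (X.filter Bad).card = (X.filter Bad).card * p := Nat.mul_comm _ _
    _ ≤ _ := h1
    _ ≤ X.card • N := Finset.sum_le_card_nsmul _ _ _ hB
    _ = N * X.card := by rw [smul_eq_mul, Nat.mul_comm]

section form

variable {K : Type*} [Field K]

/-- a form as a polynomial -/
noncomputable def formMv {k : ℕ} (c : Mon k → K) : MvPolynomial (Fin 3) K := form (fun m => C (c m)) X

lemma eval_formMv {k : ℕ} (c : Mon k → K) (u : Fin 3 → K) : eval u (formMv c) = form c u := by
  unfold formMv
  rw [← form_map]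
  simp

lemma formMv_hom {k : ℕ} (c : Mon k → K) : (formMv c).IsHomogeneous k := by
  unfold formMv form
  refine IsHomogeneous.sum _ _ _ fun m _ => ?_
  have h1 : (∏ i, (X i : MvPolynomial (Fin 3) K) ^ (m.1 i : ℕ)).IsHomogeneous (∑ i, (m.1 i : ℕ)) := by
    refine IsHomogeneous.prod _ _ _ fun i _ => ?_
    have := (isHomogeneous_X K i).pow (m.1 i : ℕ)
    simpa using this
  rw [m.2] at h1
  have h2 := (isHomogeneous_C (Fin 3) (c m)).mul h1
  simpa using h2

/-- the part of a form without the monomial `u_b ^ k` -/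
def rest {k : ℕ} (c : Mon k → K) (b : Fin 3) (u : Fin 3 → K) : K :=
  ∑ m ∈ Finset.univ.erase (pureMon k b), c m * ∏ i, u i ^ (m.1 i : ℕ)

lemma form_eq_rest {k : ℕ} (c : Mon k → K) {b : Fin 3} {u : Fin 3 → K} (hu : u b = 1) :
    form c u = c (pureMon k b) + rest c b u := by
  unfold form rest
  rw [← Finset.add_sum_erase _ _ (Finset.mem_univ (pureMon k b)), pureMon_prod, hu, one_pow, mul_one]

lemma rest_congr {k : ℕ} {c c' : Mon k → K} {b : Fin 3} (h : ∀ m, m ≠ pureMon k b → c m = c' m) (u : Fin 3 → K) :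
    rest c b u = rest c' b u := by
  unfold rest
  refine Finset.sum_congr rfl fun m hm => ?_
  rw [h m (Finset.ne_of_mem_erase hm)]

end form

section count

variable {p : ℕ} [Fact p.Prime] {K : Type*} [Field K] (ψ : ZMod p →+* K) {e : Fin 3 → ℕ}

/-- the rational numbers modulo `p` -/
def tt (x : Param e ⊕ Param e → ZMod p) : Param e → ZMod p := fun s => x (Sum.inl s) / x (Sum.inr s)

lemma tt_update [DecidableEq (Param e)] (x : Param e ⊕ Param e → ZMod p) (s : Param e) (v : ZMod p) :
    tt (Function.update x (Sum.inl s) v) = Function.update (tt x) s (v / x (Sum.inr s)) := by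
  funext s'
  unfold tt
  by_cases h : s' = s
  · subst h
    simp
  · rw [Function.update_of_ne h, Function.update_of_ne (by simpa using h), Function.update_of_ne (by simp)]

/-- the allowed values of each coordinate -/
def allowed (e : Fin 3 → ℕ) (p : ℕ) [Fact p.Prime] (j : Fin 3) : Param e ⊕ Param e → Finset (ZMod p)
  | Sum.inl s => by
      classical exact if s = spec e j then Finset.univ.erase 0 else Finset.univ
  | Sum.inr s => by
      classical exact if s = spec e j then {0} else Finset.univ.erase 0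

open Classical in
/-- residue vectors with one denominator divisible by `p` -/
noncomputable def boxX (e : Fin 3 → ℕ) (p : ℕ) [Fact p.Prime] (j : Fin 3) : Finset (Param e ⊕ Param e → ZMod p) :=
  Fintype.piFinset (allowed e p j)

lemma mem_boxX {j : Fin 3} {x : Param e ⊕ Param e → ZMod p} :
    x ∈ boxX e p j ↔ x (Sum.inr (spec e j)) = 0 ∧ x (Sum.inl (spec e j)) ≠ 0 ∧ ∀ s, s ≠ spec e j → x (Sum.inr s) ≠ 0 := by
  classical
  unfold boxX
  rw [Fintype.mem_piFinset]
  constructor
  · intro h
    refine ⟨?_, ?_, fun s hs => ?_⟩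
    · have := h (Sum.inr (spec e j))
      simpa [allowed] using this
    · have := h (Sum.inl (spec e j))
      simpa [allowed] using this
    · have := h (Sum.inr s)
      simpa [allowed, hs] using this
  · rintro ⟨h1, h2, h3⟩ (s | s)
    · by_cases hs : s = spec e j
      · rw [hs]; simpa [allowed] using h2
      · simp [allowed, hs]
    · by_cases hs : s = spec e j
      · rw [hs]; simpa [allowed] using h1
      · simpa [allowed, hs] using h3 s hs

lemma card_boxX (j : Fin 3) : (p - 1) ^ (2 * Fintype.card (Param e)) ≤ p * (boxX e p j).card := by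
  classical
  have hp : 1 < p := (Fact.out : p.Prime).one_lt
  unfold boxX
  rw [Fintype.card_piFinset, Fintype.prod_sum_type]
  have h1 : (p - 1) ^ (Fintype.card (Param e)) ≤ ∏ s, (allowed e p j (Sum.inl s)).card := by
    rw [← Finset.card_univ, ← Finset.prod_const]
    refine Finset.prod_le_prod' fun s _ => ?_
    unfold allowed
    simp only
    split_ifs
    · rw [Finset.card_erase_of_mem (Finset.mem_univ _), Finset.card_univ, ZMod.card]
    · rw [Finset.card_univ, ZMod.card]; omega
  have h2 : (p - 1) ^ (Fintype.card (Param e)) ≤ p * ∏ s, (allowed e p j (Sum.inr s)).card := by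
    rw [← Finset.mul_prod_erase Finset.univ (fun s => (allowed e p j (Sum.inr s)).card) (Finset.mem_univ (spec e j))]
    rw [← Finset.card_univ, ← Finset.prod_const, ← Finset.mul_prod_erase Finset.univ (fun _ => p - 1) (Finset.mem_univ (spec e j))]
    have h3 : (allowed e p j (Sum.inr (spec e j))).card = 1 := by simp [allowed]
    rw [h3, one_mul]
    refine Nat.mul_le_mul (by omega) ?_
    refine Finset.prod_le_prod' fun s hs => ?_
    unfold allowed
    simp only
    rw [if_neg (Finset.ne_of_mem_erase hs), Finset.card_erase_of_mem (Finset.mem_univ _), Finset.card_univ, ZMod.card]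
  calc (p - 1) ^ (2 * Fintype.card (Param e)) = (p - 1) ^ (Fintype.card (Param e)) * (p - 1) ^ (Fintype.card (Param e)) := by ring
    _ ≤ (∏ s, (allowed e p j (Sum.inl s)).card) * (p * ∏ s, (allowed e p j (Sum.inr s)).card) := Nat.mul_le_mul h1 h2
    _ = _ := by ring

/-- an event which prescribes one coefficient up to `N` values -/
lemma event_bound (j : Fin 3) (s : Param e) (hs : s ≠ spec e j) (N : ℕ) (Bad : (Param e ⊕ Param e → ZMod p) → Prop)
    [DecidablePred Bad] [DecidableEq (Param e)]
    (h : ∀ x ∈ boxX e p j, ∃ S : Finset K, S.card ≤ N ∧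
      ∀ v, Bad (Function.update x (Sum.inl s) v) → ψ (v / x (Sum.inr s)) ∈ S) :
    p * ((boxX e p j).filter Bad).card ≤ N * (boxX e p j).card := by
  classical
  have hp : 1 < p := (Fact.out : p.Prime).one_lt
  have : NeZero p := ⟨by omega⟩
  refine fiber _ (Sum.inl s) ?_ Bad N ?_
  · intro x hx v
    rw [mem_boxX] at hx ⊢
    obtain ⟨h1, h2, h3⟩ := hx
    refine ⟨?_, ?_, fun s' hs' => ?_⟩
    · rwa [Function.update_of_ne (by simp)]
    · rwa [Function.update_of_ne (by simpa using hs.symm)]
    · rw [Function.update_of_ne (by simp)]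
      exact h3 s' hs'
  · intro x hx
    obtain ⟨S, hS, hv⟩ := h x hx
    refine le_trans ?_ hS
    refine Finset.card_le_card_of_injOn (fun v => ψ (v / x (Sum.inr s))) ?_ ?_
    · intro v hv'
      simp only [Finset.coe_filter, Finset.mem_univ, true_and, Set.mem_ofPred_eq] at hv'
      exact hv v hv'
    · intro v _ v' _ hvv
      have h1 := ψ.injective hvv
      have h2 : x (Sum.inr s) ≠ 0 := (mem_boxX.mp hx).2.2 s hs
      simpa [div_left_inj' h2] using h1

/-- coefficients of the numerators over `K` -/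
def nm (x : Param e ⊕ Param e → ZMod p) : ∀ i, Mon (e i + 1) → K := fun i m => ψ (numC (tt x) i m)

/-- coefficients of the denominators over `K` -/
def dn (x : Param e ⊕ Param e → ZMod p) : ∀ i, Mon (e i) → K := fun i m => ψ (denC (tt x) i m)

lemma dn_update_ne [DecidableEq (Param e)] (x : Param e ⊕ Param e → ZMod p) {i i' : Fin 3} (h : i' ≠ i)
    (m₀ : Mon (e i)) (v : ZMod p) : dn ψ (Function.update x (Sum.inl ⟨i, Sum.inr m₀⟩) v) i' = dn ψ x i' := by
  funext m
  unfold dn denC
  rw [tt_update, Function.update_of_ne]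
  intro h'
  injection h' with h1 h2
  exact h h1

lemma dn_update [DecidableEq (Param e)] (x : Param e ⊕ Param e → ZMod p) {i : Fin 3}
    (m₀ m : Mon (e i)) (v : ZMod p) (hm : m ≠ m₀) : dn ψ (Function.update x (Sum.inl ⟨i, Sum.inr m₀⟩) v) i m = dn ψ x i m := by
  unfold dn denC
  rw [tt_update, Function.update_of_ne]
  intro h'
  injection h' with h1 h2
  exact hm (Sum.inr.inj h2)

lemma dn_update_self [DecidableEq (Param e)] (x : Param e ⊕ Param e → ZMod p) {i : Fin 3}
    (m₀ : Mon (e i)) (v : ZMod p) :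
    dn ψ (Function.update x (Sum.inl ⟨i, Sum.inr m₀⟩) v) i m₀ = ψ (v / x (Sum.inr ⟨i, Sum.inr m₀⟩)) := by
  unfold dn denC
  rw [tt_update, Function.update_self]

lemma nm_update [DecidableEq (Param e)] (x : Param e ⊕ Param e → ZMod p) {i : Fin 3}
    (m₀ m : Mon (e i + 1)) (v : ZMod p) (hm : m ≠ m₀) : nm ψ (Function.update x (Sum.inl ⟨i, Sum.inl m₀⟩) v) i m = nm ψ x i m := by
  unfold nm numC
  rw [tt_update, Function.update_of_ne]
  intro h'
  injection h' with h1 h2
  exact hm (Sum.inl.inj h2)

lemma nm_update_self [DecidableEq (Param e)] (x : Param e ⊕ Param e → ZMod p) {i : Fin 3}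
    (m₀ : Mon (e i + 1)) (v : ZMod p) :
    nm ψ (Function.update x (Sum.inl ⟨i, Sum.inl m₀⟩) v) i m₀ = ψ (v / x (Sum.inr ⟨i, Sum.inl m₀⟩)) := by
  unfold nm numC
  rw [tt_update, Function.update_self]

open Classical in
/-- a denominator vanishes at one of at most `N` points -/
lemma event_den (j i b : Fin 3) (N : ℕ) (P : (Param e ⊕ Param e → ZMod p) → Finset (Fin 3 → K))
    (hP1 : ∀ x, ∀ u ∈ P x, u b = 1) (hP2 : ∀ x, (P x).card ≤ N)
    (hP3 : ∀ x v, P (Function.update x (Sum.inl ⟨i, Sum.inr (pureMon _ b)⟩) v) = P x) :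
    p * ((boxX e p j).filter fun x => ∃ u ∈ P x, form (dn ψ x i) u = 0).card ≤ N * (boxX e p j).card := by
  refine event_bound ψ j ⟨i, Sum.inr (pureMon _ b)⟩ ?_ N _ ?_
  · intro h
    unfold spec at h
    injection h with h1 h2
    subst h1
    exact absurd (eq_of_heq h2) (by simp)
  · intro x _
    refine ⟨(P x).image fun u => - rest (dn ψ x i) b u, Finset.card_image_le.trans (hP2 x), ?_⟩
    rintro v ⟨u, hu, h0⟩
    rw [hP3] at hu
    rw [Finset.mem_image]
    refine ⟨u, hu, ?_⟩
    rw [form_eq_rest _ (hP1 x u hu), dn_update_self] at h0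
    rw [← rest_congr (fun m hm => dn_update ψ x (pureMon _ b) m v hm) u]
    exact (eq_neg_of_add_eq_zero_left h0).symm

open Classical in
/-- a numerator vanishes at one of at most `N` points -/
lemma event_num (j i b : Fin 3) (hi : i ≠ j) (N : ℕ) (P : Finset (Fin 3 → K))
    (hP1 : ∀ u ∈ P, u b = 1) (hP2 : P.card ≤ N) :
    p * ((boxX e p j).filter fun x => ∃ u ∈ P, form (nm ψ x i) u = 0).card ≤ N * (boxX e p j).card := by
  refine event_bound ψ j ⟨i, Sum.inl (pureMon _ b)⟩ ?_ N _ ?_
  · intro h
    unfold spec at h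
    injection h with h1 h2
    exact hi h1
  · intro x _
    refine ⟨P.image fun u => - rest (nm ψ x i) b u, Finset.card_image_le.trans hP2, ?_⟩
    rintro v ⟨u, hu, h0⟩
    rw [Finset.mem_image]
    refine ⟨u, hu, ?_⟩
    rw [form_eq_rest _ (hP1 u hu), nm_update_self] at h0
    rw [← rest_congr (fun m hm => nm_update ψ x (pureMon _ b) m v hm) u]
    exact (eq_neg_of_add_eq_zero_left h0).symm

lemma eval_smul' {F : MvPolynomial (Fin 3) K} {d : ℕ} (hF : F.IsHomogeneous d) (c : K) (u : Fin 3 → K) :
    eval (fun i => c * u i) F = c ^ d * eval u F := by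
  rw [eval_eq, eval_eq, Finset.mul_sum]
  refine Finset.sum_congr rfl fun e he => ?_
  have h1 : ∑ i ∈ e.support, e i = d := by
    have := hF.degree_eq_sum_deg_support he
    rw [← this]
  rw [← h1, ← Finset.prod_pow_eq_pow_sum]
  simp only [mul_pow, Finset.prod_mul_distrib]
  ring

/-- the constant in the count -/
def cst (e : Fin 3 → ℕ) (d : ℕ) (j : Fin 3) : ℕ := 6 * d + (d + e (j + 1)) * (d + e (j + 1)) * d

open Classical in
theorem card_compl [IsAlgClosed K] {F : MvPolynomial (Fin 3) K} {d : ℕ} (hF : F.IsHomogeneous d)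
    (hFc : ∀ i, F.coeff (Finsupp.single i d) ≠ 0) (j : Fin 3) :
    p * ((boxX e p j).filter fun x => ¬ Omega ψ F e j x).card ≤ cst e d j * (boxX e p j).card := by
  set L1 := linePts j (j + 1) (0 : K) F with hL1
  set L2 := linePts (j + 2) j (0 : K) F with hL2
  set L3 := linePts (j + 1) (j + 2) (0 : K) F with hL3
  have hcard1 : L1.card ≤ d := linePts_card hF (fin_a j) (fin_b j) (fin_c j) 0
  have hcard2 : L2.card ≤ d := linePts_card hF (fin_c j) (fin_a j) (fin_b j) 0
  have hcard3 : L3.card ≤ d := linePts_card hF (fin_b j) (fin_c j) (fin_a j) 0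
  have hN : ∀ c : Mon (e (j + 1)) → K, ∃ N : Finset (Fin 3 → K), N.card ≤ (d + e (j + 1)) * (d + e (j + 1)) * d ∧
      (∀ u ∈ N, u (j + 1) = 1) ∧ ((∀ z, eval (pt j (j + 1) 0 z) F = 0 → form c (pt j (j + 1) 0 z) ≠ 0) →
        ∀ u : Fin 3 → K, u (j + 1) = 1 → eval u F = 0 → form c u = 0 → u ∈ N) := by
    intro c
    by_cases h : ∀ z, eval (pt j (j + 1) 0 z) F = 0 → form c (pt j (j + 1) 0 z) ≠ 0
    · obtain ⟨N, h1, h2, h3⟩ := common_zeros hF (formMv_hom c) (fin_a j) (fin_b j) (fin_c j) (hFc _) (by
        intro z hz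
        rw [eval_formMv]
        exact h z hz)
      refine ⟨N, h1, h2, fun _ u hu h0 h0' => h3 u hu h0 (by rw [eval_formMv]; exact h0')⟩
    · exact ⟨∅, by simp, by simp, fun h' => absurd h' h⟩
  choose Pz hPz1 hPz2 hPz3 using hN
  have E0 := event_den ψ (e := e) j 0 (j + 1) d (fun _ => L1) (fun _ u hu => linePts_one (fin_a j) hu) (fun _ => hcard1) (fun _ _ => rfl)
  have E1 := event_den ψ (e := e) j 1 (j + 1) d (fun _ => L1) (fun _ u hu => linePts_one (fin_a j) hu) (fun _ => hcard1) (fun _ _ => rfl)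
  have E2 := event_den ψ (e := e) j 2 (j + 1) d (fun _ => L1) (fun _ u hu => linePts_one (fin_a j) hu) (fun _ => hcard1) (fun _ _ => rfl)
  have E3 := event_num ψ (e := e) j (j + 2) (j + 1) (fin_c j) d L1 (fun u hu => linePts_one (fin_a j) hu) hcard1
  have E4 := event_den ψ (e := e) j (j + 2) j d (fun _ => L2) (fun _ u hu => linePts_one (fin_c j) hu) (fun _ => hcard2) (fun _ _ => rfl)
  have E5 := event_den ψ (e := e) j (j + 2) (j + 2) d (fun _ => L3) (fun _ u hu => linePts_one (fin_b j) hu) (fun _ => hcard3) (fun _ _ => rfl)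
  have E6 := event_den ψ (e := e) j (j + 2) (j + 1) _ (fun x => Pz (dn ψ x (j + 1))) (fun x u hu => hPz2 _ u hu)
    (fun x => hPz1 _) (fun x v => by rw [dn_update_ne ψ x (fin_b j)])
  have hsub : (boxX e p j).filter (fun x => ¬ Omega ψ F e j x) ⊆
      (boxX e p j).filter (fun x => ∃ u ∈ L1, form (dn ψ x 0) u = 0) ∪
      (boxX e p j).filter (fun x => ∃ u ∈ L1, form (dn ψ x 1) u = 0) ∪
      (boxX e p j).filter (fun x => ∃ u ∈ L1, form (dn ψ x 2) u = 0) ∪
      (boxX e p j).filter (fun x => ∃ u ∈ L1, form (nm ψ x (j + 2)) u = 0) ∪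
      (boxX e p j).filter (fun x => ∃ u ∈ L2, form (dn ψ x (j + 2)) u = 0) ∪
      (boxX e p j).filter (fun x => ∃ u ∈ L3, form (dn ψ x (j + 2)) u = 0) ∪
      (boxX e p j).filter (fun x => ∃ u ∈ Pz (dn ψ x (j + 1)), form (dn ψ x (j + 2)) u = 0) := by
    intro x hx
    rw [Finset.mem_filter] at hx
    obtain ⟨hx, hno⟩ := hx
    by_contra hcon
    simp only [Finset.mem_union, Finset.mem_filter, not_or, hx, true_and] at hcon
    obtain ⟨⟨⟨⟨⟨⟨k0, k1⟩, k2⟩, k3⟩, k4⟩, k5⟩, k6⟩ := hcon
    push Not at k0 k1 k2 k3 k4 k5 k6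
    apply hno
    have hden : ∀ i, ∀ u ∈ L1, form (dn ψ x i) u ≠ 0 := by
      intro i
      fin_cases i
      · exact k0
      · exact k1
      · exact k2
    -- normalization
    have hnorm : ∀ (a : Fin 3) (u : Fin 3 → K), u a = 0 → u (a + 1) ≠ 0 → eval u F = 0 →
        (fun i => (u (a + 1))⁻¹ * u i) ∈ linePts a (a + 1) (0 : K) F := by
      intro a u h0 h1 hu
      have h2 := mem_linePts hF (fin_a a) (fin_b a) (fin_c a) (hFc _) (u := fun i => (u (a + 1))⁻¹ * u i)
        (inv_mul_cancel₀ h1) (by rw [eval_smul' hF, hu, mul_zero])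
      simp only [h0, mul_zero] at h2
      exact h2
    obtain ⟨h1, h2, h3⟩ := mem_boxX.mp hx
    refine ⟨h1, h2, h3, ?_, ?_⟩
    · intro u hj hj1 hj2 h0
      have hmem := hnorm j u hj hj1 h0
      refine ⟨fun i hi => ?_, fun hi => ?_⟩
      · apply hden i _ hmem
        rw [form_smul]
        show _ * form (dn ψ x i) u = 0
        rw [show form (dn ψ x i) u = 0 from hi, mul_zero]
      · apply k3 _ hmem
        rw [form_smul]
        rw [show form (nm ψ x (j + 2)) u = 0 from hi, mul_zero]
    · rintro u hone h0 ⟨hu1, hu2⟩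
      change u (j + 2) * form (dn ψ x (j + 1)) u = 0 at hu1
      change u j * form (dn ψ x (j + 2)) u = 0 at hu2
      rcases mul_eq_zero.mp hu2 with hj | hB2
      · -- u_j = 0
        have hj1 := (hone j (j + 1) (fin_a j)).resolve_left (by simp [hj])
        have hj2 := (hone j (j + 2) (fin_c j).symm).resolve_left (by simp [hj])
        have hmem := hnorm j u hj hj1 h0
        rcases mul_eq_zero.mp hu1 with h | h
        · exact hj2 h
        · apply hden (j + 1) _ hmem
          rw [form_smul, h, mul_zero]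
      · rcases mul_eq_zero.mp hu1 with hj2 | hB1
        · have hj := (hone (j + 2) j (fin_c j)).resolve_left (by simp [hj2])
          have hmem := hnorm (j + 2) u hj2 (by rw [fin_d]; exact hj) h0
          rw [fin_d] at hmem
          apply k4 _ hmem
          rw [form_smul, hB2, mul_zero]
        · by_cases hj1 : u (j + 1) = 0
          · have hj2 := (hone (j + 1) (j + 2) (fin_b j)).resolve_left (by simp [hj1])
            have hmem := hnorm (j + 1) u hj1 (by rw [fin_e]; exact hj2) h0
            rw [fin_e] at hmem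
            apply k5 _ hmem
            rw [form_smul, hB2, mul_zero]
          · have hmem : (fun i => (u (j + 1))⁻¹ * u i) ∈ Pz (dn ψ x (j + 1)) := by
              refine hPz3 _ ?_ _ (inv_mul_cancel₀ hj1) (by rw [eval_smul' hF, h0, mul_zero]) (by
                rw [form_smul, hB1, mul_zero])
              intro z hz
              apply hden (j + 1)
              have h2 := mem_linePts hF (fin_a j) (fin_b j) (fin_c j) (hFc _) (u := pt j (j + 1) 0 z)
                (by unfold pt; rw [if_neg (fin_a j).symm, if_pos rfl]) hz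
              have h3 : (pt j (j + 1) 0 z : Fin 3 → K) j = 0 := by unfold pt; rw [if_pos rfl]
              rw [h3] at h2
              exact h2
            apply k6 _ hmem
            rw [form_smul, hB2, mul_zero]
  have hle := Finset.card_le_card hsub
  have hle2 : ((boxX e p j).filter fun x => ¬ Omega ψ F e j x).card ≤
      ((boxX e p j).filter (fun x => ∃ u ∈ L1, form (dn ψ x 0) u = 0)).card +
      ((boxX e p j).filter (fun x => ∃ u ∈ L1, form (dn ψ x 1) u = 0)).card +
      ((boxX e p j).filter (fun x => ∃ u ∈ L1, form (dn ψ x 2) u = 0)).card +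
      ((boxX e p j).filter (fun x => ∃ u ∈ L1, form (nm ψ x (j + 2)) u = 0)).card +
      ((boxX e p j).filter (fun x => ∃ u ∈ L2, form (dn ψ x (j + 2)) u = 0)).card +
      ((boxX e p j).filter (fun x => ∃ u ∈ L3, form (dn ψ x (j + 2)) u = 0)).card +
      ((boxX e p j).filter (fun x => ∃ u ∈ Pz (dn ψ x (j + 1)), form (dn ψ x (j + 2)) u = 0)).card := by
    refine hle.trans ?_
    refine (Finset.card_union_le _ _).trans (Nat.add_le_add_right ?_ _)
    refine (Finset.card_union_le _ _).trans (Nat.add_le_add_right ?_ _)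
    refine (Finset.card_union_le _ _).trans (Nat.add_le_add_right ?_ _)
    refine (Finset.card_union_le _ _).trans (Nat.add_le_add_right ?_ _)
    refine (Finset.card_union_le _ _).trans (Nat.add_le_add_right ?_ _)
    exact Finset.card_union_le _ _
  calc p * ((boxX e p j).filter fun x => ¬ Omega ψ F e j x).card ≤ _ := Nat.mul_le_mul_left _ hle2
    _ ≤ _ := by
      unfold cst
      rw [Nat.mul_add, Nat.mul_add, Nat.mul_add, Nat.mul_add, Nat.mul_add, Nat.mul_add, Nat.add_mul]
      linarith

open Classical in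
theorem card_omega [IsAlgClosed K] {F : MvPolynomial (Fin 3) K} {d : ℕ} (hd : d ≠ 0) (hF : F.IsHomogeneous d)
    (hFc : ∀ i, F.coeff (Finsupp.single i d) ≠ 0) (j : Fin 3) (hp1 : 2 * cst e d j ≤ p)
    (hp2 : 4 * Fintype.card (Param e) ≤ p) :
    p ^ (2 * Fintype.card (Param e)) ≤
      4 * p * ((Finset.univ : Finset (Param e ⊕ Param e → ZMod p)).filter (Omega ψ F e j)).card := by
  have hp : 1 < p := (Fact.out : p.Prime).one_lt
  set M := Fintype.card (Param e) with hM
  have hc0 : 0 < cst e d j := by unfold cst; positivity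
  have h1 := card_compl ψ (e := e) hF hFc j
  set X := boxX e p j with hX
  have h2 : 2 * (X.filter fun x => ¬ Omega ψ F e j x).card ≤ X.card := by
    have h3 : cst e d j * (2 * (X.filter fun x => ¬ Omega ψ F e j x).card) ≤ cst e d j * X.card := by
      refine le_trans ?_ h1
      rw [← mul_assoc, mul_comm (cst e d j) 2]
      exact Nat.mul_le_mul_right _ hp1
    exact Nat.le_of_mul_le_mul_left h3 hc0
  have h3 : (X.filter (Omega ψ F e j)).card + (X.filter fun x => ¬ Omega ψ F e j x).card = X.card :=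
    Finset.card_filter_add_card_filter_not _
  have h4 : (X.filter (Omega ψ F e j)).card ≤
      ((Finset.univ : Finset (Param e ⊕ Param e → ZMod p)).filter (Omega ψ F e j)).card :=
    Finset.card_le_card (Finset.filter_subset_filter _ (Finset.subset_univ _))
  have h5 := card_boxX (e := e) (p := p) j
  rw [← hM, ← hX] at h5
  have h6 : p ^ (2 * M) ≤ 2 * (p - 1) ^ (2 * M) := by
    have hpR : (0 : ℝ) < p := by exact_mod_cast (by omega : 0 < p)
    have h7 := one_add_mul_le_pow (a := - (1 / (p : ℝ))) (by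
      have : 1 / (p : ℝ) ≤ 1 := by
        rw [div_le_one hpR]
        exact_mod_cast hp.le
      linarith) (2 * M)
    have h8 : (1 : ℝ) / 2 ≤ 1 + ((2 * M : ℕ) : ℝ) * (- (1 / (p : ℝ))) := by
      have h9 : ((2 * M : ℕ) : ℝ) * (1 / (p : ℝ)) ≤ 1 / 2 := by
        rw [mul_one_div, div_le_iff₀ hpR]
        have : ((4 * M : ℕ) : ℝ) ≤ p := by exact_mod_cast hp2
        push_cast at this ⊢
        linarith
      linarith
    have h9 : (1 : ℝ) / 2 ≤ (1 + - (1 / (p : ℝ))) ^ (2 * M) := h8.trans h7
    have h10 : (p : ℝ) ^ (2 * M) ≤ 2 * ((p - 1 : ℕ) : ℝ) ^ (2 * M) := by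
      have h11 : ((p - 1 : ℕ) : ℝ) = p * (1 + - (1 / (p : ℝ))) := by
        rw [Nat.cast_sub hp.le]
        field_simp
        push_cast
        ring
      rw [h11, mul_pow]
      have h12 : (0 : ℝ) < (p : ℝ) ^ (2 * M) := pow_pos hpR _
      nlinarith
    exact_mod_cast h10
  have h7 : X.card ≤ 2 * (X.filter (Omega ψ F e j)).card := by omega
  calc p ^ (2 * M) ≤ 2 * (p - 1) ^ (2 * M) := h6
    _ ≤ 2 * (p * X.card) := Nat.mul_le_mul_left _ h5
    _ ≤ 2 * (p * (2 * (X.filter (Omega ψ F e j)).card)) := Nat.mul_le_mul_left _ (Nat.mul_le_mul_left _ h7)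
    _ = 4 * p * (X.filter (Omega ψ F e j)).card := by ring
    _ ≤ _ := Nat.mul_le_mul_left _ h4

end count

end Pool.Agent.ZP46
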