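import Mathlib
import Pool.Agent.PCurv.ClosedPoints

/-!
For all large primes `p` there is a valuation ring of `ℂ` of residue characteristic `p` in which
finitely many given nonzero numbers are units.
-/

namespace Pool.Agent.ZP46

theorem exists_good (T : Finset ℂ) : ∃ P₀ : ℕ, ∀ p : ℕ, p.Prime → P₀ < p →
    ∃ V : ValuationSubring ℂ, V.valuation (p : ℂ) < 1 ∧
      ∀ s ∈ T, s ∈ V ∧ (s ≠ 0 → V.valuation s = 1) := by
  classical
  let T' : Finset ℂ := T ∪ T.image fun s => s⁻¹
  let A : Subalgebra ℤ ℂ := Algebra.adjoin ℤ (T' : Set ℂ)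
  have hfg : A.FG := Subalgebra.fg_adjoin_finset T'
  have hft : Algebra.FiniteType ℤ A := (Subalgebra.fg_iff_finiteType A).mp hfg
  have hch : CharZero A := by
    have : Function.Injective (algebraMap A ℂ) := Subtype.val_injective
    exact charZero_of_injective_algebraMap (R := ℤ) (A := A) (by
      intro a b hab
      have h1 : algebraMap A ℂ (algebraMap ℤ A a) = algebraMap A ℂ (algebraMap ℤ A b) := by rw [hab]
      rw [← IsScalarTower.algebraMap_apply, ← IsScalarTower.algebraMap_apply] at h1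
      simpa using h1)
  obtain ⟨P₀, hP⟩ := PCurv.exists_closedPoint A 1 one_ne_zero
  refine ⟨P₀, fun p hp hlt => ?_⟩
  obtain ⟨k, _, π, hsurj, -, hchar⟩ := hP p hp hlt
  have hker : RingHom.ker π ≠ ⊤ := by
    intro h
    have h1 : (1 : A) ∈ RingHom.ker π := by rw [h]; trivial
    rw [RingHom.mem_ker, map_one] at h1
    exact one_ne_zero h1
  obtain ⟨V, hV1, hV2⟩ := Ideal.image_subset_nonunits_valuationSubring (A := A.toSubring) (RingHom.ker π) hker
  refine ⟨V, ?_, ?_⟩
  · have h1 : ((p : ℂ)) ∈ V.nonunits := by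
      refine hV2 ⟨(p : A), ?_, by simp⟩
      show (p : A) ∈ RingHom.ker π
      rw [RingHom.mem_ker, map_natCast]
      exact CharP.cast_eq_zero k p
    exact h1
  · intro s hs
    have hsV : s ∈ V := hV1 (Algebra.subset_adjoin (by simp [T', hs]))
    refine ⟨hsV, fun hs0 => ?_⟩
    have hsV' : s⁻¹ ∈ V := hV1 (Algebra.subset_adjoin (by
      simp only [T', Finset.coe_union, Finset.coe_image, Set.mem_union, Set.mem_image]
      exact Or.inr ⟨s, hs, rfl⟩))
    have h1 : V.valuation s ≤ 1 := (V.valuation_le_one_iff _).mpr hsV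
    have h2 : V.valuation s⁻¹ ≤ 1 := (V.valuation_le_one_iff _).mpr hsV'
    refine le_antisymm h1 ?_
    rw [map_inv₀] at h2
    exact (inv_le_one₀ (zero_lt_iff.mpr (by rwa [Ne, map_eq_zero]))).mp h2

end Pool.Agent.ZP46
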