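import Mathlib

/-!
Integer vectors in a box which avoid given residue classes modulo many primes, and the number of
rational numbers of bounded height.
-/

namespace Pool.Agent.ZP46

open Finset

instance primesFact (p : Nat.Primes) : Fact (Nat.Prime (p : ℕ)) := ⟨p.2⟩

lemma exists_primes (y : ℕ) {ε : ℝ} (hε : 0 < ε) :
    ∃ S : Finset Nat.Primes, (∀ p ∈ S, y < (p : ℕ)) ∧ ∏ p ∈ S, (1 - 1 / (4 * (p : ℝ))) ≤ ε := by
  classical
  obtain ⟨u, hu⟩ : ∃ u : Finset Nat.Primes, (y + 1 : ℕ) + 4 * Real.log (1 / ε) < ∑ p ∈ u, 1 / (p : ℝ) := by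
    by_contra hcon
    push Not at hcon
    refine Nat.Primes.not_summable_one_div (summable_of_sum_le (fun p => by positivity) hcon)
  have hsmall : ∑ p ∈ u.filter (fun p : Nat.Primes => ¬ y < (p : ℕ)), 1 / (p : ℝ) ≤ (y + 1 : ℕ) := by
    have h1 : ∀ p ∈ u.filter (fun p : Nat.Primes => ¬ y < (p : ℕ)), 1 / (p : ℝ) ≤ 1 := by
      intro p _
      rw [div_le_one (by exact_mod_cast p.2.pos)]
      exact_mod_cast p.2.one_lt.le
    refine (sum_le_card_nsmul _ _ _ h1).trans ?_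
    rw [nsmul_eq_mul, mul_one]
    have h2 : (u.filter (fun p : Nat.Primes => ¬ y < (p : ℕ))).card ≤ (range (y + 1)).card := by
      refine card_le_card_of_injOn (fun p : Nat.Primes => (p : ℕ)) ?_ ?_
      · intro p hp
        simp only [coe_filter, Set.mem_ofPred_eq, coe_range, Set.mem_Iio] at hp ⊢
        omega
      · intro p _ q _ h
        exact Subtype.ext h
    rw [card_range] at h2
    exact_mod_cast h2
  refine ⟨u.filter fun p : Nat.Primes => y < (p : ℕ), fun p hp => (mem_filter.mp hp).2, ?_⟩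
  have hsum : 4 * Real.log (1 / ε) ≤ ∑ p ∈ u.filter (fun p : Nat.Primes => y < (p : ℕ)), 1 / (p : ℝ) := by
    have := sum_filter_add_sum_filter_not u (fun p : Nat.Primes => y < (p : ℕ)) fun p => 1 / (p : ℝ)
    linarith
  calc ∏ p ∈ u.filter (fun p : Nat.Primes => y < (p : ℕ)), (1 - 1 / (4 * (p : ℝ)))
      ≤ ∏ p ∈ u.filter (fun p : Nat.Primes => y < (p : ℕ)), Real.exp (- (1 / (4 * (p : ℝ)))) := by
        refine prod_le_prod ?_ ?_
        · intro p _
          have h1 : (1 : ℝ) ≤ (p : ℝ) := by exact_mod_cast p.2.one_lt.le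
          have : 1 / (4 * (p : ℝ)) ≤ 1 := by
            rw [div_le_one (by linarith)]
            linarith
          linarith
        · intro p _
          have := Real.add_one_le_exp (- (1 / (4 * (p : ℝ))))
          linarith
    _ = Real.exp (- ((1 / 4) * ∑ p ∈ u.filter (fun p : Nat.Primes => y < (p : ℕ)), 1 / (p : ℝ))) := by
        rw [← Real.exp_sum, sum_neg_distrib, mul_sum]
        congr 2
        refine sum_congr rfl fun p _ => ?_
        field_simp
    _ ≤ Real.exp (-Real.log (1 / ε)) := Real.exp_le_exp.mpr (by linarith)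
    _ = ε := by
        rw [Real.log_div one_ne_zero hε.ne', Real.log_one, zero_sub, neg_neg, Real.exp_log hε]

variable {κ : Type*} [Fintype κ] [DecidableEq κ]

/-- integer vectors with bounded coordinates -/
noncomputable def intBox (κ : Type*) [Fintype κ] [DecidableEq κ] (H : ℕ) : Finset (κ → ℤ) :=
  Fintype.piFinset fun _ : κ => Icc (-(H : ℤ)) H

open Classical in
theorem sieve (S : Finset Nat.Primes) (Ω : ∀ p : Nat.Primes, Finset (κ → ZMod p)) (H : ℕ)
    (hH : ∏ p ∈ S, (p : ℕ) ≤ H) :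
    ((intBox κ H).filter fun x => ∀ p ∈ S, (fun k => (x k : ZMod (p : ℕ))) ∉ Ω p).card *
        (∏ p ∈ S, (p : ℕ)) ^ Fintype.card κ ≤
      (4 * H) ^ Fintype.card κ * ∏ p ∈ S, ((p : ℕ) ^ Fintype.card κ - (Ω p).card) := by
  set Q := ∏ p ∈ S, (p : ℕ) with hQ
  have hQ0 : 0 < Q := prod_pos fun p _ => p.2.pos
  have hQ0' : (0 : ℤ) < Q := by exact_mod_cast hQ0
  set n := (2 * H) / Q + 1 with hn
  let T : Finset ((κ → ℕ) × (∀ p : Nat.Primes, p ∈ S → κ → ZMod (p : ℕ))) :=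
    (Fintype.piFinset fun _ : κ => range n) ×ˢ S.pi fun p => (Ω p)ᶜ
  have h1 : ((intBox κ H).filter fun x => ∀ p ∈ S, (fun k => (x k : ZMod (p : ℕ))) ∉ Ω p).card ≤ T.card := by
    refine card_le_card_of_injOn (fun x => (fun k => ((x k + H) / (Q : ℤ)).toNat, fun p _ k => (x k : ZMod (p : ℕ)))) ?_ ?_
    · intro x hx
      rw [mem_coe, mem_filter] at hx
      rw [mem_coe, mem_product]
      refine ⟨?_, ?_⟩
      · rw [Fintype.mem_piFinset]
        intro k
        have h2 := Fintype.mem_piFinset.mp hx.1 k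
        rw [mem_Icc] at h2
        rw [mem_range]
        simp only
        have h3 : (x k + H) / (Q : ℤ) < n := by
          have h4 : (x k + H) / (Q : ℤ) ≤ (2 * H : ℤ) / (Q : ℤ) := Int.ediv_le_ediv hQ0' (by omega)
          have h5 : ((2 * H / Q : ℕ) : ℤ) = (2 * H : ℤ) / (Q : ℤ) := by push_cast; rfl
          rw [hn]
          push_cast
          linarith
        have h6 : 0 ≤ (x k + H) / (Q : ℤ) := Int.ediv_nonneg (by omega) hQ0'.le
        omega
      · rw [mem_pi]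
        intro p hp
        rw [mem_compl]
        exact hx.2 p hp
    · intro x hx y hy hxy
      rw [mem_coe, mem_filter] at hx hy
      funext k
      obtain ⟨h2, h3⟩ := Prod.ext_iff.mp hxy
      have h4 := congrFun h2 k
      simp only at h4
      have hx1 := Fintype.mem_piFinset.mp hx.1 k
      have hy1 := Fintype.mem_piFinset.mp hy.1 k
      rw [mem_Icc] at hx1 hy1
      have h6 : 0 ≤ (x k + H) / (Q : ℤ) := Int.ediv_nonneg (by omega) hQ0'.le
      have h7 : 0 ≤ (y k + H) / (Q : ℤ) := Int.ediv_nonneg (by omega) hQ0'.le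
      have h8 : (x k + H) / (Q : ℤ) = (y k + H) / (Q : ℤ) := by omega
      have h9 : (Q : ℤ) ∣ x k - y k := by
        rw [hQ, Nat.cast_prod]
        refine prod_dvd_of_coprime ?_ ?_
        · intro p _ q _ hpq
          show IsCoprime ((p : ℕ) : ℤ) ((q : ℕ) : ℤ)
          rw [Nat.isCoprime_iff_coprime]
          exact (Nat.coprime_primes p.2 q.2).mpr fun h => hpq (Subtype.ext h)
        · intro p hp
          have h10 := congrFun (congrFun (congrFun h3 p) hp) k
          rw [ZMod.intCast_eq_intCast_iff] at h10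
          exact (Int.modEq_iff_dvd.mp h10.symm)
      have h10 : (x k + H) % (Q : ℤ) = (y k + H) % (Q : ℤ) := by
        refine (Int.emod_emod_of_dvd _ (dvd_refl _)).symm.trans ?_
        rw [Int.emod_emod_of_dvd _ (dvd_refl _)]
        refine Int.ModEq.symm ?_
        rw [Int.modEq_iff_dvd]
        have : x k + (H : ℤ) - (y k + H) = x k - y k := by ring
        rw [this]
        exact h9
      have h11 := Int.mul_ediv_add_emod (x k + H) Q
      have h12 := Int.mul_ediv_add_emod (y k + H) Q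
      rw [h8, h10] at h11
      linarith
  have h2 : T.card = n ^ Fintype.card κ * ∏ p ∈ S, ((p : ℕ) ^ Fintype.card κ - (Ω p).card) := by
    rw [card_product, Fintype.card_piFinset, card_pi]
    congr 1
    · simp
    · refine prod_congr rfl fun p _ => ?_
      rw [card_compl, Fintype.card_fun, ZMod.card]
  have h3 : n * Q ≤ 4 * H := by
    have h4 : (2 * H) / Q * Q ≤ 2 * H := Nat.div_mul_le_self _ _
    rw [hn, Nat.add_mul, one_mul]
    omega
  calc _ ≤ T.card * Q ^ Fintype.card κ := Nat.mul_le_mul_right _ h1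
    _ = (n * Q) ^ Fintype.card κ * ∏ p ∈ S, ((p : ℕ) ^ Fintype.card κ - (Ω p).card) := by
        rw [h2, mul_pow]; ring
    _ ≤ _ := Nat.mul_le_mul_right _ (Nat.pow_le_pow_left h3 _)

/-- rational numbers of height at most `H` -/
noncomputable def ratFin (H : ℕ) : Finset ℚ :=
  ((Icc (-(H : ℤ)) H ×ˢ Icc 1 H).image fun ab : ℤ × ℕ => (ab.1 : ℚ) / (ab.2 : ℚ)).filter
    fun r => r.num.natAbs ≤ H ∧ r.den ≤ H

lemma mem_ratFin {H : ℕ} {r : ℚ} : r ∈ ratFin H ↔ r.num.natAbs ≤ H ∧ r.den ≤ H := by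
  unfold ratFin
  rw [mem_filter, and_iff_right_iff_imp]
  rintro ⟨h1, h2⟩
  rw [mem_image]
  refine ⟨(r.num, r.den), ?_, ?_⟩
  · rw [mem_product, mem_Icc, mem_Icc]
    have := r.den_pos
    simp only
    omega
  · exact Rat.num_div_den r

lemma sum_inv_sq (n : ℕ) (hn : 2 ≤ n) : ∑ m ∈ Icc 2 n, 1 / (m : ℝ) ^ 2 ≤ 3 / 4 - 1 / (n : ℝ) := by
  induction n, hn using Nat.le_induction with
  | base => rw [Icc_self, sum_singleton]; norm_num
  | succ n hn ih =>
    rw [sum_Icc_succ_top (by omega)]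
    have h1 : (0 : ℝ) < n := by exact_mod_cast (by omega : 0 < n)
    have h2 : 1 / ((n + 1 : ℕ) : ℝ) ^ 2 ≤ 1 / n - 1 / ((n + 1 : ℕ) : ℝ) := by
      push_cast
      rw [div_sub_div _ _ h1.ne' (by positivity), div_le_div_iff₀ (by positivity) (by positivity)]
      nlinarith
    linarith

lemma card_ratFin (H : ℕ) : (H : ℝ) ^ 2 ≤ 4 * ((ratFin H).card : ℝ) := by
  classical
  rcases Nat.lt_or_ge H 2 with hH | hH
  · -- small heights
    have h0 : (1 : ℝ) ≤ ((ratFin H).card : ℝ) ∨ H = 0 := by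
      rcases Nat.eq_zero_or_pos H with h | h
      · exact Or.inr h
      · left
        have : 0 < (ratFin H).card := card_pos.mpr ⟨0, mem_ratFin.mpr ⟨by simp, by simpa using Nat.succ_le_of_lt h⟩⟩
        exact_mod_cast this
    rcases h0 with h0 | h0
    · have : (H : ℝ) ≤ 1 := by exact_mod_cast (by omega : H ≤ 1)
      have h2 : (0 : ℝ) ≤ H := Nat.cast_nonneg _
      nlinarith
    · rw [h0]
      simp
  set P := Ioc 0 H ×ˢ Ioc 0 H with hP
  have h1 : (P.filter fun ab => ab.1.Coprime ab.2).card ≤ (ratFin H).card := by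
    refine card_le_card_of_injOn (fun ab => (ab.1 : ℚ) / (ab.2 : ℚ)) ?_ ?_
    · rintro ⟨a, b⟩ hab
      rw [mem_coe, mem_filter, hP, mem_product, mem_Ioc, mem_Ioc] at hab
      obtain ⟨⟨⟨ha, ha'⟩, hb, hb'⟩, hc⟩ := hab
      simp only at ha ha' hb hb' hc
      rw [mem_coe, mem_ratFin]
      have h2 := Rat.num_div_eq_of_coprime (a := (a : ℤ)) (b := (b : ℤ)) (by exact_mod_cast hb) (by simpa using hc)
      have h3 := Rat.den_div_eq_of_coprime (a := (a : ℤ)) (b := (b : ℤ)) (by exact_mod_cast hb) (by simpa using hc)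
      simp only [Int.cast_natCast] at h2 h3
      constructor
      · rw [h2]; simpa using ha'
      · have h6 : (((a : ℚ) / (b : ℚ)).den : ℤ) = b := h3
        have h7 : ((a : ℚ) / (b : ℚ)).den = b := by exact_mod_cast h6
        show ((a : ℚ) / (b : ℚ)).den ≤ H
        rw [h7]; exact hb'
    · rintro ⟨a, b⟩ hab ⟨a', b'⟩ hab' h
      rw [mem_coe, mem_filter, hP, mem_product, mem_Ioc, mem_Ioc] at hab hab'
      obtain ⟨⟨⟨ha, ha'⟩, hb, hb'⟩, hc⟩ := hab
      obtain ⟨⟨⟨ka, ka'⟩, kb, kb'⟩, kc⟩ := hab'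
      simp only at ha ha' hb hb' hc ka ka' kb kb' kc h
      have h2 := Rat.num_div_eq_of_coprime (a := (a : ℤ)) (b := (b : ℤ)) (by exact_mod_cast hb) (by simpa using hc)
      have h3 := Rat.den_div_eq_of_coprime (a := (a : ℤ)) (b := (b : ℤ)) (by exact_mod_cast hb) (by simpa using hc)
      have h4 := Rat.num_div_eq_of_coprime (a := (a' : ℤ)) (b := (b' : ℤ)) (by exact_mod_cast kb) (by simpa using kc)
      have h5 := Rat.den_div_eq_of_coprime (a := (a' : ℤ)) (b := (b' : ℤ)) (by exact_mod_cast kb) (by simpa using kc)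
      simp only [Int.cast_natCast] at h2 h3 h4 h5
      rw [h] at h2 h3
      rw [h2] at h4
      rw [h3] at h5
      rw [Prod.mk.injEq]
      exact ⟨by exact_mod_cast h4, by exact_mod_cast h5⟩
  have h2 : (P.filter fun ab => ab.1.Coprime ab.2).card + (P.filter fun ab => ¬ ab.1.Coprime ab.2).card = H ^ 2 := by
    rw [card_filter_add_card_filter_not, hP, card_product, Nat.card_Ioc]
    simp [sq]
  have h3 : ((P.filter fun ab => ¬ ab.1.Coprime ab.2).card : ℝ) ≤ 3 / 4 * (H : ℝ) ^ 2 := by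
    have h4 : (P.filter fun ab => ¬ ab.1.Coprime ab.2) ⊆ (Icc 2 H).biUnion fun m =>
        ((Ioc 0 H).filter fun a => m ∣ a) ×ˢ ((Ioc 0 H).filter fun a => m ∣ a) := by
      rintro ⟨a, b⟩ hab
      rw [mem_filter, hP, mem_product, mem_Ioc, mem_Ioc] at hab
      obtain ⟨⟨⟨ha, ha'⟩, hb, hb'⟩, hc⟩ := hab
      simp only at ha ha' hb hb' hc
      rw [mem_biUnion]
      refine ⟨Nat.gcd a b, ?_, ?_⟩
      · rw [mem_Icc]
        have h5 : 0 < Nat.gcd a b := Nat.gcd_pos_of_pos_left _ ha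
        have h6 : Nat.gcd a b ≠ 1 := hc
        have h7 : Nat.gcd a b ≤ a := Nat.gcd_le_left _ ha
        omega
      · simp only [mem_product, mem_filter, mem_Ioc]
        exact ⟨⟨⟨ha, ha'⟩, Nat.gcd_dvd_left _ _⟩, ⟨hb, hb'⟩, Nat.gcd_dvd_right _ _⟩
    have h5 := (card_le_card h4).trans card_biUnion_le
    have h6 : (((P.filter fun ab => ¬ ab.1.Coprime ab.2).card : ℕ) : ℝ) ≤
        ∑ m ∈ Icc 2 H, ((((Ioc 0 H).filter fun a => m ∣ a) ×ˢ ((Ioc 0 H).filter fun a => m ∣ a)).card : ℝ) := by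
      exact_mod_cast h5
    refine h6.trans ?_
    have h7 : ∀ m ∈ Icc 2 H, ((((Ioc 0 H).filter fun a => m ∣ a) ×ˢ ((Ioc 0 H).filter fun a => m ∣ a)).card : ℝ) ≤
        (H : ℝ) ^ 2 * (1 / (m : ℝ) ^ 2) := by
      intro m hm
      rw [mem_Icc] at hm
      rw [card_product, Nat.Ioc_filter_dvd_card_eq_div]
      push_cast
      have h8 : ((H / m : ℕ) : ℝ) ≤ (H : ℝ) / m := Nat.cast_div_le
      have h9 : (0 : ℝ) ≤ ((H / m : ℕ) : ℝ) := Nat.cast_nonneg _
      calc ((H / m : ℕ) : ℝ) * ((H / m : ℕ) : ℝ) ≤ ((H : ℝ) / m) * ((H : ℝ) / m) := mul_le_mul h8 h8 h9 (h9.trans h8)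
        _ = _ := by ring
    refine (sum_le_sum h7).trans ?_
    rw [← mul_sum]
    have h8 := sum_inv_sq H hH
    have h9 : (0 : ℝ) ≤ 1 / H := by positivity
    nlinarith [sq_nonneg (H : ℝ)]
  have h4 : (((P.filter fun ab => ab.1.Coprime ab.2).card : ℕ) : ℝ) + (((P.filter fun ab => ¬ ab.1.Coprime ab.2).card : ℕ) : ℝ) =
      (H : ℝ) ^ 2 := by exact_mod_cast h2
  have h5 : (((P.filter fun ab => ab.1.Coprime ab.2).card : ℕ) : ℝ) ≤ ((ratFin H).card : ℝ) := by exact_mod_cast h1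
  linarith

open Classical in
theorem sieve_real (S : Finset Nat.Primes) (Ω : ∀ p : Nat.Primes, Finset (κ → ZMod p)) (H : ℕ)
    (hH : ∏ p ∈ S, (p : ℕ) ≤ H)
    (hΩ : ∀ p ∈ S, (p : ℕ) ^ Fintype.card κ ≤ 4 * (p : ℕ) * (Ω p).card) :
    (((intBox κ H).filter fun x => ∀ p ∈ S, (fun k => (x k : ZMod (p : ℕ))) ∉ Ω p).card : ℝ) ≤
      (4 * (H : ℝ)) ^ Fintype.card κ * ∏ p ∈ S, (1 - 1 / (4 * (p : ℝ))) := by
  set N := Fintype.card κ with hN
  set Q := ∏ p ∈ S, (p : ℕ) with hQ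
  have hQ0 : 0 < Q := prod_pos fun p _ => p.2.pos
  have h1 := sieve S Ω H hH
  rw [← hQ, ← hN] at h1
  have h2 : (((intBox κ H).filter fun x => ∀ p ∈ S, (fun k => (x k : ZMod (p : ℕ))) ∉ Ω p).card : ℝ) * (Q : ℝ) ^ N ≤
      (4 * (H : ℝ)) ^ N * ∏ p ∈ S, (((p : ℕ) ^ N - (Ω p).card : ℕ) : ℝ) := by
    exact_mod_cast h1
  have h3 : ∏ p ∈ S, (((p : ℕ) ^ N - (Ω p).card : ℕ) : ℝ) ≤ ∏ p ∈ S, ((p : ℝ) ^ N * (1 - 1 / (4 * (p : ℝ)))) := by
    refine prod_le_prod (fun p _ => Nat.cast_nonneg _) fun p hp => ?_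
    have hp0 : (0 : ℝ) < (p : ℝ) := by exact_mod_cast p.2.pos
    have h4 : (Ω p).card ≤ (p : ℕ) ^ N := by
      have := card_le_univ (Ω p)
      rwa [Fintype.card_fun, ZMod.card] at this
    rw [Nat.cast_sub h4]
    push_cast
    have h5 : ((p : ℝ)) ^ N ≤ 4 * (p : ℝ) * ((Ω p).card : ℝ) := by exact_mod_cast hΩ p hp
    have h6 : (p : ℝ) ^ N * (1 / (4 * (p : ℝ))) ≤ ((Ω p).card : ℝ) := by
      rw [mul_one_div, div_le_iff₀ (by positivity)]
      linarith
    linarith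
  rw [prod_mul_distrib, prod_pow] at h3
  have h4 : (∏ p ∈ S, (p : ℝ)) = (Q : ℝ) := by rw [hQ]; push_cast; rfl
  rw [h4] at h3
  have hQN : (0 : ℝ) < (Q : ℝ) ^ N := by positivity
  have h5 : (4 * (H : ℝ)) ^ N * ∏ p ∈ S, (((p : ℕ) ^ N - (Ω p).card : ℕ) : ℝ) ≤
      (4 * (H : ℝ)) ^ N * ((Q : ℝ) ^ N * ∏ p ∈ S, (1 - 1 / (4 * (p : ℝ)))) :=
    mul_le_mul_of_nonneg_left h3 (by positivity)
  have h6 := h2.trans h5
  have h7 : (4 * (H : ℝ)) ^ N * ((Q : ℝ) ^ N * ∏ p ∈ S, (1 - 1 / (4 * (p : ℝ)))) =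
      ((4 * (H : ℝ)) ^ N * ∏ p ∈ S, (1 - 1 / (4 * (p : ℝ)))) * (Q : ℝ) ^ N := by ring
  rw [h7] at h6
  exact le_of_mul_le_mul_right h6 hQN

/-- the numerators and denominators of a vector of rational numbers -/
def toInt {ι : Type*} (c : ι → ℚ) : ι ⊕ ι → ℤ := Sum.elim (fun s => (c s).num) fun s => ((c s).den : ℤ)

lemma toInt_injective {ι : Type*} : Function.Injective (toInt (ι := ι)) := by
  intro c c' h
  funext s
  have h1 := congrFun h (Sum.inl s)
  have h2 := congrFun h (Sum.inr s)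
  simp only [toInt, Sum.elim_inl, Sum.elim_inr] at h1 h2
  exact Rat.ext h1 (by exact_mod_cast h2)

open Classical in
/-- almost all vectors of rational numbers satisfy a property which is implied by many independent
conditions modulo primes -/
theorem density_rat {ι J : Type*} [Fintype ι] [Fintype J] (Good : (ι → ℚ) → Prop) (P₀ : ℕ)
    (Ω : ∀ p : Nat.Primes, J → Finset (ι ⊕ ι → ZMod p))
    (hΩ : ∀ p : Nat.Primes, P₀ < (p : ℕ) → ∀ j, (p : ℕ) ^ (2 * Fintype.card ι) ≤ 4 * (p : ℕ) * (Ω p j).card)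
    (hGood : ∀ c : ι → ℚ, (∀ j, ∃ p : Nat.Primes, P₀ < (p : ℕ) ∧ (fun k => (toInt c k : ZMod (p : ℕ))) ∈ Ω p j) → Good c) :
    Filter.Tendsto (fun H : ℕ => (((Fintype.piFinset fun _ : ι => ratFin H).filter fun c => ¬ Good c).card : ℝ) /
      ((Fintype.piFinset fun _ : ι => ratFin H).card : ℝ)) Filter.atTop (nhds 0) := by
  set M := Fintype.card ι with hM
  have hcard : Fintype.card (ι ⊕ ι) = 2 * M := by rw [Fintype.card_sum]; ring
  rw [Metric.tendsto_atTop]
  intro ε hε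
  set ε' : ℝ := ε / (2 * ((Fintype.card J : ℝ) + 1) * 64 ^ M) with hε'
  have hε'0 : 0 < ε' := by positivity
  obtain ⟨S, hS1, hS2⟩ := exists_primes P₀ hε'0
  refine ⟨max (∏ p ∈ S, (p : ℕ)) 1, fun H hH => ?_⟩
  have hH1 : ∏ p ∈ S, (p : ℕ) ≤ H := (le_max_left _ _).trans hH
  have hH2 : 1 ≤ H := (le_max_right _ _).trans hH
  set X := Fintype.piFinset fun _ : ι => ratFin H with hX
  have hsub : (X.filter fun c => ¬ Good c) ⊆ (univ : Finset J).biUnion fun j =>
      X.filter fun c => ∀ p ∈ S, (fun k => (toInt c k : ZMod (p : ℕ))) ∉ Ω p j := by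
    intro c hc
    rw [mem_filter] at hc
    rw [mem_biUnion]
    by_contra hcon
    push Not at hcon
    apply hc.2
    apply hGood
    intro j
    have h1 := hcon j (mem_univ _)
    rw [mem_filter, not_and] at h1
    have h2 := h1 hc.1
    push Not at h2
    obtain ⟨p, hp, hp'⟩ := h2
    exact ⟨p, hS1 p hp, hp'⟩
  have hj : ∀ j : J, ((X.filter fun c => ∀ p ∈ S, (fun k => (toInt c k : ZMod (p : ℕ))) ∉ Ω p j).card : ℝ) ≤
      (4 * (H : ℝ)) ^ (2 * M) * ε' := by
    intro j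
    have h1 : (X.filter fun c => ∀ p ∈ S, (fun k => (toInt c k : ZMod (p : ℕ))) ∉ Ω p j).card ≤
        ((intBox (ι ⊕ ι) H).filter fun x => ∀ p ∈ S, (fun k => (x k : ZMod (p : ℕ))) ∉ Ω p j).card := by
      refine card_le_card_of_injOn toInt ?_ toInt_injective.injOn
      intro c hc
      rw [mem_coe, mem_filter] at hc ⊢
      refine ⟨?_, hc.2⟩
      unfold intBox
      rw [Fintype.mem_piFinset]
      have h2 := fun s => mem_ratFin.mp (Fintype.mem_piFinset.mp hc.1 s)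
      rintro (s | s)
      · have := (h2 s).1
        simp only [toInt, Sum.elim_inl, mem_Icc]
        omega
      · have := (h2 s).2
        simp only [toInt, Sum.elim_inr, mem_Icc]
        omega
    have h2 := sieve_real (κ := ι ⊕ ι) S (fun p => Ω p j) H hH1 (by
      intro p hp
      rw [hcard]
      exact hΩ p (hS1 p hp) j)
    rw [hcard] at h2
    have h3 : ((X.filter fun c => ∀ p ∈ S, (fun k => (toInt c k : ZMod (p : ℕ))) ∉ Ω p j).card : ℝ) ≤
        (((intBox (ι ⊕ ι) H).filter fun x => ∀ p ∈ S, (fun k => (x k : ZMod (p : ℕ))) ∉ Ω p j).card : ℝ) := by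
      exact_mod_cast h1
    exact h3.trans (h2.trans (mul_le_mul_of_nonneg_left hS2 (by positivity)))
  have hbad : ((X.filter fun c => ¬ Good c).card : ℝ) ≤ (Fintype.card J : ℝ) * ((4 * (H : ℝ)) ^ (2 * M) * ε') := by
    have h1 := (card_le_card hsub).trans card_biUnion_le
    have h2 : ((X.filter fun c => ¬ Good c).card : ℝ) ≤
        ∑ j : J, ((X.filter fun c => ∀ p ∈ S, (fun k => (toInt c k : ZMod (p : ℕ))) ∉ Ω p j).card : ℝ) := by
      exact_mod_cast h1
    refine h2.trans ((sum_le_sum fun j _ => hj j).trans (le_of_eq ?_))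
    rw [sum_const, card_univ, nsmul_eq_mul]
  have htot : ((H : ℝ) ^ 2) ^ M ≤ 4 ^ M * (X.card : ℝ) := by
    have h1 : (X.card : ℝ) = ((ratFin H).card : ℝ) ^ M := by
      rw [hX, Fintype.card_piFinset, prod_const, card_univ]
      push_cast
      rfl
    rw [h1, ← mul_pow]
    exact pow_le_pow_left₀ (by positivity) (card_ratFin H) _
  have hX0 : (0 : ℝ) < X.card := by
    have h1 : (0 : ℝ) < ((H : ℝ) ^ 2) ^ M := by
      have : (0 : ℝ) < H := by exact_mod_cast hH2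
      positivity
    by_contra hcon
    have : (X.card : ℝ) = 0 := le_antisymm (not_lt.mp hcon) (Nat.cast_nonneg _)
    rw [this, mul_zero] at htot
    linarith
  rw [Real.dist_eq, sub_zero, abs_of_nonneg (by positivity), div_lt_iff₀ hX0]
  have h64 : (4 * (H : ℝ)) ^ (2 * M) ≤ 64 ^ M * (X.card : ℝ) := by
    have h1 : (4 * (H : ℝ)) ^ (2 * M) = 16 ^ M * ((H : ℝ) ^ 2) ^ M := by
      rw [pow_mul, mul_pow, mul_pow]; norm_num
    have h2 : (64 : ℝ) ^ M = 16 ^ M * 4 ^ M := by rw [← mul_pow]; norm_num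
    rw [h1, h2, mul_assoc]
    exact mul_le_mul_of_nonneg_left htot (by positivity)
  calc ((X.filter fun c => ¬ Good c).card : ℝ) ≤ (Fintype.card J : ℝ) * ((4 * (H : ℝ)) ^ (2 * M) * ε') := hbad
    _ ≤ (Fintype.card J : ℝ) * ((64 ^ M * (X.card : ℝ)) * ε') :=
        mul_le_mul_of_nonneg_left (mul_le_mul_of_nonneg_right h64 hε'0.le) (by positivity)
    _ ≤ ((Fintype.card J : ℝ) + 1) * ((64 ^ M * (X.card : ℝ)) * ε') :=
        mul_le_mul_of_nonneg_right (by linarith) (by positivity)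
    _ = ε / 2 * (X.card : ℝ) := by
        rw [hε']
        field_simp
    _ < ε * (X.card : ℝ) := by nlinarith

open Classical in
theorem density_rat_ncard {ι J : Type*} [Fintype ι] [Fintype J] (Good : (ι → ℚ) → Prop) (P₀ : ℕ)
    (Ω : ∀ p : Nat.Primes, J → Finset (ι ⊕ ι → ZMod p))
    (hΩ : ∀ p : Nat.Primes, P₀ < (p : ℕ) → ∀ j, (p : ℕ) ^ (2 * Fintype.card ι) ≤ 4 * (p : ℕ) * (Ω p j).card)
    (hGood : ∀ c : ι → ℚ, (∀ j, ∃ p : Nat.Primes, P₀ < (p : ℕ) ∧ (fun k => (toInt c k : ZMod (p : ℕ))) ∈ Ω p j) → Good c) :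
    Filter.Tendsto (fun H : ℕ =>
      ({c : ι → ℚ | (∀ s, (c s).num.natAbs ≤ H ∧ (c s).den ≤ H) ∧ ¬ Good c}.ncard : ℝ) /
      ({c : ι → ℚ | ∀ s, (c s).num.natAbs ≤ H ∧ (c s).den ≤ H}.ncard : ℝ)) Filter.atTop (nhds 0) := by
  refine (density_rat Good P₀ Ω hΩ hGood).congr fun H => ?_
  have e1 : {c : ι → ℚ | ∀ s, (c s).num.natAbs ≤ H ∧ (c s).den ≤ H} =
      ((Fintype.piFinset fun _ : ι => ratFin H : Finset (ι → ℚ)) : Set (ι → ℚ)) := by
    ext c
    simp only [Set.mem_ofPred_eq, Finset.mem_coe, Fintype.mem_piFinset, mem_ratFin]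
  have e2 : {c : ι → ℚ | (∀ s, (c s).num.natAbs ≤ H ∧ (c s).den ≤ H) ∧ ¬ Good c} =
      (((Fintype.piFinset fun _ : ι => ratFin H).filter fun c => ¬ Good c : Finset (ι → ℚ)) : Set (ι → ℚ)) := by
    ext c
    simp only [Set.mem_ofPred_eq, Finset.coe_filter, Fintype.mem_piFinset, mem_ratFin]
  rw [e1, e2, Set.ncard_coe_finset, Set.ncard_coe_finset]

end Pool.Agent.ZP46
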