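import Mathlib

/-!
Almost all triples of positive integers have a private prime in each coordinate.
-/

namespace Pool.Agent.ZP46

open Finset Filter Topology

/-- the primes in `(y, z]` -/
def primesIoc (y z : ℕ) : Finset ℕ := (Ioc y z).filter Nat.Prime

lemma prod_small (y : ℕ) {ε : ℝ} (hε : 0 < ε) : ∃ z, ∏ p ∈ primesIoc y z, (1 - (p : ℝ)⁻¹) ≤ ε := by
  classical
  have hns : ¬ Summable ({p : ℕ | p.Prime}.indicator fun n : ℕ => (1 : ℝ) / n) := not_summable_one_div_on_primes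
  have hnonneg : ∀ n : ℕ, 0 ≤ ({p : ℕ | p.Prime}.indicator fun n : ℕ => (1 : ℝ) / n) n := by
    intro n
    refine Set.indicator_nonneg ?_ n
    intro x _
    positivity
  have htend := (not_summable_iff_tendsto_nat_atTop_of_nonneg hnonneg).mp hns
  set S := ∑ i ∈ range (y + 1), ({p : ℕ | p.Prime}.indicator fun n : ℕ => (1 : ℝ) / n) i with hS
  obtain ⟨z, hz1, hz2⟩ := ((htend.eventually_ge_atTop (S + Real.log (1 / ε))).and (eventually_ge_atTop (y + 1))).exists
  refine ⟨z, ?_⟩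
  have hsum : Real.log (1 / ε) ≤ ∑ p ∈ primesIoc y z, (p : ℝ)⁻¹ := by
    have h1 : ∑ i ∈ range z, ({p : ℕ | p.Prime}.indicator fun n : ℕ => (1 : ℝ) / n) i =
        S + ∑ i ∈ Ico (y + 1) z, ({p : ℕ | p.Prime}.indicator fun n : ℕ => (1 : ℝ) / n) i := by
      rw [hS, Finset.sum_range_add_sum_Ico _ hz2]
    have h2 : ∑ i ∈ Ico (y + 1) z, ({p : ℕ | p.Prime}.indicator fun n : ℕ => (1 : ℝ) / n) i ≤
        ∑ p ∈ primesIoc y z, (p : ℝ)⁻¹ := by
      unfold primesIoc
      rw [sum_filter]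
      refine (sum_le_sum_of_subset_of_nonneg (t := Ioc y z) ?_ ?_).trans (le_of_eq ?_)
      · intro i hi
        rw [mem_Ico] at hi
        rw [mem_Ioc]
        omega
      · intro i _ _
        exact hnonneg i
      · refine sum_congr rfl fun i _ => ?_
        simp [Set.indicator_apply]
    linarith
  calc ∏ p ∈ primesIoc y z, (1 - (p : ℝ)⁻¹) ≤ ∏ p ∈ primesIoc y z, Real.exp (-(p : ℝ)⁻¹) := by
        refine prod_le_prod ?_ ?_
        · intro p hp
          have hp' := (mem_filter.mp hp).2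
          have : (p : ℝ)⁻¹ ≤ 1 := inv_le_one_of_one_le₀ (by exact_mod_cast hp'.one_lt.le)
          linarith
        · intro p _
          have := Real.add_one_le_exp (-(p : ℝ)⁻¹)
          linarith
    _ = Real.exp (-∑ p ∈ primesIoc y z, (p : ℝ)⁻¹) := by
        rw [← Real.exp_sum, sum_neg_distrib]
    _ ≤ Real.exp (-Real.log (1 / ε)) := Real.exp_le_exp.mpr (by linarith)
    _ = ε := by
        rw [Real.log_div one_ne_zero hε.ne', Real.log_one, zero_sub, neg_neg, Real.exp_log hε]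

/-- there are few integers without prime factors in a given set of primes -/
lemma card_coprime_le (y z H : ℕ) :
    (((Icc 1 H).filter fun n => ∀ p ∈ primesIoc y z, ¬ p ∣ n).card : ℝ) ≤
      (∏ p ∈ primesIoc y z, (1 - (p : ℝ)⁻¹)) * H + ∏ p ∈ primesIoc y z, (p : ℝ) := by
  classical
  have hpr : ∀ p ∈ primesIoc y z, p.Prime := fun p hp => (mem_filter.mp hp).2
  set M := ∏ p ∈ primesIoc y z, p with hM
  have hM0 : 0 < M := prod_pos fun p hp => (hpr p hp).pos
  have h1 : ((Icc 1 H).filter fun n => ∀ p ∈ primesIoc y z, ¬ p ∣ n) ⊆ (Ico 1 (1 + H)).filter fun n => M.Coprime n := by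
    intro n hn
    rw [mem_filter, mem_Icc] at hn
    rw [mem_filter, mem_Ico]
    refine ⟨by omega, ?_⟩
    exact Nat.Coprime.prod_left fun p hp => ((hpr p hp).coprime_iff_not_dvd).mpr (hn.2 p hp)
  have h2 := (card_le_card h1).trans (Nat.Ico_filter_coprime_le 1 H hM0.ne')
  have hpf : M.primeFactors = primesIoc y z := Nat.primeFactors_prod hpr
  have hphi : (Nat.totient M : ℝ) = M * ∏ p ∈ primesIoc y z, (1 - (p : ℝ)⁻¹) := by
    have := Nat.totient_eq_mul_prod_factors M
    rw [hpf] at this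
    have h3 := congrArg (fun q : ℚ => (q : ℝ)) this
    push_cast at h3
    exact h3
  have hprod : (∏ p ∈ primesIoc y z, (p : ℝ)) = M := by rw [hM]; push_cast; rfl
  have hle1 : Nat.totient M ≤ M := Nat.totient_le M
  have hMR : (0 : ℝ) < M := by exact_mod_cast hM0
  have hdiv : ((H / M : ℕ) : ℝ) ≤ H / M := Nat.cast_div_le
  calc (((Icc 1 H).filter fun n => ∀ p ∈ primesIoc y z, ¬ p ∣ n).card : ℝ) ≤ ((Nat.totient M * (H / M + 1) : ℕ) : ℝ) := by
        exact_mod_cast h2
    _ = Nat.totient M * ((H / M : ℕ) : ℝ) + Nat.totient M := by push_cast; ring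
    _ ≤ Nat.totient M * (H / M) + M := by
        have : (Nat.totient M : ℝ) ≤ M := by exact_mod_cast hle1
        have h0 : (0 : ℝ) ≤ Nat.totient M := Nat.cast_nonneg _
        nlinarith
    _ = (∏ p ∈ primesIoc y z, (1 - (p : ℝ)⁻¹)) * H + ∏ p ∈ primesIoc y z, (p : ℝ) := by
        rw [hphi, hprod]
        field_simp

/-- almost all triples satisfy a property implied by the existence of private primes -/
theorem density {Bad : (Fin 3 → ℕ) → Prop} [DecidablePred Bad] (P₀ : ℕ)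
    (hBad : ∀ a : Fin 3 → ℕ, (∀ i, 0 < a i) →
      (∀ i, ∃ p : ℕ, p.Prime ∧ P₀ < p ∧ p ∣ a i ∧ ¬ p ∣ a (i + 1) ∧ ¬ p ∣ a (i + 2)) → ¬ Bad a) :
    Tendsto (fun H : ℕ => (((Fintype.piFinset fun _ : Fin 3 => Icc 1 H).filter Bad).card : ℝ) / (H : ℝ) ^ 3)
      atTop (𝓝 0) := by
  classical
  rw [Metric.tendsto_atTop]
  intro ε hε
  -- the cut-offs
  obtain ⟨y, hy1, hy2⟩ : ∃ y : ℕ, P₀ ≤ y ∧ 24 / ε ≤ y := by
    obtain ⟨k, hk⟩ := exists_nat_ge (24 / ε)
    refine ⟨max P₀ k, le_max_left _ _, hk.trans ?_⟩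
    exact_mod_cast le_max_right _ _
  obtain ⟨z, hz⟩ := prod_small y (show (0 : ℝ) < ε / 12 by positivity)
  set Q : ℝ := ∏ p ∈ primesIoc y z, (p : ℝ) with hQ
  have hQ0 : 0 ≤ Q := prod_nonneg fun p _ => Nat.cast_nonneg _
  obtain ⟨H₀, hH₀⟩ := exists_nat_ge (12 * Q / ε)
  refine ⟨H₀ + 1, fun H hH => ?_⟩
  have hH1 : 1 ≤ H := by omega
  have hHpos : (0 : ℝ) < H := by exact_mod_cast hH1
  have hQH : Q ≤ ε / 12 * H := by
    have h1 : 12 * Q / ε ≤ H := hH₀.trans (by exact_mod_cast (by omega : H₀ ≤ H))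
    rw [div_le_iff₀ hε] at h1
    linarith
  set B := Icc 1 H with hB
  have hBcard : B.card = H := by rw [hB, Nat.card_Icc]; omega
  set E : Fin 3 → Finset (Fin 3 → ℕ) := fun i => Fintype.piFinset fun j =>
    if j = i then B.filter (fun n => ∀ p ∈ primesIoc y z, ¬ p ∣ n) else B with hE
  set G : ℕ → Fin 3 → Finset (Fin 3 → ℕ) := fun p i => Fintype.piFinset fun j =>
    if j = i + 2 then B else B.filter (fun n => p ∣ n) with hG
  -- covering
  have hcover : ((Fintype.piFinset fun _ : Fin 3 => B).filter Bad) ⊆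
      (univ.biUnion E) ∪ ((primesIoc y z).biUnion fun p => univ.biUnion (G p)) := by
    intro a ha
    rw [mem_filter, Fintype.mem_piFinset] at ha
    obtain ⟨haB, hab⟩ := ha
    by_contra hcon
    rw [mem_union, not_or] at hcon
    obtain ⟨h1, h2⟩ := hcon
    have h3 : ∀ i, ∃ p ∈ primesIoc y z, p ∣ a i := by
      intro i
      by_contra h4
      push Not at h4
      apply h1
      rw [mem_biUnion]
      refine ⟨i, mem_univ _, ?_⟩
      rw [hE, Fintype.mem_piFinset]
      intro j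
      by_cases hj : j = i
      · subst hj
        simp only [if_true, mem_filter]
        exact ⟨haB j, h4⟩
      · simp only [if_neg hj]
        exact haB j
    have h4 : ∀ p ∈ primesIoc y z, ∀ i, ¬ (p ∣ a i ∧ p ∣ a (i + 1)) := by
      rintro p hp i ⟨h5, h6⟩
      apply h2
      rw [mem_biUnion]
      refine ⟨p, hp, ?_⟩
      rw [mem_biUnion]
      refine ⟨i, mem_univ _, ?_⟩
      rw [hG, Fintype.mem_piFinset]
      intro j
      by_cases hj : j = i + 2
      · simp only [if_pos hj]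
        exact haB j
      · simp only [if_neg hj, mem_filter]
        refine ⟨haB j, ?_⟩
        have hj' : j = i ∨ j = i + 1 := by
          revert hj
          clear h5 h6
          revert i j
          decide
        rcases hj' with rfl | rfl
        · exact h5
        · exact h6
    refine hBad a (fun i => ?_) (fun i => ?_) hab
    · have := haB i
      rw [hB, mem_Icc] at this
      omega
    · obtain ⟨p, hp, hpi⟩ := h3 i
      have hp' := hp
      rw [primesIoc, mem_filter, mem_Ioc] at hp'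
      refine ⟨p, hp'.2, by omega, hpi, fun h => h4 p hp i ⟨hpi, h⟩, fun h => h4 p hp (i + 2) ⟨h, ?_⟩⟩
      have : i + 2 + 1 = i := by
        clear hpi h
        revert i
        decide
      rw [this]
      exact hpi
  -- the sizes
  have hEcard : ∀ i, ((E i).card : ℝ) ≤ (ε / 6) * (H : ℝ) ^ 3 := by
    intro i
    have h1 : (E i).card = (B.filter (fun n => ∀ p ∈ primesIoc y z, ¬ p ∣ n)).card * H ^ 2 := by
      rw [hE, Fintype.card_piFinset]
      have h2 : ∀ j : Fin 3, ((if j = i then B.filter (fun n => ∀ p ∈ primesIoc y z, ¬ p ∣ n) else B) : Finset ℕ).card =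
          if j = i then (B.filter (fun n => ∀ p ∈ primesIoc y z, ¬ p ∣ n)).card else H := by
        intro j
        split_ifs
        · rfl
        · exact hBcard
      rw [prod_congr rfl fun j _ => h2 j]
      fin_cases i <;> simp [Fin.prod_univ_three] <;> ring
    have h2 := card_coprime_le y z H
    rw [← hQ] at h2
    have h3 : ((B.filter (fun n => ∀ p ∈ primesIoc y z, ¬ p ∣ n)).card : ℝ) ≤ ε / 6 * H := by
      refine h2.trans ?_
      have := mul_le_mul_of_nonneg_right hz hHpos.le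
      linarith
    rw [h1]
    push_cast
    calc ((B.filter (fun n => ∀ p ∈ primesIoc y z, ¬ p ∣ n)).card : ℝ) * (H : ℝ) ^ 2 ≤ (ε / 6 * H) * (H : ℝ) ^ 2 :=
          mul_le_mul_of_nonneg_right h3 (by positivity)
      _ = (ε / 6) * (H : ℝ) ^ 3 := by ring
  have hGcard : ∀ p ∈ primesIoc y z, ∀ i, ((G p i).card : ℝ) ≤ (((p : ℝ) ^ 2)⁻¹) * (H : ℝ) ^ 3 := by
    intro p hp i
    have hp' := (mem_filter.mp hp).2
    have hm : (B.filter (fun n => p ∣ n)).card = H / p := by
      have : B.filter (fun n => p ∣ n) = (Ioc 0 H).filter (fun n => p ∣ n) := by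
        rw [hB]; rfl
      rw [this, Nat.Ioc_filter_dvd_card_eq_div]
    have h1 : (G p i).card = (H / p) ^ 2 * H := by
      rw [hG, Fintype.card_piFinset]
      have h2 : ∀ j : Fin 3, ((if j = i + 2 then B else B.filter (fun n => p ∣ n)) : Finset ℕ).card =
          if j = i + 2 then H else H / p := by
        intro j
        split_ifs
        · exact hBcard
        · exact hm
      rw [prod_congr rfl fun j _ => h2 j]
      fin_cases i <;> simp [Fin.prod_univ_three] <;> first | ring1 | (left; ring1)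
    have hdiv : ((H / p : ℕ) : ℝ) ≤ H / p := Nat.cast_div_le
    have hp0 : (0 : ℝ) < p := by exact_mod_cast hp'.pos
    rw [h1]
    push_cast
    calc ((H / p : ℕ) : ℝ) ^ 2 * (H : ℝ) ≤ ((H : ℝ) / p) ^ 2 * H := by gcongr
      _ = (((p : ℝ) ^ 2)⁻¹) * (H : ℝ) ^ 3 := by field_simp
  have hsumG : ∑ p ∈ primesIoc y z, ((p : ℝ) ^ 2)⁻¹ ≤ ε / 12 := by
    have h1 : ∑ p ∈ primesIoc y z, ((p : ℝ) ^ 2)⁻¹ ≤ ∑ p ∈ Ioo y (z + 1), ((p : ℝ) ^ 2)⁻¹ := by
      refine sum_le_sum_of_subset_of_nonneg ?_ ?_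
      · intro p hp
        rw [primesIoc, mem_filter, mem_Ioc] at hp
        rw [mem_Ioo]
        omega
      · intro p _ _
        positivity
    have h2 := sum_Ioo_inv_sq_le (α := ℝ) y (z + 1)
    have h3 : (2 : ℝ) / (y + 1) ≤ ε / 12 := by
      rw [div_le_iff₀ (by positivity)]
      rw [div_le_iff₀ hε] at hy2
      nlinarith
    linarith
  have htotal : (((Fintype.piFinset fun _ : Fin 3 => B).filter Bad).card : ℝ) ≤ (3 / 4 * ε) * (H : ℝ) ^ 3 := by
    have h1 : ((Fintype.piFinset fun _ : Fin 3 => B).filter Bad).card ≤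
        ∑ i, (E i).card + ∑ p ∈ primesIoc y z, ∑ i, (G p i).card := by
      refine (card_le_card hcover).trans ((card_union_le _ _).trans ?_)
      refine add_le_add card_biUnion_le ?_
      refine card_biUnion_le.trans (sum_le_sum fun p _ => card_biUnion_le)
    have h2 : (((Fintype.piFinset fun _ : Fin 3 => B).filter Bad).card : ℝ) ≤
        ∑ i, ((E i).card : ℝ) + ∑ p ∈ primesIoc y z, ∑ i, ((G p i).card : ℝ) := by
      exact_mod_cast h1
    have h3 : ∑ i, ((E i).card : ℝ) ≤ 3 * ((ε / 6) * (H : ℝ) ^ 3) := by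
      calc ∑ i, ((E i).card : ℝ) ≤ ∑ _i : Fin 3, ((ε / 6) * (H : ℝ) ^ 3) := sum_le_sum fun i _ => hEcard i
        _ = _ := by simp
    have h4 : ∑ p ∈ primesIoc y z, ∑ i, ((G p i).card : ℝ) ≤ 3 * ((ε / 12) * (H : ℝ) ^ 3) := by
      calc ∑ p ∈ primesIoc y z, ∑ i, ((G p i).card : ℝ) ≤
            ∑ p ∈ primesIoc y z, 3 * ((((p : ℝ) ^ 2)⁻¹) * (H : ℝ) ^ 3) := by
              refine sum_le_sum fun p hp => ?_
              calc ∑ i, ((G p i).card : ℝ) ≤ ∑ _i : Fin 3, ((((p : ℝ) ^ 2)⁻¹) * (H : ℝ) ^ 3) :=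
                    sum_le_sum fun i _ => hGcard p hp i
                _ = _ := by simp
        _ = 3 * ((∑ p ∈ primesIoc y z, ((p : ℝ) ^ 2)⁻¹) * (H : ℝ) ^ 3) := by
              rw [← mul_sum, sum_mul]
        _ ≤ 3 * ((ε / 12) * (H : ℝ) ^ 3) := by gcongr
    calc _ ≤ _ := h2
      _ ≤ 3 * ((ε / 6) * (H : ℝ) ^ 3) + 3 * ((ε / 12) * (H : ℝ) ^ 3) := add_le_add h3 h4
      _ = (3 / 4 * ε) * (H : ℝ) ^ 3 := by ring
  rw [Real.dist_eq, sub_zero, abs_of_nonneg (by positivity), div_lt_iff₀ (by positivity)]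
  calc _ ≤ (3 / 4 * ε) * (H : ℝ) ^ 3 := htotal
    _ < ε * (H : ℝ) ^ 3 := by
      have : (0 : ℝ) < (H : ℝ) ^ 3 := by positivity
      nlinarith

end Pool.Agent.ZP46
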