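import Mathlib
import Pool.Agent.Lib.ModularZP.Defs
import Pool.Agent.Lib.ModularZP.Pattern

/-!
Integrality patterns at three places exclude all special subvarieties of `Y(1)³` of codimension at
least two, and containment in proper special subvarieties.
-/

open Pool.Agent.Lib.ModularZP

namespace Pool.Agent.ZP46

theorem conclusion {C : Set (Fin 3 → ℂ)} {V : Fin 3 → ValuationSubring ℂ}
    (key : ∀ x ∈ C, ∀ a, (x a ∈ V a → x (a + 1) ∈ V a ∧ x (a + 2) ∉ V a) ∧ ¬ (x (a + 1) ∉ V a ∧ x (a + 2) ∉ V a))
    (pt : ∀ a, ∃ x ∈ C, x (a + 1) ∈ V a ∧ x (a + 2) ∉ V a) : HodgeGeneric C ∧ atyp C = ∅ := by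
  classical
  have hfin : ∀ a b : Fin 3, a ≠ b → ∃ c : Fin 3, (a = c + 1 ∧ b = c + 2) ∨ (a = c + 2 ∧ b = c + 1) := by decide
  have hfin6 : ∀ a : Fin 3, a + 1 + 2 = a := by decide
  refine ⟨?_, ?_⟩
  · intro m D hm hsub
    by_cases hnone : ∃ a, D.block a = none
    · obtain ⟨a, ha⟩ := hnone
      obtain ⟨x, hx, -, h2⟩ := pt (a + 1)
      obtain ⟨e, he⟩ := pattern D (hsub hx) (V (a + 1))
      rw [hfin6] at h2
      apply h2
      rw [he a, ha]
      trivial
    · push Not at hnone
      obtain ⟨a, b, hab, hf⟩ : ∃ a b, a ≠ b ∧ D.block a = D.block b := by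
        by_contra hcon
        push Not at hcon
        have hinj : Function.Injective (fun i : Fin 3 => (D.block i).get (Option.isSome_iff_ne_none.mpr (hnone i))) := by
          intro i j h
          simp only at h
          by_contra hne
          apply hcon i j hne
          rw [← Option.some_get (Option.isSome_iff_ne_none.mpr (hnone i)),
            ← Option.some_get (Option.isSome_iff_ne_none.mpr (hnone j)), h]
        have := Fintype.card_le_of_injective _ hinj
        simp at this
        omega
      have hmain : ∀ c, D.block (c + 1) = D.block (c + 2) → False := by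
        intro c hf
        obtain ⟨x, hx, h1, h2⟩ := pt c
        obtain ⟨e, he⟩ := pattern D (hsub hx) (V c)
        apply h2
        rw [he (c + 2), ← hf, ← he (c + 1)]
        exact h1
      obtain ⟨c, ⟨rfl, rfl⟩ | ⟨rfl, rfl⟩⟩ := hfin a b hab
      · exact hmain c hf
      · exact hmain c hf.symm
  · rw [Set.eq_empty_iff_forall_notMem]
    rintro x ⟨hx, m, D, hm, hxD⟩
    by_cases hnone : ∃ a, D.block a = none
    · obtain ⟨a, ha⟩ := hnone
      have hint : ∀ a, D.block a = none → ∀ c, x a ∈ V c := by
        intro a ha c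
        obtain ⟨e, he⟩ := pattern D hxD (V c)
        rw [he a, ha]
        trivial
      obtain ⟨h1, h2⟩ := (key x hx a).1 (hint a ha a)
      have h3 : D.block (a + 2) ≠ none := fun h => h2 (hint _ h a)
      by_cases h4 : D.block (a + 1) = none
      · have h5 := ((key x hx (a + 1)).1 (hint _ h4 _)).2
        rw [hfin6] at h5
        exact h5 (hint a ha _)
      · -- both in the unique block
        have h6 : D.block (a + 2) = D.block (a + 1) := by
          obtain ⟨k, hk⟩ := Option.ne_none_iff_exists'.mp h3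
          obtain ⟨k', hk'⟩ := Option.ne_none_iff_exists'.mp h4
          rw [hk, hk']
          have : k = k' := Fin.ext (by have := k.2; have := k'.2; omega)
          rw [this]
        obtain ⟨e, he⟩ := pattern D hxD (V a)
        apply h2
        rw [he (a + 2), h6, ← he (a + 1)]
        exact h1
    · push Not at hnone
      have hall : ∀ a b, D.block a = D.block b := by
        intro a b
        obtain ⟨k, hk⟩ := Option.ne_none_iff_exists'.mp (hnone a)
        obtain ⟨k', hk'⟩ := Option.ne_none_iff_exists'.mp (hnone b)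
        rw [hk, hk']
        have : k = k' := Fin.ext (by have := k.2; have := k'.2; omega)
        rw [this]
      obtain ⟨e, he⟩ := pattern D hxD (V 0)
      have h01 : x 0 ∈ V 0 ↔ x 1 ∈ V 0 := by rw [he 0, he 1, hall 0 1]
      have h02 : x 0 ∈ V 0 ↔ x 2 ∈ V 0 := by rw [he 0, he 2, hall 0 2]
      obtain ⟨k1, k2⟩ := key x hx 0
      have k1' : x 0 ∈ V 0 → x 1 ∈ V 0 ∧ x 2 ∉ V 0 := k1
      have k2' : ¬ (x 1 ∉ V 0 ∧ x 2 ∉ V 0) := k2
      by_cases h : x 0 ∈ V 0
      · exact (k1' h).2 (h02.mp h)
      · exact k2' ⟨fun h' => h (h01.mpr h'), fun h' => h (h02.mpr h')⟩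

end Pool.Agent.ZP46
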