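import Mathlib
import Pool.Agent.Lib.ModularZP.Defs
import Pool.Agent.Lib.ModularZP.Pattern

open Pool.Agent.Lib.ModularZP

namespace Pool.Agent.ZP46.OldExplicitCurves

/-- The curve `t ↦ (l₀ t, l₁ (t - 1) / t, l₂ / (1 - t))` in `Y(1)³ = ℂ³`. -/
def curve (l : Fin 3 → ℚ) : Set (Fin 3 → ℂ) :=
  {x | ∃ t : ℂ, t ≠ 0 ∧ t ≠ 1 ∧ x 0 = l 0 * t ∧ x 1 = l 1 * ((t - 1) / t) ∧ x 2 = l 2 * (1 / (1 - t))}

section val

variable {V : ValuationSubring ℂ}

lemma val_int_unit {p : ℕ} (hp : p.Prime) (hV : V.valuation (p : ℂ) < 1) {z : ℤ} (hz : ¬ (p : ℤ) ∣ z) :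
    V.valuation (z : ℂ) = 1 := by
  have hco : IsCoprime (z : ℤ) (p : ℤ) := by
    rw [isCoprime_comm]
    exact (Prime.coprime_iff_not_dvd (Nat.prime_iff_prime_int.mp hp)).mpr hz
  obtain ⟨a, b, hab⟩ := hco
  have h1 : V.valuation (z : ℂ) ≤ 1 := (V.valuation_le_one_iff _).mpr (intCast_mem V z)
  refine le_antisymm h1 ?_
  by_contra hlt
  push Not at hlt
  have h2 : ((a : ℂ)) * (z : ℂ) + (b : ℂ) * (p : ℂ) = 1 := by exact_mod_cast hab
  have hmul : ∀ (c : ℤ) (y : ℂ), V.valuation y < 1 → V.valuation ((c : ℂ) * y) < 1 := by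
    intro c y hy
    rw [map_mul]
    calc V.valuation (c : ℂ) * V.valuation y ≤ 1 * V.valuation y :=
          mul_le_mul_left ((V.valuation_le_one_iff _).mpr (intCast_mem V c)) _
      _ < 1 := by rwa [one_mul]
  have h3 := V.valuation.map_add_lt (hmul a _ hlt) (hmul b _ hV)
  rw [h2, map_one] at h3
  exact lt_irrefl _ h3

lemma val_rat_unit {p : ℕ} (hp : p.Prime) (hV : V.valuation (p : ℂ) < 1) {r : ℚ} (h1 : ¬ (p : ℤ) ∣ r.num)
    (h2 : ¬ p ∣ r.den) : V.valuation (r : ℂ) = 1 := by
  have h3 : (r : ℂ) = (r.num : ℂ) / ((r.den : ℤ) : ℂ) := by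
    have := Rat.cast_def (K := ℂ) r
    rw [this]; simp
  rw [h3, map_div₀, val_int_unit hp hV h1, val_int_unit hp hV (by exact_mod_cast h2), div_one]

lemma val_rat_big {p : ℕ} (hp : p.Prime) (hV : V.valuation (p : ℂ) < 1) {r : ℚ} (h2 : p ∣ r.den) :
    1 < V.valuation (r : ℂ) := by
  have h1 : ¬ (p : ℤ) ∣ r.num := by
    intro h
    have h4 : p ∣ r.num.natAbs := Int.natCast_dvd.mp h
    have := Nat.dvd_gcd h4 h2
    rw [r.reduced.gcd_eq_one] at this
    exact hp.one_lt.ne' (Nat.dvd_one.mp this)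
  have h3 : (r : ℂ) = (r.num : ℂ) / ((r.den : ℕ) : ℂ) := Rat.cast_def r
  obtain ⟨k, hk⟩ := h2
  have hd0 : ((r.den : ℕ) : ℂ) ≠ 0 := by exact_mod_cast r.den_ne_zero
  have h5 : V.valuation ((r.den : ℕ) : ℂ) < 1 := by
    rw [hk]
    push_cast
    rw [map_mul]
    calc V.valuation (p : ℂ) * V.valuation (k : ℂ) ≤ V.valuation (p : ℂ) * 1 :=
          mul_le_mul_right ((V.valuation_le_one_iff _).mpr (natCast_mem V k)) _
      _ < 1 := by rwa [mul_one]
  rw [h3, map_div₀, val_int_unit hp hV h1, one_div]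
  exact (one_lt_inv₀ (zero_lt_iff.mpr (by rwa [Ne, map_eq_zero]))).mpr h5

/-- the possible integrality patterns at a prime in the denominator of one coefficient only -/
lemma local_pattern {la lb lc s : ℂ} (ha : 1 < V.valuation la) (hb : V.valuation lb = 1)
    (hc : V.valuation lc = 1) (hs0 : s ≠ 0) (hs1 : s ≠ 1) :
    (la * s ∈ V → (lb * ((s - 1) / s) ∉ V ∧ lc * (1 / (1 - s)) ∈ V)) ∧
    ¬ (lb * ((s - 1) / s) ∉ V ∧ lc * (1 / (1 - s)) ∉ V) := by
  have hla : V.valuation la ≠ 0 := (zero_lt_one.trans ha).ne'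
  have hvs : V.valuation s ≠ 0 := by rwa [Ne, map_eq_zero]
  have hv1 : V.valuation (1 - s) ≠ 0 := by
    rw [Ne, map_eq_zero, sub_eq_zero]; exact fun h => hs1 h.symm
  have hsw : V.valuation (s - 1) = V.valuation (1 - s) := Valuation.map_sub_swap _ _ _
  have e1 : V.valuation (lb * ((s - 1) / s)) = V.valuation (1 - s) / V.valuation s := by
    rw [map_mul, map_div₀, hb, one_mul, hsw]
  have e2 : V.valuation (lc * (1 / (1 - s))) = (V.valuation (1 - s))⁻¹ := by
    rw [map_mul, map_div₀, hc, one_mul, map_one, one_div]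
  constructor
  · intro h
    have h1 : V.valuation la * V.valuation s ≤ 1 := by
      rw [← map_mul]; exact (V.valuation_le_one_iff _).mpr h
    have h2 : V.valuation s < 1 := by
      by_contra h3
      push Not at h3
      have : V.valuation la * 1 ≤ V.valuation la * V.valuation s := mul_le_mul_right h3 _
      rw [mul_one] at this
      exact absurd (ha.trans_le this) (not_lt.mpr h1)
    have h3 : V.valuation (1 - s) = 1 := V.valuation.map_one_sub_of_lt h2
    rw [← V.valuation_le_one_iff, ← V.valuation_le_one_iff, e1, e2, h3]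
    refine ⟨?_, by simp⟩
    rw [one_div, not_le]
    exact (one_lt_inv₀ (zero_lt_iff.mpr hvs)).mpr h2
  · rintro ⟨h1, h2⟩
    rw [← V.valuation_le_one_iff, e1, not_le] at h1
    rw [← V.valuation_le_one_iff, e2, not_le] at h2
    have h3 : V.valuation (1 - s) < 1 := (one_lt_inv₀ (zero_lt_iff.mpr hv1)).mp h2
    have h4 : V.valuation s = 1 := by
      have := V.valuation.map_one_sub_of_lt h3
      rwa [sub_sub_cancel] at this
    rw [h4, div_one] at h1
    exact absurd h3 (not_lt.mpr h1.le)

end val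

/-- the statement of the local conditions at the three primes -/
lemma patterns {l : Fin 3 → ℚ} {V : Fin 3 → ValuationSubring ℂ} (hbig : ∀ a, 1 < (V a).valuation (l a : ℂ))
    (hunit : ∀ a b, b ≠ a → (V a).valuation (l b : ℂ) = 1) {x : Fin 3 → ℂ} (hx : x ∈ curve l) (a : Fin 3) :
    (x a ∈ V a → x (a + 1) ∉ V a ∧ x (a + 2) ∈ V a) ∧ ¬ (x (a + 1) ∉ V a ∧ x (a + 2) ∉ V a) := by
  obtain ⟨t, ht0, ht1, h0, h1, h2⟩ := hx
  have ht1' : 1 - t ≠ 0 := sub_ne_zero.mpr (Ne.symm ht1)
  have ht1'' : t - 1 ≠ 0 := sub_ne_zero.mpr ht1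
  fin_cases a
  · have := local_pattern (s := t) (hbig 0) (hunit 0 1 (by decide)) (hunit 0 2 (by decide)) ht0 ht1
    rw [← h0, ← h1, ← h2] at this
    exact this
  · have := local_pattern (s := (t - 1) / t) (hbig 1) (hunit 1 2 (by decide)) (hunit 1 0 (by decide))
      (div_ne_zero ht1'' ht0) (fun h => by rw [div_eq_one_iff_eq ht0] at h; simp at h)
    have e1 : (l 2 : ℂ) * (((t - 1) / t - 1) / ((t - 1) / t)) = x 2 := by
      rw [h2]
      congr 1
      field_simp
      ring
    have e2 : (l 0 : ℂ) * (1 / (1 - (t - 1) / t)) = x 0 := by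
      rw [h0]
      congr 1
      field_simp
      ring
    rw [← h1, e1, e2] at this
    exact this
  · have := local_pattern (s := 1 / (1 - t)) (hbig 2) (hunit 2 0 (by decide)) (hunit 2 1 (by decide))
      (one_div_ne_zero ht1') (fun h => by
        rw [div_eq_one_iff_eq ht1'] at h
        apply ht0
        linear_combination h)
    have e1 : (l 0 : ℂ) * ((1 / (1 - t) - 1) / (1 / (1 - t))) = x 0 := by
      rw [h0]
      congr 1
      field_simp
      ring
    have e2 : (l 1 : ℂ) * (1 / (1 - 1 / (1 - t))) = x 1 := by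
      rw [h1]
      congr 1
      have h5 : 1 - 1 / (1 - t) = -t / (1 - t) := by field_simp; ring
      rw [h5]
      field_simp
      ring
    rw [← h2, e1, e2] at this
    exact this

/-- **Explicit curves in `Y(1)³` satisfying Zilber–Pink.** -/
theorem result (l : Fin 3 → ℚ)
    (hl : ∀ a, ∃ p : ℕ, p.Prime ∧ p ∣ (l a).den ∧ ∀ b, b ≠ a → ¬ (p : ℤ) ∣ (l b).num ∧ ¬ p ∣ (l b).den) :
    HodgeGeneric (curve l) ∧ atyp (curve l) = ∅ := by
  choose p hp hpa hpb using hl
  choose V hV using fun a => exists_valuationSubring (p a) (hp a)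
  have hVp : ∀ a, (V a).valuation (p a : ℂ) < 1 := by
    intro a
    rw [← not_le]
    intro h
    apply hV a
    rw [← ValuationSubring.valuation_le_one_iff, map_inv₀]
    exact inv_le_one_of_one_le₀ h
  have hbig : ∀ a, 1 < (V a).valuation (l a : ℂ) := fun a => val_rat_big (hp a) (hVp a) (hpa a)
  have hunit : ∀ a b, b ≠ a → (V a).valuation (l b : ℂ) = 1 := fun a b hab =>
    val_rat_unit (hp a) (hVp a) (hpb a b hab).1 (hpb a b hab).2
  have key := fun {x} (hx : x ∈ curve l) a => patterns hbig hunit hx a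
  have hl0 : ∀ a, (l a : ℂ) ≠ 0 := by
    intro a h
    have := hbig a
    rw [h, map_zero] at this
    exact not_lt_zero this
  -- the arithmetic of `Fin 3`
  have hfin : ∀ a b : Fin 3, a ≠ b → b = a + 1 ∨ a = b + 1 := by decide
  have hfin2 : ∀ a : Fin 3, a + 2 + 1 = a := by decide
  refine ⟨?_, ?_⟩
  · intro m D hm hsub
    by_cases hnone : ∃ a, D.block a = none
    · obtain ⟨a, ha⟩ := hnone
      -- the coordinate is constant
      have hconst : ∀ x ∈ curve l, x a = jInv (D.cm a) := by
        intro x hx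
        obtain ⟨τ, hτ⟩ := hsub hx
        rw [hτ a]
        unfold SpecialDatum.coord
        rw [ha]
      have hpt : ∀ t : ℂ, t ≠ 0 → t ≠ 1 → (![l 0 * t, l 1 * ((t - 1) / t), l 2 * (1 / (1 - t))] : Fin 3 → ℂ) ∈ curve l :=
        fun t h0 h1 => ⟨t, h0, h1, rfl, rfl, rfl⟩
      have h2 := hconst _ (hpt 2 (by norm_num) (by norm_num))
      have h3 := hconst _ (hpt 3 (by norm_num) (by norm_num))
      rw [← h2] at h3
      have e0 := hl0 0
      have e1 := hl0 1
      have e2 := hl0 2
      fin_cases a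
      · simp only [Fin.zero_eta, Matrix.cons_val_zero] at h3
        have := mul_left_cancel₀ e0 h3
        norm_num at this
      · simp only [Fin.mk_one, Matrix.cons_val_one, Matrix.cons_val_zero] at h3
        have := mul_left_cancel₀ e1 h3
        norm_num at this
      · simp only [Fin.reduceFinMk, Matrix.cons_val] at h3
        have := mul_left_cancel₀ e2 h3
        norm_num at this
    · push Not at hnone
      obtain ⟨a, b, hab, hf⟩ : ∃ a b, a ≠ b ∧ D.block a = D.block b := by
        by_contra hcon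
        push Not at hcon
        have hinj : Function.Injective (fun i : Fin 3 => (D.block i).get (Option.isSome_iff_ne_none.mpr (hnone i))) := by
          intro i j h
          simp only at h
          by_contra hne
          apply hcon i j hne
          rw [← Option.some_get (Option.isSome_iff_ne_none.mpr (hnone i)),
            ← Option.some_get (Option.isSome_iff_ne_none.mpr (hnone j)), h]
        have := Fintype.card_le_of_injective _ hinj
        simp at this
        omega
      -- points with an integral coordinate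
      have hpoint : ∀ a, ∃ x ∈ curve l, x a ∈ V a := by
        intro a
        have h1 : (l a : ℂ)⁻¹ ≠ 0 := inv_ne_zero (hl0 a)
        have h2 : (l a : ℂ)⁻¹ ≠ 1 := by
          intro h
          have := hbig a
          rw [inv_eq_one.mp h, map_one] at this
          exact lt_irrefl _ this
        set s := (l a : ℂ)⁻¹ with hs
        have h3 : 1 - s ≠ 0 := sub_ne_zero.mpr (Ne.symm h2)
        have h4 : s - 1 ≠ 0 := sub_ne_zero.mpr h2
        have h5 : (l a : ℂ) * s = 1 := mul_inv_cancel₀ (hl0 a)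
        fin_cases a
        · refine ⟨![l 0 * s, l 1 * ((s - 1) / s), l 2 * (1 / (1 - s))], ⟨s, h1, h2, rfl, rfl, rfl⟩, ?_⟩
          show (l 0 : ℂ) * s ∈ _
          rw [show (l 0 : ℂ) * s = 1 from h5]
          exact (V _).one_mem
        · -- `(t - 1) / t = s`
          have h6 : (1 / (1 - s) - 1) / (1 / (1 - s)) = s := by field_simp; ring
          refine ⟨![l 0 * (1 / (1 - s)), l 1 * ((1 / (1 - s) - 1) / (1 / (1 - s))), l 2 * (1 / (1 - (1 / (1 - s))))],
            ⟨1 / (1 - s), one_div_ne_zero h3, fun h => ?_, rfl, rfl, rfl⟩, ?_⟩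
          · rw [div_eq_one_iff_eq h3] at h
            apply h1
            linear_combination h
          · show (l 1 : ℂ) * ((1 / (1 - s) - 1) / (1 / (1 - s))) ∈ _
            rw [h6, show (l 1 : ℂ) * s = 1 from h5]
            exact (V _).one_mem
        · -- `1 / (1 - t) = s`
          have h6 : 1 / (1 - (s - 1) / s) = s := by field_simp; ring
          refine ⟨![l 0 * ((s - 1) / s), l 1 * (((s - 1) / s - 1) / ((s - 1) / s)), l 2 * (1 / (1 - (s - 1) / s))],
            ⟨(s - 1) / s, div_ne_zero h4 h1, fun h => ?_, rfl, rfl, rfl⟩, ?_⟩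
          · rw [div_eq_one_iff_eq h1] at h
            simp at h
          · show (l 2 : ℂ) * (1 / (1 - (s - 1) / s)) ∈ _
            rw [h6, show (l 2 : ℂ) * s = 1 from h5]
            exact (V _).one_mem
      have hmain : ∀ a b, b = a + 1 → D.block a = D.block b → False := by
        rintro a _ rfl hf
        obtain ⟨x, hx, hxa⟩ := hpoint a
        obtain ⟨e, he⟩ := pattern D (hsub hx) (V a)
        have h1 := ((key hx a).1 hxa).1
        apply h1
        rw [he (a + 1), ← hf, ← he a]
        exact hxa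
      rcases hfin a b hab with h | h
      · exact hmain a b h hf
      · exact hmain b a h hf.symm
  · rw [Set.eq_empty_iff_forall_notMem]
    rintro x ⟨hx, m, D, hm, hxD⟩
    by_cases hnone : ∃ a, D.block a = none
    · obtain ⟨a, ha⟩ := hnone
      have hint : ∀ a, D.block a = none → ∀ c, x a ∈ V c := by
        intro a ha c
        obtain ⟨e, he⟩ := pattern D hxD (V c)
        rw [he a, ha]
        trivial
      obtain ⟨h1, h2⟩ := (key hx a).1 (hint a ha a)
      have h3 : D.block (a + 1) ≠ none := fun h => h1 (hint _ h a)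
      by_cases h4 : D.block (a + 2) = none
      · have h5 := ((key hx (a + 2)).1 (hint _ h4 _)).1
        rw [hfin2] at h5
        exact h5 (hint a ha _)
      · -- both in the unique block
        have h6 : D.block (a + 1) = D.block (a + 2) := by
          obtain ⟨k, hk⟩ := Option.ne_none_iff_exists'.mp h3
          obtain ⟨k', hk'⟩ := Option.ne_none_iff_exists'.mp h4
          rw [hk, hk']
          have : k = k' := Fin.ext (by have := k.2; have := k'.2; omega)
          rw [this]
        obtain ⟨e, he⟩ := pattern D hxD (V a)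
        apply h1
        rw [he (a + 1), h6, ← he (a + 2)]
        exact h2
    · push Not at hnone
      have hall : ∀ a b, D.block a = D.block b := by
        intro a b
        obtain ⟨k, hk⟩ := Option.ne_none_iff_exists'.mp (hnone a)
        obtain ⟨k', hk'⟩ := Option.ne_none_iff_exists'.mp (hnone b)
        rw [hk, hk']
        have : k = k' := Fin.ext (by have := k.2; have := k'.2; omega)
        rw [this]
      obtain ⟨e, he⟩ := pattern D hxD (V 0)
      have h01 : x 0 ∈ V 0 ↔ x 1 ∈ V 0 := by rw [he 0, he 1, hall 0 1]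
      have h02 : x 0 ∈ V 0 ↔ x 2 ∈ V 0 := by rw [he 0, he 2, hall 0 2]
      obtain ⟨k1, k2⟩ := key hx 0
      have k1' : x 0 ∈ V 0 → x 1 ∉ V 0 ∧ x 2 ∈ V 0 := k1
      have k2' : ¬ (x 1 ∉ V 0 ∧ x 2 ∉ V 0) := k2
      by_cases h : x 0 ∈ V 0
      · exact (k1' h).1 (h01.mp h)
      · exact k2' ⟨fun h' => h (h01.mpr h'), fun h' => h (h02.mpr h')⟩

end Pool.Agent.ZP46.OldExplicitCurves
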