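import Mathlib
import Pool.Agent.Lib.ModularZP.Defs
import Pool.Agent.Lib.ModularZP.RatCurve
import Pool.Agent.Lib.ModularZP.Pattern

open Pool.Agent.Lib.ModularZP

namespace Pool.Agent.Results.MP_e573c6_ag.RationalCurves

/-! ### binary forms -/

lemma binForm_smul (d : ℕ) (a : Fin (d + 1) → ℂ) (c s t : ℂ) :
    binForm d a (c * s) (c * t) = c ^ d * binForm d a s t := by
  unfold binForm
  rw [Finset.mul_sum]
  refine Finset.sum_congr rfl fun k _ => ?_
  have hk : (k : ℕ) ≤ d := Nat.lt_succ_iff.mp k.2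
  rw [mul_pow, mul_pow]
  have : c ^ d = c ^ (d - (k : ℕ)) * c ^ (k : ℕ) := by rw [← pow_add, Nat.sub_add_cancel hk]
  rw [this]; ring

lemma binForm_add (d : ℕ) (a b : Fin (d + 1) → ℂ) (s t : ℂ) :
    binForm d (fun k => a k + b k) s t = binForm d a s t + binForm d b s t := by
  unfold binForm
  rw [← Finset.sum_add_distrib]
  refine Finset.sum_congr rfl fun k _ => ?_
  ring

lemma binForm_const_mul (d : ℕ) (c : ℂ) (b : Fin (d + 1) → ℂ) (s t : ℂ) :
    binForm d (fun k => c * b k) s t = c * binForm d b s t := by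
  unfold binForm
  rw [Finset.mul_sum]
  refine Finset.sum_congr rfl fun k _ => ?_
  ring

/-- coefficient vector of `t^d` -/
def eT (d : ℕ) : Fin (d + 1) → ℕ := fun k => if (k : ℕ) = d then 1 else 0
/-- coefficient vector of `s^d` -/
def eS (d : ℕ) : Fin (d + 1) → ℕ := fun k => if (k : ℕ) = 0 then 1 else 0

lemma binForm_eT (d : ℕ) (s t : ℂ) : binForm d (fun k => (eT d k : ℂ)) s t = t ^ d := by
  unfold binForm eT
  rw [Finset.sum_eq_single (Fin.last d)]
  · simp
  · intro k _ hk
    have : (k : ℕ) ≠ d := fun h => hk (Fin.ext h)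
    simp [this]
  · simp

lemma binForm_eS (d : ℕ) (s t : ℂ) : binForm d (fun k => (eS d k : ℂ)) s t = s ^ d := by
  unfold binForm eS
  rw [Finset.sum_eq_single 0]
  · simp
  · intro k _ hk
    have : (k : ℕ) ≠ 0 := fun h => hk (Fin.ext h)
    simp [this]
  · simp

lemma binForm_mem (V : ValuationSubring ℂ) (d : ℕ) (a : Fin (d + 1) → ℂ) (ha : ∀ k, a k ∈ V)
    {s t : ℂ} (hs : s ∈ V) (ht : t ∈ V) : binForm d a s t ∈ V := by
  unfold binForm
  exact sum_mem fun k _ => mul_mem (mul_mem (ha k) (pow_mem hs _)) (pow_mem ht _)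

/-! ### valuations -/

section val

variable {V : ValuationSubring ℂ}

lemma val_le {x : ℂ} (hx : x ∈ V) : V.valuation x ≤ 1 := (V.valuation_le_one_iff x).mpr hx

lemma val_p {p : ℕ} (hp : ((p : ℂ))⁻¹ ∉ V) : V.valuation (p : ℂ) < 1 := by
  by_contra h
  push Not at h
  apply hp
  rw [← V.valuation_le_one_iff, map_inv₀]
  exact inv_le_one_of_one_le₀ h

lemma natCast_mem' (k : ℕ) : (k : ℂ) ∈ V := natCast_mem V k

lemma val_p_mul {p : ℕ} (hp : ((p : ℂ))⁻¹ ∉ V) {x : ℂ} (hx : x ∈ V) : V.valuation ((p : ℂ) * x) < 1 := by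
  rw [map_mul]
  exact mul_lt_one_of_nonneg_of_lt_one_left zero_le (val_p hp) (val_le hx)

lemma quot_mem {P Q : ℂ} (hP : V.valuation P ≤ 1) (hQ : V.valuation Q = 1) : P / Q ∈ V := by
  rw [← V.valuation_le_one_iff, map_div₀, hQ, div_one]
  exact hP

lemma quot_notMem {P Q : ℂ} (hP : V.valuation P = 1) (hQ : V.valuation Q < 1) (hQ0 : Q ≠ 0) :
    P / Q ∉ V := by
  rw [← V.valuation_le_one_iff, map_div₀, hP, not_le, one_div]
  exact (one_lt_inv₀ (by rw [zero_lt_iff]; exact (Valuation.ne_zero_iff _).mpr hQ0)).mpr hQ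

/-- value of the form `X^d + p·(integral)` -/
lemma val_form_unit {p : ℕ} (hp : ((p : ℂ))⁻¹ ∉ V) {X w : ℂ} {d : ℕ} (hX : V.valuation X = 1) (hw : w ∈ V) :
    V.valuation (X ^ d + p * w) = 1 := by
  have h1 : V.valuation (X ^ d) = 1 := by rw [map_pow, hX, one_pow]
  rw [Valuation.map_add_eq_of_lt_left _ (by rw [h1]; exact val_p_mul hp hw), h1]

lemma val_form_lt {p : ℕ} (hp : ((p : ℂ))⁻¹ ∉ V) {X w : ℂ} {d : ℕ} (hd : 1 ≤ d) (hX : V.valuation X < 1) (hw : w ∈ V) :
    V.valuation (X ^ d + p * w) < 1 := by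
  refine Valuation.map_add_lt _ ?_ (val_p_mul hp hw)
  rw [map_pow]
  exact pow_lt_one₀ zero_le hX (by omega)

lemma val_form_le {p : ℕ} (hp : ((p : ℂ))⁻¹ ∉ V) {X w : ℂ} {d : ℕ} (hX : V.valuation X ≤ 1) (hw : w ∈ V) :
    V.valuation (X ^ d + p * w) ≤ 1 := by
  refine Valuation.map_add_le _ ?_ (val_p_mul hp hw).le
  rw [map_pow]
  exact pow_le_one₀ zero_le hX

end val

/-! ### the local model at one prime -/

/-- target numerator coefficients at the prime attached to the pair `(α, γ)` -/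
def tP {n : ℕ} (q : Fin n × Fin n) (d : ℕ) (i : Fin n) : Fin (d + 1) → ℕ :=
  if i = q.2 then eS d else eT d

/-- target denominator coefficients at the prime `p` attached to the pair `(α, γ)` -/
def tQ {n : ℕ} (q : Fin n × Fin n) (p : ℕ) (d : ℕ) (i : Fin n) : Fin (d + 1) → ℕ :=
  if i = q.2 then eT d else if i = q.1 then fun k => p * eS d k else eS d

section model

variable {n : ℕ} {d : Fin n → ℕ} (hd : ∀ i, 1 ≤ d i) {a b : (i : Fin n) → Fin (d i + 1) → ℂ}
  {q : Fin n × Fin n} (hq : q.1 ≠ q.2) {p : ℕ} {V : ValuationSubring ℂ} (hp : ((p : ℂ))⁻¹ ∉ V)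
  (hab : ∀ i k, ∃ z w : ℂ, z ∈ V ∧ w ∈ V ∧ a i k = tP q (d i) i k + p ^ 2 * z ∧
    b i k = tQ q p (d i) i k + p ^ 2 * w)

include hab in
lemma forms (i : Fin n) {s t : ℂ} (hs : s ∈ V) (ht : t ∈ V) : ∃ A B : ℂ, A ∈ V ∧ B ∈ V ∧
    (binForm (d i) (a i) s t = (if i = q.2 then s ^ (d i) else t ^ (d i)) + p * A) ∧
    (binForm (d i) (b i) s t = (if i = q.2 then t ^ (d i) + p * B else
      if i = q.1 then p * s ^ (d i) + p ^ 2 * B else s ^ (d i) + p * B)) := by
  choose z w hz hw haz hbw using hab i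
  have hA : binForm (d i) z s t ∈ V := binForm_mem V _ _ hz hs ht
  have hB : binForm (d i) w s t ∈ V := binForm_mem V _ _ hw hs ht
  have hp' : (p : ℂ) ∈ V := natCast_mem' p
  have e1 : binForm (d i) (a i) s t = binForm (d i) (fun k => (tP q (d i) i k : ℂ)) s t + p ^ 2 * binForm (d i) z s t := by
    rw [← binForm_const_mul, ← binForm_add]
    congr 1
    funext k
    exact haz k
  have e2 : binForm (d i) (b i) s t = binForm (d i) (fun k => (tQ q p (d i) i k : ℂ)) s t + p ^ 2 * binForm (d i) w s t := by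
    rw [← binForm_const_mul, ← binForm_add]
    congr 1
    funext k
    exact hbw k
  have e3 : binForm (d i) (fun k => (tP q (d i) i k : ℂ)) s t = if i = q.2 then s ^ (d i) else t ^ (d i) := by
    unfold tP
    split_ifs
    · exact binForm_eS _ _ _
    · exact binForm_eT _ _ _
  by_cases h2 : i = q.2
  · refine ⟨p * binForm (d i) z s t, p * binForm (d i) w s t, mul_mem hp' hA, mul_mem hp' hB, ?_, ?_⟩
    · rw [e1, e3]; ring
    · rw [e2, if_pos h2]
      unfold tQ
      simp only [if_pos h2]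
      rw [binForm_eT]; ring
  · by_cases h1 : i = q.1
    · refine ⟨p * binForm (d i) z s t, binForm (d i) w s t, mul_mem hp' hA, hB, ?_, ?_⟩
      · rw [e1, e3]; ring
      · rw [e2, if_neg h2, if_pos h1]
        unfold tQ
        simp only [if_neg h2, if_pos h1]
        have : binForm (d i) (fun k => ((p * eS (d i) k : ℕ) : ℂ)) s t = p * s ^ (d i) := by
          rw [← binForm_eS, ← binForm_const_mul]
          congr 1
          funext k
          push_cast
          rfl
        rw [this]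
    · refine ⟨p * binForm (d i) z s t, p * binForm (d i) w s t, mul_mem hp' hA, mul_mem hp' hB, ?_, ?_⟩
      · rw [e1, e3]; ring
      · rw [e2, if_neg h2, if_neg h1]
        unfold tQ
        simp only [if_neg h2, if_neg h1]
        rw [binForm_eS]; ring

include hd hp hab in
/-- region `|s| < 1 = |t|` -/
lemma region1 {s t : ℂ} (hs : V.valuation s < 1) (ht : V.valuation t = 1)
    (hQ : ∀ i, binForm (d i) (b i) s t ≠ 0) :
    (∀ i, i ≠ q.2 → binForm (d i) (a i) s t / binForm (d i) (b i) s t ∉ V) ∧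
    binForm (d q.2) (a q.2) s t / binForm (d q.2) (b q.2) s t ∈ V := by
  have hs' : s ∈ V := (V.valuation_le_one_iff s).mp hs.le
  have ht' : t ∈ V := (V.valuation_le_one_iff t).mp ht.le
  refine ⟨fun i hi => ?_, ?_⟩
  · obtain ⟨A, B, hA, hB, h1, h2⟩ := forms hab i hs' ht'
    rw [if_neg hi] at h1
    rw [if_neg hi] at h2
    refine quot_notMem ?_ ?_ (hQ i)
    · rw [h1]; exact val_form_unit hp ht hA
    · rw [h2]
      split_ifs
      · have : (p : ℂ) * s ^ (d i) + p ^ 2 * B = p * (s ^ (d i) + p * B) := by ring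
        rw [this]
        exact val_p_mul hp (add_mem (pow_mem hs' _) (mul_mem (natCast_mem' p) hB))
      · exact val_form_lt hp (hd i) hs hB
  · obtain ⟨A, B, hA, hB, h1, h2⟩ := forms hab q.2 hs' ht'
    rw [if_pos rfl] at h1
    rw [if_pos rfl] at h2
    refine quot_mem ?_ ?_
    · rw [h1]; exact val_form_le hp hs.le hA
    · rw [h2]; exact val_form_unit hp ht hB

include hq hp hab in
/-- region `|s| = |t| = 1` -/
lemma region2 {s t : ℂ} (hs : V.valuation s = 1) (ht : V.valuation t = 1)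
    (hQ : ∀ i, binForm (d i) (b i) s t ≠ 0) :
    (∀ i, i ≠ q.1 → binForm (d i) (a i) s t / binForm (d i) (b i) s t ∈ V) ∧
    binForm (d q.1) (a q.1) s t / binForm (d q.1) (b q.1) s t ∉ V := by
  have hs' : s ∈ V := (V.valuation_le_one_iff s).mp hs.le
  have ht' : t ∈ V := (V.valuation_le_one_iff t).mp ht.le
  refine ⟨fun i hi => ?_, ?_⟩
  · obtain ⟨A, B, hA, hB, h1, h2⟩ := forms hab i hs' ht'
    refine quot_mem ?_ ?_
    · rw [h1]
      split_ifs
      · exact val_form_le hp hs.le hA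
      · exact val_form_le hp ht.le hA
    · rw [h2, if_neg hi]
      split_ifs
      · exact val_form_unit hp ht hB
      · exact val_form_unit hp hs hB
  · obtain ⟨A, B, hA, hB, h1, h2⟩ := forms hab q.1 hs' ht'
    rw [if_neg hq] at h1
    rw [if_neg hq, if_pos rfl] at h2
    refine quot_notMem ?_ ?_ (hQ _)
    · rw [h1]; exact val_form_unit hp ht hA
    · rw [h2]
      have : (p : ℂ) * s ^ (d q.1) + p ^ 2 * B = p * (s ^ (d q.1) + p * B) := by ring
      rw [this]
      exact val_p_mul hp (add_mem (pow_mem hs' _) (mul_mem (natCast_mem' p) hB))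

include hd hp hab in
/-- region `|t| < 1 = |s|` -/
lemma region3 {s t : ℂ} (hs : V.valuation s = 1) (ht : V.valuation t < 1)
    (hQ : ∀ i, binForm (d i) (b i) s t ≠ 0) :
    (∀ i, i ≠ q.1 → i ≠ q.2 → binForm (d i) (a i) s t / binForm (d i) (b i) s t ∈ V) ∧
    binForm (d q.2) (a q.2) s t / binForm (d q.2) (b q.2) s t ∉ V := by
  have hs' : s ∈ V := (V.valuation_le_one_iff s).mp hs.le
  have ht' : t ∈ V := (V.valuation_le_one_iff t).mp ht.le
  refine ⟨fun i hi1 hi2 => ?_, ?_⟩
  · obtain ⟨A, B, hA, hB, h1, h2⟩ := forms hab i hs' ht'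
    rw [if_neg hi2] at h1
    rw [if_neg hi2, if_neg hi1] at h2
    refine quot_mem ?_ ?_
    · rw [h1]; exact val_form_le hp ht.le hA
    · rw [h2]; exact val_form_unit hp hs hB
  · obtain ⟨A, B, hA, hB, h1, h2⟩ := forms hab q.2 hs' ht'
    rw [if_pos rfl] at h1
    rw [if_pos rfl] at h2
    refine quot_notMem ?_ ?_ (hQ _)
    · rw [h1]; exact val_form_unit hp hs hA
    · rw [h2]; exact val_form_lt hp (hd _) ht hB

include hd hq hp hab in
/-- the possible integrality patterns on the curve -/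
lemma regions {x : Fin n → ℂ} (hx : x ∈ ratCurve d a b) :
    (x q.1 ∉ V ∧ (∀ i, i ≠ q.2 → x i ∉ V) ∧ x q.2 ∈ V) ∨
    (x q.1 ∉ V ∧ (∀ i, i ≠ q.1 → x i ∈ V)) ∨
    ((∀ i, i ≠ q.1 → i ≠ q.2 → x i ∈ V) ∧ x q.2 ∉ V) := by
  obtain ⟨s, t, hst, hx⟩ := hx
  have hx1 : ∀ i, x i = binForm (d i) (a i) s t / binForm (d i) (b i) s t := fun i => (hx i).2
  have hx0 : ∀ i, binForm (d i) (b i) s t ≠ 0 := fun i => (hx i).1
  -- rescale
  have key : ∀ c : ℂ, c ≠ 0 → (∀ i, binForm (d i) (b i) (c * s) (c * t) ≠ 0) ∧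
      ∀ i, x i = binForm (d i) (a i) (c * s) (c * t) / binForm (d i) (b i) (c * s) (c * t) := by
    intro c hc
    refine ⟨fun i => ?_, fun i => ?_⟩
    · rw [binForm_smul]; exact mul_ne_zero (pow_ne_zero _ hc) (hx0 i)
    · rw [binForm_smul, binForm_smul, mul_div_mul_left _ _ (pow_ne_zero _ hc)]; exact hx1 i
  rcases le_or_gt (V.valuation t) (V.valuation s) with hle | hlt
  · have hs0 : s ≠ 0 := by
      rintro rfl
      rw [map_zero] at hle
      have : V.valuation t = 0 := le_antisymm hle zero_le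
      rw [Valuation.zero_iff] at this
      rcases hst with h | h
      · exact h rfl
      · exact h this
    obtain ⟨k1, k2⟩ := key s⁻¹ (inv_ne_zero hs0)
    rw [inv_mul_cancel₀ hs0] at k1 k2
    have hs1 : V.valuation (1 : ℂ) = 1 := map_one _
    have ht1 : V.valuation (s⁻¹ * t) ≤ 1 := by
      rw [map_mul, map_inv₀]
      exact inv_mul_le_one_of_le₀ hle zero_le
    rcases ht1.lt_or_eq with h | h
    · right; right
      obtain ⟨r1, r2⟩ := region3 hd hp hab hs1 h k1
      exact ⟨fun i h1 h2 => by rw [k2]; exact r1 i h1 h2, by rw [k2]; exact r2⟩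
    · right; left
      obtain ⟨r1, r2⟩ := region2 hq hp hab hs1 h k1
      exact ⟨by rw [k2]; exact r2, fun i h1 => by rw [k2]; exact r1 i h1⟩
  · have ht0 : t ≠ 0 := by
      rintro rfl
      rw [map_zero] at hlt
      exact absurd hlt (not_lt.mpr zero_le)
    obtain ⟨k1, k2⟩ := key t⁻¹ (inv_ne_zero ht0)
    rw [inv_mul_cancel₀ ht0] at k1 k2
    have ht1 : V.valuation (1 : ℂ) = 1 := map_one _
    have hs1 : V.valuation (t⁻¹ * s) < 1 := by
      rw [map_mul, map_inv₀, inv_mul_lt_iff₀ (by rw [zero_lt_iff]; exact (Valuation.ne_zero_iff _).mpr ht0), mul_one]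
      exact hlt
    left
    obtain ⟨r1, r2⟩ := region1 hd hp hab hs1 ht1 k1
    exact ⟨by rw [k2]; exact r1 _ hq, fun i h1 => by rw [k2]; exact r1 i h1, by rw [k2]; exact r2⟩

end model


/-! ### combinatorics of blocks -/

lemma exists_two_none {n m : ℕ} (f : Fin n → Option (Fin m)) (hm : m + 2 ≤ n)
    (hinj : ∀ i j, i ≠ j → f i = f j → f i = none) : ∃ i j, i ≠ j ∧ f i = none ∧ f j = none := by
  by_contra hcon
  push Not at hcon
  -- all but at most one index are mapped injectively to `Fin m`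
  have hcard : n ≤ m + 1 := by
    have hf : Function.Injective f := by
      intro i j hij
      by_contra hne
      have h1 := hinj i j hne hij
      exact hcon i j hne h1 (hij ▸ h1)
    have := Fintype.card_le_of_injective f hf
    simpa using this
  omega

lemma exists_third {n m : ℕ} (f : Fin n → Option (Fin m)) (hm : m + 2 ≤ n) {j k : Fin n}
    (hf : f j = f k) (hsome : f j ≠ none) :
    ∃ a, a ≠ j ∧ a ≠ k ∧ (f a = none ∨ ∃ c, c ≠ a ∧ f c = f a) := by
  by_contra hcon
  push Not at hcon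
  -- then `f` restricted to the complement of `k` is injective with values `≠ none`
  have hnone : ∀ i, f i ≠ none := by
    intro i
    by_cases h1 : i = j
    · rw [h1]; exact hsome
    · by_cases h2 : i = k
      · rw [h2, ← hf]; exact hsome
      · exact (hcon i h1 h2).1
  have hinj : Function.Injective (fun i : {i : Fin n // i ≠ k} => (f i.1).get (Option.isSome_iff_ne_none.mpr (hnone i.1))) := by
    rintro ⟨i, hi⟩ ⟨i', hi'⟩ h
    simp only at h
    have h' : f i = f i' := by
      rw [← Option.some_get (Option.isSome_iff_ne_none.mpr (hnone i)),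
        ← Option.some_get (Option.isSome_iff_ne_none.mpr (hnone i')), h]
    by_contra hne
    have hne' : i ≠ i' := fun h => hne (Subtype.ext h)
    by_cases h1 : i = j
    · have h2 : i' ≠ j := fun h => hne' (h1.trans h.symm)
      exact (hcon i' h2 hi').2 i hne' h'
    · exact (hcon i h1 hi).2 i' hne'.symm h'.symm
  have hc := Fintype.card_le_of_injective _ hinj
  rw [Fintype.card_fin, Fintype.card_subtype_compl, Fintype.card_fin] at hc
  simp at hc
  omega

/-- no point of the curve lies on a special subvariety of codimension at least two, given the local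
conditions at primes attached to all pairs -/
lemma not_atypical {n m : ℕ} {d : Fin n → ℕ} (hd : ∀ i, 1 ≤ d i) {a b : (i : Fin n) → Fin (d i + 1) → ℂ}
    (P : Fin n × Fin n → ℕ) (V : Fin n × Fin n → ValuationSubring ℂ)
    (hp : ∀ q, ((P q : ℂ))⁻¹ ∉ V q)
    (hab : ∀ q, ∀ i k, ∃ z w : ℂ, z ∈ V q ∧ w ∈ V q ∧ a i k = tP q (d i) i k + (P q : ℂ) ^ 2 * z ∧
      b i k = tQ q (P q) (d i) i k + (P q : ℂ) ^ 2 * w)
    (D : SpecialDatum n m) (hm : m + 2 ≤ n) {x : Fin n → ℂ} (hx : x ∈ ratCurve d a b) (hxD : x ∈ D.variety) :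
    False := by
  have hnoneV : ∀ (W : ValuationSubring ℂ) i, D.block i = none → x i ∈ W := by
    intro W i hi
    obtain ⟨e, he⟩ := pattern D hxD W
    have := he i
    rw [hi] at this
    exact this.mpr trivial
  have hblock : ∀ (W : ValuationSubring ℂ) i j, D.block i = D.block j → (x i ∈ W ↔ x j ∈ W) := by
    intro W i j hij
    obtain ⟨e, he⟩ := pattern D hxD W
    rw [he i, he j, hij]
  by_cases hinj : ∀ i j, i ≠ j → D.block i = D.block j → D.block i = none
  · obtain ⟨i, j, hij, hi, hj⟩ := exists_two_none D.block hm hinj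
    have h := regions (q := (i, j)) hd hij (hp (i, j)) (hab (i, j)) hx
    rcases h with h | h | h
    · exact h.1 (hnoneV _ i hi)
    · exact h.1 (hnoneV _ i hi)
    · exact h.2 (hnoneV _ j hj)
  · push Not at hinj
    obtain ⟨j, k, hjk, hf, hsome⟩ := hinj
    obtain ⟨c, hcj, hck, hc⟩ := exists_third D.block hm hf hsome
    have h := regions (q := (c, k)) hd hck (hp (c, k)) (hab (c, k)) hx
    rcases h with h | h | h
    · exact h.2.1 j hjk ((hblock _ j k hf).mpr h.2.2)
    · rcases hc with hc | ⟨c', hc', hcc⟩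
      · exact h.1 (hnoneV _ c hc)
      · exact h.1 ((hblock _ c' c hcc).mp (h.2 c' hc'))
    · exact h.2 ((hblock _ j k hf).mp (h.1 j hcj.symm hjk))


/-! ### primes and the Chinese remainder theorem -/

/-- distinct primes attached to the pairs -/
noncomputable def pr {n : ℕ} (q : Fin n × Fin n) : ℕ := Nat.nth Nat.Prime (finProdFinEquiv q).val

lemma pr_prime {n : ℕ} (q : Fin n × Fin n) : (pr q).Prime :=
  Nat.prime_nth_prime _

lemma pr_inj {n : ℕ} : Function.Injective (pr (n := n)) := by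
  intro q q' h
  have h1 := Nat.nth_injective Nat.infinite_setOfPred_prime h
  exact finProdFinEquiv.injective (Fin.ext h1)

lemma pr_coprime {n : ℕ} : Set.Pairwise ((Finset.univ : Finset (Fin n × Fin n)) : Set (Fin n × Fin n))
    (Function.onFun Nat.Coprime (fun q => pr q ^ 2)) := by
  intro q _ q' _ hne
  exact Nat.Coprime.pow 2 2 ((Nat.coprime_primes (pr_prime q) (pr_prime q')).mpr (fun h => hne (pr_inj h)))

lemma exists_residue {n : ℕ} (r : Fin n × Fin n → ℕ) : ∃ c : ℕ, ∀ q, ∃ z : ℤ, (c : ℂ) = r q + (pr q : ℂ) ^ 2 * z := by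
  obtain ⟨c, hc⟩ := Nat.chineseRemainderOfFinset r (fun q => pr q ^ 2) Finset.univ
    (fun q _ => pow_ne_zero 2 (pr_prime q).ne_zero) pr_coprime
  refine ⟨c, fun q => ?_⟩
  have h1 := (Nat.modEq_iff_dvd.mp (hc q (Finset.mem_univ q)).symm)
  obtain ⟨z, hz⟩ := h1
  refine ⟨z, ?_⟩
  have h2 : (c : ℤ) = r q + (pr q : ℤ) ^ 2 * z := by push_cast at hz; linarith
  exact_mod_cast congrArg (fun y : ℤ => (y : ℂ)) h2

/-- the local conditions at every prime -/
def LocalCond {n : ℕ} (d : Fin n → ℕ) (a b : (i : Fin n) → Fin (d i + 1) → ℂ)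
    (V : Fin n × Fin n → ValuationSubring ℂ) : Prop :=
  ∀ q, ∀ i k, ∃ z w : ℂ, z ∈ V q ∧ w ∈ V q ∧ a i k = tP q (d i) i k + (pr q : ℂ) ^ 2 * z ∧
      b i k = tQ q (pr q) (d i) i k + (pr q : ℂ) ^ 2 * w

lemma no_common_zero {n : ℕ} (hn : 2 ≤ n) {d : Fin n → ℕ} {a b : (i : Fin n) → Fin (d i + 1) → ℂ}
    {V : Fin n × Fin n → ValuationSubring ℂ} (hp : ∀ q, ((pr q : ℂ))⁻¹ ∉ V q) (hab : LocalCond d a b V)
    (i : Fin n) {s t : ℂ} (hst : s ≠ 0 ∨ t ≠ 0) :
    binForm (d i) (a i) s t ≠ 0 ∨ binForm (d i) (b i) s t ≠ 0 := by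
  have : Nontrivial (Fin n) := Fin.nontrivial_iff_two_le.mpr hn
  obtain ⟨k, _⟩ := exists_ne i
  -- use the prime attached to `(k, i)`
  have hone : V (k, i) = V (k, i) := rfl
  rcases le_or_gt ((V (k, i)).valuation t) ((V (k, i)).valuation s) with hle | hlt
  · have hs0 : s ≠ 0 := by
      rintro rfl
      rw [map_zero] at hle
      have : (V (k, i)).valuation t = 0 := le_antisymm hle zero_le
      rw [Valuation.zero_iff] at this
      rcases hst with h | h
      · exact h rfl
      · exact h this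
    left
    have ht1 : (V (k, i)).valuation (s⁻¹ * t) ≤ 1 := by
      rw [map_mul, map_inv₀]
      exact inv_mul_le_one_of_le₀ hle zero_le
    obtain ⟨A, B, hA, hB, h1, h2⟩ := forms (hab (k, i)) i (one_mem (V (k, i)))
      ((ValuationSubring.valuation_le_one_iff _ _).mp ht1)
    rw [if_pos rfl] at h1
    have h3 := binForm_smul (d i) (a i) s⁻¹ s t
    rw [inv_mul_cancel₀ hs0] at h3
    have h4 : (V (k, i)).valuation (binForm (d i) (a i) 1 (s⁻¹ * t)) = 1 := by
      rw [h1]; exact val_form_unit (hp (k, i)) (map_one _) hA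
    intro h5
    rw [h3, h5, mul_zero, map_zero] at h4
    exact zero_ne_one h4
  · have ht0 : t ≠ 0 := by
      rintro rfl
      rw [map_zero] at hlt
      exact absurd hlt (not_lt.mpr zero_le)
    right
    have hs1 : (V (k, i)).valuation (t⁻¹ * s) ≤ 1 := by
      rw [map_mul, map_inv₀]
      exact inv_mul_le_one_of_le₀ hlt.le zero_le
    obtain ⟨A, B, hA, hB, h1, h2⟩ := forms (hab (k, i)) i
      ((ValuationSubring.valuation_le_one_iff _ _).mp hs1) (one_mem (V (k, i)))
    rw [if_pos rfl] at h2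
    have h3 := binForm_smul (d i) (b i) t⁻¹ s t
    rw [inv_mul_cancel₀ ht0] at h3
    have h4 : (V (k, i)).valuation (binForm (d i) (b i) (t⁻¹ * s) 1) = 1 := by
      rw [h2]; exact val_form_unit (hp (k, i)) (map_one _) hB
    intro h5
    rw [h3, h5, mul_zero, map_zero] at h4
    exact zero_ne_one h4

/-- there are points of the curve in the region `|s| = |t| = 1` for each prime -/
lemma exists_point {n : ℕ} (hn : 2 ≤ n) {d : Fin n → ℕ} {a b : (i : Fin n) → Fin (d i + 1) → ℂ}
    {V : Fin n × Fin n → ValuationSubring ℂ} (hp : ∀ q, ((pr q : ℂ))⁻¹ ∉ V q) (hab : LocalCond d a b V)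
    (q : Fin n × Fin n) (hq : q.1 ≠ q.2) : ∃ x ∈ ratCurve d a b, x q.1 ∉ V q ∧ ∀ i, i ≠ q.1 → x i ∈ V q := by
  classical
  have : Nontrivial (Fin n) := Fin.nontrivial_iff_two_le.mpr hn
  -- the dehomogenised denominators
  let Q : Fin n → Polynomial ℂ := fun i => ∑ k : Fin (d i + 1), Polynomial.C (b i k) * Polynomial.X ^ (k : ℕ)
  have hQev : ∀ i u, (Q i).eval u = binForm (d i) (b i) 1 u := by
    intro i u
    simp only [Q, binForm, Polynomial.eval_finset_sum, Polynomial.eval_mul, Polynomial.eval_C,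
      Polynomial.eval_pow, Polynomial.eval_X, one_pow, mul_one]
  have hQ0 : ∀ i, Q i ≠ 0 := by
    intro i h0
    obtain ⟨k, _⟩ := exists_ne i
    -- then all coefficients vanish, so the form vanishes at `(0, 1)`
    have hb : ∀ k, b i k = 0 := by
      intro k
      have h1 := congrArg (fun P => Polynomial.coeff P (k : ℕ)) h0
      simp only [Q, Polynomial.finset_sum_coeff, Polynomial.coeff_C_mul, Polynomial.coeff_X_pow,
        Polynomial.coeff_zero] at h1
      rw [Finset.sum_eq_single k] at h1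
      · simpa using h1
      · intro j _ hj
        have : (k : ℕ) ≠ (j : ℕ) := fun h => hj (Fin.ext h.symm)
        simp [this]
      · simp
    obtain ⟨A, B, hA, hB, h1, h2⟩ := forms (hab (k, i)) i (zero_mem (V (k, i))) (one_mem (V (k, i)))
    rw [if_pos rfl] at h2
    have h4 : (V (k, i)).valuation (binForm (d i) (b i) 0 1) = 1 := by
      rw [h2]; exact val_form_unit (hp (k, i)) (map_one _) hB
    have h5 : binForm (d i) (b i) 0 1 = 0 := by
      unfold binForm
      exact Finset.sum_eq_zero fun k _ => by rw [hb k]; ring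
    rw [h5, map_zero] at h4
    exact zero_ne_one h4
  have hprod : (∏ i, Q i) ≠ 0 := Finset.prod_ne_zero_iff.mpr fun i _ => hQ0 i
  have hinf : Set.Infinite (Set.range (fun N : ℕ => (1 : ℂ) + pr q * N)) := by
    apply Set.infinite_range_of_injective
    intro N N' h
    have h1 : (pr q : ℂ) * N = pr q * N' := add_left_cancel h
    have h2 : (pr q : ℂ) ≠ 0 := by exact_mod_cast (pr_prime q).ne_zero
    exact_mod_cast mul_left_cancel₀ h2 h1
  obtain ⟨u, ⟨N, rfl⟩, hu⟩ : ∃ u ∈ Set.range (fun N : ℕ => (1 : ℂ) + pr q * N), (∏ i, Q i).eval u ≠ 0 := by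
    by_contra hcon
    push Not at hcon
    exact hprod (Polynomial.eq_zero_of_infinite_isRoot _ (hinf.mono fun u hu => hcon u hu))
  have huV : (V q).valuation ((1 : ℂ) + pr q * N) = 1 := by
    have := val_form_unit (X := 1) (d := 1) (hp q) (map_one (V q).valuation) (natCast_mem' (V := V q) N)
    rwa [one_pow] at this
  have hne : ∀ i, binForm (d i) (b i) 1 ((1 : ℂ) + pr q * N) ≠ 0 := by
    intro i
    rw [← hQev]
    rw [Polynomial.eval_prod] at hu
    exact (Finset.prod_ne_zero_iff.mp hu) i (Finset.mem_univ i)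
  refine ⟨fun i => binForm (d i) (a i) 1 ((1 : ℂ) + pr q * N) / binForm (d i) (b i) 1 ((1 : ℂ) + pr q * N),
    ⟨1, (1 : ℂ) + pr q * N, Or.inl one_ne_zero, fun i => ⟨hne i, rfl⟩⟩, ?_⟩
  obtain ⟨r1, r2⟩ := region2 hq (hp q) (hab q) (map_one _) huV hne
  exact ⟨r2, r1⟩

lemma hodgeGeneric {n : ℕ} (hn : 2 ≤ n) {d : Fin n → ℕ} {a b : (i : Fin n) → Fin (d i + 1) → ℂ}
    {V : Fin n × Fin n → ValuationSubring ℂ} (hp : ∀ q, ((pr q : ℂ))⁻¹ ∉ V q) (hab : LocalCond d a b V) :
    HodgeGeneric (ratCurve d a b) := by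
  intro m D hm hsub
  have : Nontrivial (Fin n) := Fin.nontrivial_iff_two_le.mpr hn
  by_cases hnone : ∃ i, D.block i = none
  · obtain ⟨i, hi⟩ := hnone
    obtain ⟨k, hk⟩ := exists_ne i
    obtain ⟨x, hx, h1, _⟩ := exists_point hn hp hab (i, k) hk.symm
    obtain ⟨e, he⟩ := pattern D (hsub hx) (V (i, k))
    have := he i
    rw [hi] at this
    exact h1 (this.mpr trivial)
  · push Not at hnone
    obtain ⟨i, j, hij, hf⟩ : ∃ i j, i ≠ j ∧ D.block i = D.block j := by
      by_contra hcon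
      push Not at hcon
      have hinj : Function.Injective (fun i : Fin n => (D.block i).get (Option.isSome_iff_ne_none.mpr (hnone i))) := by
        intro i j h
        simp only at h
        by_contra hne
        apply hcon i j hne
        rw [← Option.some_get (Option.isSome_iff_ne_none.mpr (hnone i)),
          ← Option.some_get (Option.isSome_iff_ne_none.mpr (hnone j)), h]
      have := Fintype.card_le_of_injective _ hinj
      simp at this
      omega
    obtain ⟨x, hx, h1, h2⟩ := exists_point hn hp hab (i, j) hij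
    obtain ⟨e, he⟩ := pattern D (hsub hx) (V (i, j))
    apply h1
    rw [he i, hf, ← he j]
    exact h2 j hij.symm

/-- **Zilber–Pink for a positive proportion of rational curves in `Y(1)ⁿ`.** -/
theorem result (n : ℕ) (hn : 2 ≤ n) (d : Fin n → ℕ) (hd : ∀ i, 1 ≤ d i) :
    ∃ (M : ℕ) (a₀ b₀ : (i : Fin n) → Fin (d i + 1) → ℤ), 0 < M ∧
      ∀ a b : (i : Fin n) → Fin (d i + 1) → ℂ,
        (∀ i k, ∃ z w : ℂ, IsIntegral ℤ z ∧ IsIntegral ℤ w ∧
          a i k = a₀ i k + M * z ∧ b i k = b₀ i k + M * w) →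
        (∀ i, ∀ s t : ℂ, (s ≠ 0 ∨ t ≠ 0) →
          binForm (d i) (a i) s t ≠ 0 ∨ binForm (d i) (b i) s t ≠ 0) ∧
        HodgeGeneric (ratCurve d a b) ∧ atyp (ratCurve d a b) = ∅ := by
  choose V hV using fun q : Fin n × Fin n => exists_valuationSubring (pr q) (pr_prime q)
  choose a₀ ha₀ using fun i : Fin n => fun k : Fin (d i + 1) => exists_residue (fun q => tP q (d i) i k)
  choose b₀ hb₀ using fun i : Fin n => fun k : Fin (d i + 1) => exists_residue (fun q => tQ q (pr q) (d i) i k)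
  refine ⟨∏ q : Fin n × Fin n, pr q ^ 2, fun i k => (a₀ i k : ℤ), fun i k => (b₀ i k : ℤ), ?_, ?_⟩
  · exact Finset.prod_pos fun q _ => pow_pos (pr_prime q).pos 2
  · intro a b hab
    have hloc : LocalCond d a b V := by
      intro q i k
      obtain ⟨z, w, hz, hw, haz, hbw⟩ := hab i k
      obtain ⟨y, hy⟩ := ha₀ i k q
      obtain ⟨y', hy'⟩ := hb₀ i k q
      obtain ⟨M', hM'⟩ : pr q ^ 2 ∣ ∏ q : Fin n × Fin n, pr q ^ 2 := Finset.dvd_prod_of_mem _ (Finset.mem_univ q)
      refine ⟨y + M' * z, y' + M' * w, ?_, ?_, ?_, ?_⟩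
      · exact add_mem (intCast_mem _ _) (mul_mem (natCast_mem _ _) (mem_of_isIntegral _ hz))
      · exact add_mem (intCast_mem _ _) (mul_mem (natCast_mem _ _) (mem_of_isIntegral _ hw))
      · rw [haz, hM']
        push_cast
        rw [hy]; ring
      · rw [hbw, hM']
        push_cast
        rw [hy']; ring
    refine ⟨fun i s t hst => no_common_zero hn hV hloc i hst, hodgeGeneric hn hV hloc, ?_⟩
    rw [Set.eq_empty_iff_forall_notMem]
    rintro x ⟨hx, m, D, hm, hxD⟩
    exact not_atypical hd pr V hV hloc D hm hx hxD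

end Pool.Agent.Results.MP_e573c6_ag.RationalCurves
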