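import Mathlib
import Pool.Agent.Lib.ModularZP.Defs
import Pool.Agent.Lib.ModularZP.Pattern
import Pool.Agent.ZP46.GoodPl
import Pool.Agent.ZP46.Plane
import Pool.Agent.ZP46.Density

open Pool.Agent.Lib.ModularZP Pool.Agent.ZP46 MvPolynomial Filter Topology

namespace Pool.Agent.ZP46.OldTorusSurface

/-- The curve in `Y(1)³ = ℂ³` cut out by `F(u) = 0` in the torus
`x₀ = l₀ u₀/u₁, x₁ = l₁ u₁/u₂, x₂ = l₂ u₂/u₀`, i.e. in the surface `x₀ x₁ x₂ = l₀ l₁ l₂`. -/
def curve (F : MvPolynomial (Fin 3) ℂ) (l : Fin 3 → ℚ) : Set (Fin 3 → ℂ) :=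
  {x | ∃ u : Fin 3 → ℂ, (∀ i, u i ≠ 0) ∧ eval u F = 0 ∧ ∀ i, x i = l i * (u i / u (i + 1))}

/-- `p` is a good prime for `F`: at some valuation ring of `ℂ` of residue characteristic `p` the
coefficients of `F` are integral and those of the pure powers `u_i ^ d` are units. -/
def GoodPrime (F : MvPolynomial (Fin 3) ℂ) (d p : ℕ) : Prop :=
  ∃ V : ValuationSubring ℂ, V.valuation (p : ℂ) < 1 ∧ (∀ e, F.coeff e ∈ V) ∧
    ∀ i, V.valuation (F.coeff (Finsupp.single i d)) = 1

section val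

variable {V : ValuationSubring ℂ}

lemma val_int_unit {p : ℕ} (hp : p.Prime) (hV : V.valuation (p : ℂ) < 1) {z : ℤ} (hz : ¬ (p : ℤ) ∣ z) :
    V.valuation (z : ℂ) = 1 := by
  have hco : IsCoprime (z : ℤ) (p : ℤ) := by
    rw [isCoprime_comm]
    exact (Prime.coprime_iff_not_dvd (Nat.prime_iff_prime_int.mp hp)).mpr hz
  obtain ⟨a, b, hab⟩ := hco
  have h1 : V.valuation (z : ℂ) ≤ 1 := (V.valuation_le_one_iff _).mpr (intCast_mem V z)
  refine le_antisymm h1 ?_
  by_contra hlt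
  push Not at hlt
  have h2 : ((a : ℂ)) * (z : ℂ) + (b : ℂ) * (p : ℂ) = 1 := by exact_mod_cast hab
  have hmul : ∀ (c : ℤ) (y : ℂ), V.valuation y < 1 → V.valuation ((c : ℂ) * y) < 1 := by
    intro c y hy
    rw [map_mul]
    calc V.valuation (c : ℂ) * V.valuation y ≤ 1 * V.valuation y :=
          mul_le_mul_left ((V.valuation_le_one_iff _).mpr (intCast_mem V c)) _
      _ < 1 := by rwa [one_mul]
  have h3 := V.valuation.map_add_lt (hmul a _ hlt) (hmul b _ hV)
  rw [h2, map_one] at h3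
  exact lt_irrefl _ h3

lemma rat_eq (r : ℚ) : (r : ℂ) = (r.num : ℂ) / ((r.den : ℤ) : ℂ) := by
  have := Rat.cast_def (K := ℂ) r
  rw [this]; simp

lemma val_rat_unit {p : ℕ} (hp : p.Prime) (hV : V.valuation (p : ℂ) < 1) {r : ℚ} (h1 : ¬ (p : ℤ) ∣ r.num)
    (h2 : ¬ p ∣ r.den) : V.valuation (r : ℂ) = 1 := by
  rw [rat_eq, map_div₀, val_int_unit hp hV h1, val_int_unit hp hV (by exact_mod_cast h2), div_one]

lemma val_rat_le {p : ℕ} (hp : p.Prime) (hV : V.valuation (p : ℂ) < 1) {r : ℚ} (h2 : ¬ p ∣ r.den) :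
    V.valuation (r : ℂ) ≤ 1 := by
  rw [rat_eq, map_div₀, val_int_unit (z := (r.den : ℤ)) hp hV (by exact_mod_cast h2), div_one]
  exact (V.valuation_le_one_iff _).mpr (intCast_mem V _)

lemma val_rat_big {p : ℕ} (hp : p.Prime) (hV : V.valuation (p : ℂ) < 1) {r : ℚ} (h2 : p ∣ r.den) :
    1 < V.valuation (r : ℂ) := by
  have h1 : ¬ (p : ℤ) ∣ r.num := by
    intro h
    have h4 : p ∣ r.num.natAbs := Int.natCast_dvd.mp h
    have := Nat.dvd_gcd h4 h2
    rw [r.reduced.gcd_eq_one] at this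
    exact hp.one_lt.ne' (Nat.dvd_one.mp this)
  have h3 : (r : ℂ) = (r.num : ℂ) / ((r.den : ℕ) : ℂ) := Rat.cast_def r
  obtain ⟨k, hk⟩ := h2
  have hd0 : ((r.den : ℕ) : ℂ) ≠ 0 := by exact_mod_cast r.den_ne_zero
  have h5 : V.valuation ((r.den : ℕ) : ℂ) < 1 := by
    rw [hk]
    push_cast
    rw [map_mul]
    calc V.valuation (p : ℂ) * V.valuation (k : ℂ) ≤ V.valuation (p : ℂ) * 1 :=
          mul_le_mul_right ((V.valuation_le_one_iff _).mpr (natCast_mem V k)) _
      _ < 1 := by rwa [mul_one]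
  rw [h3, map_div₀, val_int_unit hp hV h1, one_div]
  exact (one_lt_inv₀ (zero_lt_iff.mpr (by rwa [Ne, map_eq_zero]))).mpr h5

end val

/-- all large primes are good -/
theorem goodPrime_large (F : MvPolynomial (Fin 3) ℂ) (d : ℕ) (hc : ∀ i, F.coeff (Finsupp.single i d) ≠ 0) :
    ∃ P₀ : ℕ, ∀ p : ℕ, p.Prime → P₀ < p → GoodPrime F d p := by
  classical
  obtain ⟨P₀, hP₀⟩ := exists_good (F.support.image fun e => F.coeff e)
  refine ⟨P₀, fun p hp hlt => ?_⟩
  obtain ⟨V, hV, hVT⟩ := hP₀ p hp hlt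
  refine ⟨V, hV, fun e => ?_, fun i => ?_⟩
  · by_cases he : F.coeff e = 0
    · rw [he]; exact zero_mem _
    · exact (hVT _ (Finset.mem_image_of_mem _ (mem_support_iff.mpr he))).1
  · exact (hVT _ (Finset.mem_image_of_mem _ (mem_support_iff.mpr (hc i)))).2 (hc i)

/-- if the coefficients are algebraic integers and the pure ones units, all primes are good -/
theorem goodPrime_all (F : MvPolynomial (Fin 3) ℂ) (d : ℕ) (hc : ∀ i, F.coeff (Finsupp.single i d) ≠ 0)
    (h1 : ∀ e, IsIntegral ℤ (F.coeff e)) (h2 : ∀ i, IsIntegral ℤ (F.coeff (Finsupp.single i d))⁻¹) :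
    ∀ p : ℕ, p.Prime → GoodPrime F d p := by
  intro p hp
  obtain ⟨V, hV⟩ := exists_valuationSubring p hp
  refine ⟨V, ?_, fun e => mem_of_isIntegral V (h1 e), fun i => ?_⟩
  · rw [← not_le]
    intro h
    apply hV
    rw [← ValuationSubring.valuation_le_one_iff, map_inv₀]
    exact inv_le_one_of_one_le₀ h
  · have h3 : V.valuation (F.coeff (Finsupp.single i d)) ≤ 1 :=
      (V.valuation_le_one_iff _).mpr (mem_of_isIntegral V (h1 _))
    have h4 : V.valuation (F.coeff (Finsupp.single i d))⁻¹ ≤ 1 :=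
      (V.valuation_le_one_iff _).mpr (mem_of_isIntegral V (h2 i))
    refine le_antisymm h3 ?_
    rw [map_inv₀] at h4
    exact (inv_le_one₀ (zero_lt_iff.mpr (by rw [Ne, map_eq_zero]; exact hc i))).mp h4

/-- an arithmetic criterion -/
theorem criterion (F : MvPolynomial (Fin 3) ℂ) (d : ℕ) (hd : d ≠ 0) (hF : F.IsHomogeneous d)
    (l : Fin 3 → ℚ) (hl : ∀ j, ∃ p : ℕ, p.Prime ∧ GoodPrime F d p ∧ p ∣ (l j).den ∧ ¬ p ∣ (l (j + 1)).den ∧
        ¬ (p : ℤ) ∣ (l (j + 2)).num ∧ ¬ p ∣ (l (j + 2)).den) :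
      HodgeGeneric (curve F l) ∧ atyp (curve F l) = ∅ := by
  classical
  choose p hp hpP hpa hpb hpc hpc' using hl
  choose V hV hVT1 hVT2 using hpP
  have hgood : ∀ j, GoodAt (V j) F d := fun j => ⟨hVT1 j, hVT2 j⟩
  have hbig : ∀ j, 1 < (V j).valuation (l j : ℂ) := fun j => val_rat_big (hp j) (hV j) (hpa j)
  have hl0 : ∀ j, (l j : ℂ) ≠ 0 := by
    intro j h
    have := hbig j
    rw [h, map_zero] at this
    exact not_lt_zero this
  -- the arithmetic of `Fin 3`
  have hfin : ∀ a b : Fin 3, a ≠ b → b = a + 2 ∨ a = b + 2 := by decide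
  have hfin1 : ∀ a : Fin 3, a ≠ a + 1 := by decide
  have hfin2 : ∀ a : Fin 3, a + 1 ≠ a + 2 := by decide
  have hfin3 : ∀ a : Fin 3, a + 2 ≠ a := by decide
  have hfin4 : ∀ a : Fin 3, a + 2 + 1 = a := by decide
  have hfin5 : ∀ a : Fin 3, a + 1 + 1 = a + 2 := by decide
  have hfin6 : ∀ a : Fin 3, a + 1 + 2 = a := by decide
  have key : ∀ {x : Fin 3 → ℂ}, x ∈ curve F l → ∀ a,
      (x a ∈ V a → x (a + 1) ∈ V a ∧ x (a + 2) ∉ V a) ∧ ¬ (x (a + 1) ∉ V a ∧ x (a + 2) ∉ V a) := by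
    rintro x ⟨u, hu, h0, hx⟩ a
    have h1 := local_pattern hF (hgood a) hu h0 (hfin1 a) (hfin3 a) (hbig a)
      (val_rat_le (hp a) (hV a) (hpb a)) (val_rat_unit (hp a) (hV a) (hpc a) (hpc' a))
    rw [hx a, hx (a + 1), hx (a + 2), hfin5, hfin4]
    exact h1
  -- points with a prescribed coordinate
  have hpoint : ∀ (a : Fin 3) (y : ℂ), y ≠ 0 → y ∈ V a → ∃ x ∈ curve F l, x a = y := by
    intro a y hy0 hyV
    obtain ⟨u, hu, h0, hua, hub⟩ := exists_point hF hd (hgood a) (hfin1 a) (hfin2 a) (hfin3 a) (y := y) (z := (l a : ℂ))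
      hy0 (hl0 a) ((((V a).valuation_le_one_iff _).mpr hyV).trans_lt (hbig a))
    refine ⟨fun i => l i * (u i / u (i + 1)), ⟨u, hu, h0, fun i => rfl⟩, ?_⟩
    show (l a : ℂ) * (u a / u (a + 1)) = y
    rw [hua, hub]
    field_simp [hl0 a]
  refine ⟨?_, ?_⟩
  · intro m D hm hsub
    by_cases hnone : ∃ a, D.block a = none
    · obtain ⟨a, ha⟩ := hnone
      -- the coordinate is constant
      have hconst : ∀ x ∈ curve F l, x a = jInv (D.cm a) := by
        intro x hx
        obtain ⟨τ, hτ⟩ := hsub hx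
        rw [hτ a]
        unfold SpecialDatum.coord
        rw [ha]
      obtain ⟨x, hx, hx1⟩ := hpoint a 1 one_ne_zero (V a).one_mem
      obtain ⟨y, hy, hy2⟩ := hpoint a 2 two_ne_zero (by
        have := natCast_mem (V a) 2
        exact_mod_cast this)
      have h1 := hconst x hx
      have h2 := hconst y hy
      rw [hx1] at h1
      rw [hy2, ← h1] at h2
      norm_num at h2
    · push Not at hnone
      obtain ⟨a, b, hab, hf⟩ : ∃ a b, a ≠ b ∧ D.block a = D.block b := by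
        by_contra hcon
        push Not at hcon
        have hinj : Function.Injective (fun i : Fin 3 => (D.block i).get (Option.isSome_iff_ne_none.mpr (hnone i))) := by
          intro i j h
          simp only at h
          by_contra hne
          apply hcon i j hne
          rw [← Option.some_get (Option.isSome_iff_ne_none.mpr (hnone i)),
            ← Option.some_get (Option.isSome_iff_ne_none.mpr (hnone j)), h]
        have := Fintype.card_le_of_injective _ hinj
        simp at this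
        omega
      have hmain : ∀ a b, b = a + 2 → D.block a = D.block b → False := by
        rintro a _ rfl hf
        obtain ⟨x, hx, hxa⟩ := hpoint a 1 one_ne_zero (V a).one_mem
        have hxa' : x a ∈ V a := by rw [hxa]; exact (V a).one_mem
        obtain ⟨e, he⟩ := pattern D (hsub hx) (V a)
        have h1 := ((key hx a).1 hxa').2
        apply h1
        rw [he (a + 2), ← hf, ← he a]
        exact hxa'
      rcases hfin a b hab with h | h
      · exact hmain a b h hf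
      · exact hmain b a h hf.symm
  · rw [Set.eq_empty_iff_forall_notMem]
    rintro x ⟨hx, m, D, hm, hxD⟩
    by_cases hnone : ∃ a, D.block a = none
    · obtain ⟨a, ha⟩ := hnone
      have hint : ∀ a, D.block a = none → ∀ c, x a ∈ V c := by
        intro a ha c
        obtain ⟨e, he⟩ := pattern D hxD (V c)
        rw [he a, ha]
        trivial
      obtain ⟨h1, h2⟩ := (key hx a).1 (hint a ha a)
      have h3 : D.block (a + 2) ≠ none := fun h => h2 (hint _ h a)
      by_cases h4 : D.block (a + 1) = none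
      · have h5 := ((key hx (a + 1)).1 (hint _ h4 _)).2
        rw [hfin6] at h5
        exact h5 (hint a ha _)
      · -- both in the unique block
        have h6 : D.block (a + 2) = D.block (a + 1) := by
          obtain ⟨k, hk⟩ := Option.ne_none_iff_exists'.mp h3
          obtain ⟨k', hk'⟩ := Option.ne_none_iff_exists'.mp h4
          rw [hk, hk']
          have : k = k' := Fin.ext (by have := k.2; have := k'.2; omega)
          rw [this]
        obtain ⟨e, he⟩ := pattern D hxD (V a)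
        apply h2
        rw [he (a + 2), h6, ← he (a + 1)]
        exact h1
    · push Not at hnone
      have hall : ∀ a b, D.block a = D.block b := by
        intro a b
        obtain ⟨k, hk⟩ := Option.ne_none_iff_exists'.mp (hnone a)
        obtain ⟨k', hk'⟩ := Option.ne_none_iff_exists'.mp (hnone b)
        rw [hk, hk']
        have : k = k' := Fin.ext (by have := k.2; have := k'.2; omega)
        rw [this]
      obtain ⟨e, he⟩ := pattern D hxD (V 0)
      have h01 : x 0 ∈ V 0 ↔ x 1 ∈ V 0 := by rw [he 0, he 1, hall 0 1]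
      have h02 : x 0 ∈ V 0 ↔ x 2 ∈ V 0 := by rw [he 0, he 2, hall 0 2]
      obtain ⟨k1, k2⟩ := key hx 0
      have k1' : x 0 ∈ V 0 → x 1 ∈ V 0 ∧ x 2 ∉ V 0 := k1
      have k2' : ¬ (x 1 ∉ V 0 ∧ x 2 ∉ V 0) := k2
      by_cases h : x 0 ∈ V 0
      · exact (k1' h).2 (h02.mp h)
      · exact k2' ⟨fun h' => h (h01.mpr h'), fun h' => h (h02.mpr h')⟩

/-- the coefficients of the translate by `t` -/
noncomputable def twist (c : Fin 3 → ℚ) (t : Fin 3 → ℕ) : Fin 3 → ℚ := fun i => c i * ((t i : ℚ) / (t (i + 1) : ℚ))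

open Classical in
/-- the number of translates of height at most `H` which fail -/
noncomputable def badCount (F : MvPolynomial (Fin 3) ℂ) (c : Fin 3 → ℚ) (H : ℕ) : ℕ :=
  ((Fintype.piFinset fun _ : Fin 3 => Finset.Icc 1 H).filter fun t : Fin 3 → ℕ =>
    ¬ (HodgeGeneric (curve F (twist c t)) ∧ atyp (curve F (twist c t)) = ∅)).card

lemma num_den (r : ℚ) {p : ℕ} (hp : p.Prime) (a b c d : ℤ)
    (h : r = (a / b) * (c / d)) (hc : ¬ (p : ℤ) ∣ b) (hd' : ¬ (p : ℤ) ∣ d) : ¬ p ∣ r.den := by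
  intro h1
  have h2 : (r.den : ℤ) ∣ b * d := by
    have h3 : r = Rat.divInt (a * c) (b * d) := by
      rw [h, Rat.divInt_eq_div]
      push_cast
      rw [div_mul_div_comm]
    rw [h3]
    exact Rat.den_dvd _ _
  have hpp : Prime (p : ℤ) := Nat.prime_iff_prime_int.mp hp
  rcases hpp.dvd_or_dvd ((Int.natCast_dvd_natCast.mpr h1).trans h2) with h4 | h4
  · exact hc h4
  · exact hd' h4

lemma num_num (r : ℚ) {p : ℕ} (hp : p.Prime) (a b c d : ℤ) (hb : b ≠ 0) (hd : d ≠ 0)
    (h : r = (a / b) * (c / d)) (ha' : ¬ (p : ℤ) ∣ a) (hc' : ¬ (p : ℤ) ∣ c) : ¬ (p : ℤ) ∣ r.num := by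
  intro h1
  have h2 : r.num ∣ a * c := by
    have h3 : r = Rat.divInt (a * c) (b * d) := by
      rw [h, Rat.divInt_eq_div]
      push_cast
      rw [div_mul_div_comm]
    rw [h3]
    exact Rat.num_dvd _ (mul_ne_zero hb hd)
  have hpp : Prime (p : ℤ) := Nat.prime_iff_prime_int.mp hp
  rcases hpp.dvd_or_dvd (h1.trans h2) with h4 | h4
  · exact ha' h4
  · exact hc' h4

/-- **Almost all torus translates of a plane curve in the surface `x₀ x₁ x₂ = L` satisfy Zilber–Pink.** -/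
theorem result (F : MvPolynomial (Fin 3) ℂ) (d : ℕ) (hd : d ≠ 0) (hF : F.IsHomogeneous d)
    (hc : ∀ i, F.coeff (Finsupp.single i d) ≠ 0) :
    (∃ P₀ : ℕ, ∀ p : ℕ, p.Prime → P₀ < p → GoodPrime F d p) ∧
    ((∀ e, IsIntegral ℤ (F.coeff e)) → (∀ i, IsIntegral ℤ (F.coeff (Finsupp.single i d))⁻¹) →
      ∀ p : ℕ, p.Prime → GoodPrime F d p) ∧
    (∀ l : Fin 3 → ℚ,
      (∀ j, ∃ p : ℕ, p.Prime ∧ GoodPrime F d p ∧ p ∣ (l j).den ∧ ¬ p ∣ (l (j + 1)).den ∧
        ¬ (p : ℤ) ∣ (l (j + 2)).num ∧ ¬ p ∣ (l (j + 2)).den) →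
      HodgeGeneric (curve F l) ∧ atyp (curve F l) = ∅) ∧
    (∀ c : Fin 3 → ℚ, (∀ i, c i ≠ 0) →
      Tendsto (fun H : ℕ => (badCount F c H : ℝ) / (H : ℝ) ^ 3) atTop (𝓝 0)) := by
  classical
  refine ⟨goodPrime_large F d hc, goodPrime_all F d hc, criterion F d hd hF, fun c hc0 => ?_⟩
  obtain ⟨P₀, hP⟩ := goodPrime_large F d hc
  -- avoid the numerators and denominators of the constants
  set Q : ℕ := P₀ + ∑ i, ((c i).num.natAbs + (c i).den) with hQ
  have hQ1 : P₀ ≤ Q := Nat.le_add_right _ _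
  have hQ2 : ∀ i, (c i).num.natAbs ≤ Q ∧ (c i).den ≤ Q := by
    intro i
    have h : (c i).num.natAbs + (c i).den ≤ ∑ i, ((c i).num.natAbs + (c i).den) :=
      Finset.single_le_sum (f := fun i => (c i).num.natAbs + (c i).den) (fun _ _ => Nat.zero_le _) (Finset.mem_univ i)
    omega
  have hcn : ∀ (p : ℕ), Q < p → ∀ i, ¬ (p : ℤ) ∣ (c i).num := by
    intro p hp i h
    have h1 : p ∣ (c i).num.natAbs := Int.natCast_dvd.mp h
    have h2 : 0 < (c i).num.natAbs := Int.natAbs_pos.mpr (Rat.num_ne_zero.mpr (hc0 i))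
    have := Nat.le_of_dvd h2 h1
    have := (hQ2 i).1
    omega
  have hcd : ∀ (p : ℕ), Q < p → ∀ i, ¬ (p : ℤ) ∣ ((c i).den : ℤ) := by
    intro p hp i h
    have h1 : p ∣ (c i).den := by exact_mod_cast h
    have := Nat.le_of_dvd (c i).den_pos h1
    have := (hQ2 i).2
    omega
  have hfin4 : ∀ a : Fin 3, a + 2 + 1 = a := by decide
  have hfin5 : ∀ a : Fin 3, a + 1 + 1 = a + 2 := by decide
  refine density (Bad := fun t : Fin 3 → ℕ =>
    ¬ (HodgeGeneric (curve F (twist c t)) ∧ atyp (curve F (twist c t)) = ∅)) Q ?_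
  intro t ht hpriv
  rw [not_not]
  refine criterion F d hd hF _ fun j => ?_
  -- the prime comes from the coordinate `j + 1`
  obtain ⟨p, hp, hpQ, h1, h2, h3⟩ := hpriv (j + 1)
  rw [hfin5] at h2
  have h3' : ¬ p ∣ t j := by
    have : j + 1 + 2 = j := by
      clear h1 h2 h3
      revert j
      decide
    rwa [this] at h3
  have hrep : ∀ i, twist c t i = (((c i).num : ℤ) / ((c i).den : ℤ) : ℚ) * ((((t i : ℕ) : ℤ) : ℚ) / (((t (i + 1) : ℕ) : ℤ) : ℚ)) := by
    intro i
    unfold twist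
    congr 1
    push_cast
    exact (Rat.num_div_den (c i)).symm
  have hd0 : ∀ i, ((c i).den : ℤ) ≠ 0 := fun i => by exact_mod_cast (c i).den_ne_zero
  have ht0 : ∀ i, ((t i : ℕ) : ℤ) ≠ 0 := fun i => by exact_mod_cast (ht i).ne'
  have hn0 : ∀ i, (c i).num ≠ 0 := fun i => Rat.num_ne_zero.mpr (hc0 i)
  refine ⟨p, hp, hP p hp (by omega), ?_, ?_, ?_, ?_⟩
  · -- the prime divides the denominator of the coefficient `j`
    by_contra hnd
    have h5 : twist c t j * ((c j).den : ℚ) * (t (j + 1) : ℚ) = ((c j).num : ℚ) * (t j : ℚ) := by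
      rw [hrep]
      have e1 : ((c j).den : ℚ) ≠ 0 := by exact_mod_cast (c j).den_ne_zero
      have e2 : (t (j + 1) : ℚ) ≠ 0 := by exact_mod_cast (ht (j + 1)).ne'
      push_cast
      field_simp
    have h6 : (twist c t j).num * ((c j).den : ℤ) * (t (j + 1) : ℤ) = (c j).num * (t j : ℤ) * (twist c t j).den := by
      have h7 := Rat.mul_den_eq_num (twist c t j)
      have : (((twist c t j).num * ((c j).den : ℤ) * (t (j + 1) : ℤ) : ℤ) : ℚ) = (((c j).num * (t j : ℤ) * (twist c t j).den : ℤ) : ℚ) := by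
        push_cast
        rw [← h7, ← h5]
        ring
      exact_mod_cast this
    have h7 : (p : ℤ) ∣ (c j).num * (t j : ℤ) * (twist c t j).den := by
      rw [← h6]
      exact Dvd.dvd.mul_left (by exact_mod_cast h1) _
    have hpp : Prime (p : ℤ) := Nat.prime_iff_prime_int.mp hp
    rcases hpp.dvd_or_dvd h7 with h8 | h8
    · rcases hpp.dvd_or_dvd h8 with h9 | h9
      · exact hcn p hpQ j h9
      · exact h3' (by exact_mod_cast h9)
    · exact hnd (by exact_mod_cast h8)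
  · refine num_den _ hp _ _ _ _ (hrep (j + 1)) (hcd p hpQ _) ?_
    rw [hfin5]
    exact_mod_cast h2
  · refine num_num _ hp _ _ _ _ (hd0 (j + 2)) (ht0 (j + 2 + 1)) (hrep (j + 2)) (hcn p hpQ _) ?_
    exact_mod_cast h2
  · refine num_den _ hp _ _ _ _ (hrep (j + 2)) (hcd p hpQ _) ?_
    rw [hfin4]
    exact_mod_cast h3'

end Pool.Agent.ZP46.OldTorusSurface
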